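import Pool.Agent.H990.SU.Unit
import Pool.Agent.H990.SF.Small

/-!
# The overlaps are units over `p`: all directions
-/

set_option autoImplicit false
set_option linter.unusedSectionVars false
set_option linter.unusedVariables false

namespace Pool.Agent.H990.SU

open Finset Pool.Agent.H207.WH Pool.Agent.H990.SF

variable {L : Type*} [Field L] [CharZero L] {B : ValuationSubring L} {p : ℕ} [Fact p.Prime]

/-- overlaps invariant under `(0, 1)` -/
theorem core (hp5 : 5 ≤ p) (hex : ¬ Exceptional p) (hB : (p : L) ∈ B.nonunits)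
    {χ : AddChar (ZMod p) L} (hχ : χ.IsPrimitive) {w u : ZMod p → L} (hS : Sic χ w u) (A0 : L)
    (hA : 1 < B.valuation A0) (hm : ∀ a b, B.valuation (ov χ w u a b) ≤ B.valuation A0)
    (hinv : ∀ a b, rs B (ov χ w u a b / A0) = rs B (ov χ w u a 0 / A0)) (a0 : ZMod p)
    (h0 : ∀ b, rs B (ov χ w u a0 b / A0) = 1) : False := by
  have hA0 : A0 ≠ 0 := by
    intro h; rw [h, map_zero] at hA; exact not_lt_of_ge zero_le hA
  have hpos : 0 < B.valuation A0 := zero_lt_one.trans hA
  have hmem : ∀ a b, ov χ w u a b / A0 ∈ B := by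
    intro a b
    rw [← B.valuation_le_one_iff, map_div₀, div_le_one₀ hpos]
    exact hm a b
  have hatt : ∀ b, B.valuation (ov χ w u a0 b) = B.valuation A0 := by
    intro b
    have h1 : rs B (ov χ w u a0 b / A0) ≠ 0 := by rw [h0]; exact one_ne_zero
    rw [rs_ne_zero_val B (hmem _ _), map_div₀, div_eq_one_iff_eq hpos.ne'] at h1
    exact h1
  have hent := good_frame hp5 hB hχ hS A0 hm hA (by
    intro a b
    have h1 : rs B (ov χ w u a b / A0 - ov χ w u a 0 / A0) = 0 := by
      rw [rs_sub B (hmem _ _) (hmem _ _), hinv a b, sub_self]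
    rw [rs_eq_zero_val B (B.sub_mem (hmem _ _) (hmem _ _)), ← sub_div, map_div₀,
      div_lt_one₀ hpos] at h1
    exact h1) a0 hatt
  exact unit_frame hp5 hex hB hχ hS A0 hA hent a0 hatt

/-- **The largest overlap is a unit.** -/
theorem max_le_one (hp5 : 5 ≤ p) (hex : ¬ Exceptional p) (hB : (p : L) ∈ B.nonunits)
    {χ : AddChar (ZMod p) L} (hχ : χ.IsPrimitive) {w u : ZMod p → L} (hS : Sic χ w u)
    (a b : ZMod p) : B.valuation (ov χ w u a b) ≤ 1 := by
  have hp : p.Prime := Fact.out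
  have hp2 : p ≠ 2 := by omega
  obtain ⟨x0, y0, hA0, hmem, v, v', hvv, hinv⟩ := red B hp2 hB hχ hS
  set A0 := ov χ w u x0 y0 with hA0d
  have hmax : ∀ x y, B.valuation (ov χ w u x y) ≤ B.valuation A0 := by
    intro x y
    have h1 := hmem x y
    rw [← B.valuation_le_one_iff, map_div₀, div_le_one₀] at h1
    · exact h1
    · exact zero_lt_iff.mpr ((map_ne_zero _).mpr hA0)
  refine (hmax a b).trans ?_
  by_contra hcon
  push Not at hcon
  have hinvj : ∀ j x y : ZMod p, rs B (ov χ w u (x + j * v) (y + j * v') / A0)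
      = rs B (ov χ w u x y / A0) := fun j x y =>
    inv_mul (fun g : ZMod p × ZMod p => rs B (ov χ w u g.1 g.2 / A0)) (v, v')
      (fun g => hinv g.1 g.2) j (x, y)
  have h00 : rs B (ov χ w u x0 y0 / A0) = 1 := by rw [← hA0d, div_self hA0, rs_one]
  by_cases hv : v = 0
  · have hv' : v' ≠ 0 := by
      rcases hvv with h | h
      · exact absurd hv h
      · exact h
    have h1 : ∀ x b b', rs B (ov χ w u x b / A0) = rs B (ov χ w u x b' / A0) := by
      intro x b b'
      have h2 := hinvj ((b - b') / v') x b'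
      rw [hv, mul_zero, add_zero, div_mul_cancel₀ _ hv'] at h2
      have e1 : b' + (b - b') = b := by ring
      rwa [e1] at h2
    exact core hp5 hex hB hχ hS A0 hcon hmax (fun a b => h1 a b 0) x0
      (fun b => (h1 x0 b y0).trans h00)
  · obtain ⟨w', u', hS', hrot⟩ := rotate_sic hχ hp2 hS (v' / v)
    have hrs : ∀ a b, rs B (ov χ w' u' a b / A0)
        = rs B (ov χ w u (-b) (a - v' / v * b) / A0) := by
      intro a b
      obtain ⟨j, hj⟩ := hrot a b
      rw [hj, mul_div_assoc, rs_mul B (chi_mem B χ _) (hmem _ _), rs_chi B hB, one_mul]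
    have h1 : ∀ a b, rs B (ov χ w' u' a b / A0) = rs B (ov χ w u 0 a / A0) := by
      intro a b
      rw [hrs, ← hinvj (-b / v) 0 a]
      congr 3
      · rw [zero_add, div_mul_cancel₀ _ hv]
      · field_simp
        ring
    apply core hp5 hex hB hχ hS' A0 hcon _ (fun a b => (h1 a b).trans (h1 a 0).symm)
      (y0 - v' / v * x0)
    · intro b
      rw [h1, ← hinvj (x0 / v) 0 _, ← h00]
      congr 3
      · rw [zero_add, div_mul_cancel₀ _ hv]
      · field_simp
        ring
    · intro a b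
      obtain ⟨j, hj⟩ := hrot a b
      rw [hj, val_chi_mul]
      exact hmax _ _

/-- **The overlaps are units.** -/
theorem all_unit (hp5 : 5 ≤ p) (hex : ¬ Exceptional p) (hB : (p : L) ∈ B.nonunits)
    {χ : AddChar (ZMod p) L} (hχ : χ.IsPrimitive) {w u : ZMod p → L} (hS : Sic χ w u)
    (a b : ZMod p) : B.valuation (ov χ w u a b) = 1 := by
  by_cases hab : a = 0 ∧ b = 0
  · rw [hab.1, hab.2, hS.zero, map_one]
  · have h1 := flatV hB hS a b hab
    have h2 := max_le_one hp5 hex hB hχ hS a b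
    have h3 := max_le_one hp5 hex hB hχ hS (-a) (-b)
    exact (eq_of_mul h2 h3 (by rw [h1, one_mul]) (by rw [one_mul]; exact one_ne_zero)).1

/-- **The congruences.** -/
theorem all_inv (hp5 : 5 ≤ p) (hex : ¬ Exceptional p) (hB : (p : L) ∈ B.nonunits)
    {χ : AddChar (ZMod p) L} (hχ : χ.IsPrimitive) {w u : ZMod p → L} (hS : Sic χ w u) :
    ∃ v v' : ZMod p, (v ≠ 0 ∨ v' ≠ 0) ∧ ∀ a b,
      rs B (ov χ w u (a + v) (b + v')) = rs B (ov χ w u a b) := by
  have hp : p.Prime := Fact.out
  have hp2 : p ≠ 2 := by omega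
  obtain ⟨x0, y0, hA0, hmem, v, v', hvv, hinv⟩ := red B hp2 hB hχ hS
  refine ⟨v, v', hvv, fun a b => ?_⟩
  have h1 := hinv a b
  have hu := all_unit hp5 hex hB hχ hS x0 y0
  have hmem' : ∀ a b, ov χ w u a b ∈ B := fun a b => mem_of_val B (all_unit hp5 hex hB hχ hS a b)
  rw [div_eq_mul_inv, div_eq_mul_inv, rs_mul B (hmem' _ _) (inv_mem_of_val B hu),
    rs_mul B (hmem' _ _) (inv_mem_of_val B hu), rs_inv B hu] at h1
  exact mul_right_cancel₀ (inv_ne_zero ((rs_ne_zero_val B (hmem' _ _)).mpr hu)) h1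

end Pool.Agent.H990.SU
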