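import Pool.Agent.H990.SU.Final
import Pool.Graph.R_seed8.Y387.SF.Fid

/-!
# Triple products of maximal equiangular tight frames with transitive symmetries
-/

set_option autoImplicit false
set_option linter.unusedSectionVars false
set_option linter.unusedVariables false

namespace Pool.Agent.H990.SU

open Finset Pool.Agent.H207.WH Pool.Agent.H990.SF ComplexConjugate

variable {p : ℕ} [Fact p.Prime]

theorem IsUnitAt.mul {K : Type*} [Field K] {x y : K} (hx : IsUnitAt p x) (hy : IsUnitAt p y) :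
    IsUnitAt p (x * y) := by
  have hp : p.Prime := Fact.out
  obtain ⟨hx0, n, hn, hn1, hn2⟩ := hx
  obtain ⟨hy0, m, hm, hm1, hm2⟩ := hy
  refine ⟨mul_ne_zero hx0 hy0, n * m, ?_, ?_, ?_⟩
  · intro hd
    rcases hp.dvd_mul.mp hd with h1 | h1
    · exact hn h1
    · exact hm h1
  · have h1 : ((n * m : ℕ) : K) * (x * y) = ((n : K) * x) * ((m : K) * y) := by push_cast; ring
    rw [h1]; exact hn1.mul hm1
  · have h1 : ((n * m : ℕ) : K) * (x * y)⁻¹ = ((n : K) * x⁻¹) * ((m : K) * y⁻¹) := by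
      rw [mul_inv]; push_cast; ring
    rw [h1]; exact hn2.mul hm2

theorem isUnitAt_of_pow {K : Type*} [Field K] {x : K} {n : ℕ} (hn : n ≠ 0) (hx : x ^ n = 1) :
    IsUnitAt p x := by
  have hp : p.Prime := Fact.out
  have hx0 : x ≠ 0 := by
    rintro rfl
    rw [zero_pow hn] at hx
    exact zero_ne_one hx
  refine ⟨hx0, 1, ?_, ?_, ?_⟩
  · intro h; exact hp.one_lt.ne' (Nat.dvd_one.mp h)
  · rw [Nat.cast_one, one_mul]
    exact IsIntegral.of_pow (Nat.pos_of_ne_zero hn) (by rw [hx]; exact isIntegral_one)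
  · rw [Nat.cast_one, one_mul]
    exact IsIntegral.of_pow (Nat.pos_of_ne_zero hn) (by rw [inv_pow, hx, inv_one]; exact isIntegral_one)

theorem isUnitAt_chi {K : Type*} [Field K] (χ : AddChar (ZMod p) K) (t : ZMod p) :
    IsUnitAt p (χ t) :=
  isUnitAt_of_pow (Fact.out : p.Prime).ne_zero (chi_pow χ t)

theorem isSol_sic {K : Type*} [Field K] {χ : AddChar (ZMod p) K} {w u : ZMod p → K}
    (h : Y387.SF.IsSol χ w u) : Sic χ w u := by
  have hov : ∀ a b, ov χ w u a b = Y387.SF.cc χ w u a b := fun a b => rfl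
  constructor
  · rw [ov, ← h.one]
    apply Finset.sum_congr rfl
    intro j _
    rw [add_zero, zero_mul, AddChar.map_zero_eq_one, mul_one]
  · intro a b hab
    have h1 := h.mul a b (by
      by_contra hcon
      push Not at hcon
      exact hab hcon)
    rw [Y387.SF.cd_eq_cc] at h1
    rw [hov, hov, ← h1]
    have h2 : χ (-(a * b)) * χ (a * b) = 1 := by
      rw [← AddChar.map_add_eq_mul, neg_add_cancel, AddChar.map_zero_eq_one]
    linear_combination (-(Y387.SF.cc χ w u a b * Y387.SF.cc χ w u (-a) (-b))) * h2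

theorem ov_unit (hp5 : 5 ≤ p) (hex : ¬ Exceptional p) {K : Type*} [Field K] [CharZero K]
    {χ : AddChar (ZMod p) K} (hχ : χ.IsPrimitive) {w u : ZMod p → K} (hS : Sic χ w u)
    (a b : ZMod p) : IsUnitAt p (ov χ w u a b) := by
  apply isUnitAt_of_val
  · intro B hB
    exact all_unit hp5 hex hB hχ hS _ _
  · exact ov_ne hS _ _

/-- a linear form with kernel spanned by `v` -/
def lf (v : ZMod p × ZMod p) (s : ZMod p × ZMod p) : ZMod p := v.2 * s.1 - v.1 * s.2

theorem lf_mul {v s s' : ZMod p × ZMod p} (hv : v ≠ 0) (h : lf v s = lf v s') :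
    ∃ m : ℕ, s' = s + ((m : ZMod p) * v.1, (m : ZMod p) * v.2) := by
  obtain ⟨v1, v2⟩ := v
  obtain ⟨a, b⟩ := s
  obtain ⟨c, d⟩ := s'
  simp only [lf] at h
  by_cases h2 : v2 = 0
  · have h1 : v1 ≠ 0 := by
      rintro rfl
      apply hv
      rw [h2]; rfl
    refine ⟨((c - a) / v1).val, ?_⟩
    rw [ZMod.natCast_zmod_val]
    ext
    · simp only [Prod.mk_add_mk]
      field_simp
      ring
    · simp only [Prod.mk_add_mk]
      rw [h2] at h ⊢
      have h3 : v1 * b = v1 * d := by linear_combination -h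
      rw [mul_left_cancel₀ h1 h3, mul_zero, add_zero]
  · refine ⟨((d - b) / v2).val, ?_⟩
    rw [ZMod.natCast_zmod_val]
    ext
    · simp only [Prod.mk_add_mk]
      field_simp
      linear_combination -h
    · simp only [Prod.mk_add_mk]
      field_simp
      ring

theorem lf_card (v : ZMod p × ZMod p) (hv : v ≠ 0) (t : ZMod p) :
    (univ.filter (fun s : ZMod p × ZMod p => lf v s = t)).card = p := by
  suffices h : (univ : Finset (ZMod p)).card =
      (univ.filter (fun s : ZMod p × ZMod p => lf v s = t)).card by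
    rw [← h, Finset.card_univ, ZMod.card]
  obtain ⟨v1, v2⟩ := v
  by_cases h2 : v2 = 0
  · have h1 : v1 ≠ 0 := by
      rintro rfl
      apply hv
      rw [h2]; rfl
    apply Finset.card_bij (fun a _ => (a, -t / v1))
    · intro a _
      rw [Finset.mem_filter]
      refine ⟨mem_univ _, ?_⟩
      simp only [lf]
      rw [h2]
      field_simp
      ring
    · intro a _ b _ h
      exact congrArg Prod.fst h
    · rintro ⟨a, b⟩ h
      rw [Finset.mem_filter] at h
      refine ⟨a, mem_univ _, ?_⟩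
      have h3 := h.2
      simp only [lf] at h3
      ext
      · rfl
      · simp only
        rw [← h3, h2]
        field_simp
        ring
  · apply Finset.card_bij (fun b _ => ((t + v1 * b) / v2, b))
    · intro a _
      rw [Finset.mem_filter]
      refine ⟨mem_univ _, ?_⟩
      simp only [lf]
      field_simp
      ring
    · intro a _ b _ h
      exact congrArg Prod.snd h
    · rintro ⟨a, b⟩ h
      rw [Finset.mem_filter] at h
      refine ⟨b, mem_univ _, ?_⟩
      have h3 := h.2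
      simp only [lf] at h3
      ext
      · simp only
        rw [← h3]
        field_simp
        ring
      · rfl

theorem lf_sub (v s s' : ZMod p × ZMod p) : lf v (s - s') = lf v s - lf v s' := by
  simp only [lf, Prod.fst_sub, Prod.snd_sub]
  ring

/-- the overlaps modulo a place, as a function on the quotient -/
theorem inv_lf {L : Type*} [Field L] [CharZero L] {B : ValuationSubring L} (hp5 : 5 ≤ p)
    (hex : ¬ Exceptional p) (hB : (p : L) ∈ B.nonunits)
    {χ : AddChar (ZMod p) L} (hχ : χ.IsPrimitive) {w u : ZMod p → L} (hS : Sic χ w u) :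
    ∃ v : ZMod p × ZMod p, v ≠ 0 ∧ ∀ s s' : ZMod p × ZMod p, lf v s = lf v s' →
      rs B (ov χ w u s.1 s.2) = rs B (ov χ w u s'.1 s'.2) := by
  obtain ⟨v, v', hvv, h⟩ := all_inv hp5 hex hB hχ hS
  have hv : (v, v') ≠ (0 : ZMod p × ZMod p) := by
    intro h0
    have h1 := congrArg Prod.fst h0
    have h2 := congrArg Prod.snd h0
    simp only [Prod.fst_zero, Prod.snd_zero] at h1 h2
    rcases hvv with h3 | h3
    · exact h3 h1
    · exact h3 h2
  refine ⟨(v, v'), hv, fun s s' hs => ?_⟩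
  obtain ⟨m, hm⟩ := lf_mul hv hs
  have hmul : ∀ m : ℕ, ∀ a b, rs B (ov χ w u (a + (m : ZMod p) * v) (b + (m : ZMod p) * v'))
      = rs B (ov χ w u a b) := by
    intro m
    induction m with
    | zero => intro a b; simp
    | succ m ih =>
      intro a b
      have e1 : a + ((m + 1 : ℕ) : ZMod p) * v = (a + (m : ZMod p) * v) + v := by push_cast; ring
      have e2 : b + ((m + 1 : ℕ) : ZMod p) * v' = (b + (m : ZMod p) * v') + v' := by
        push_cast; ring
      rw [e1, e2, h, ih]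
  rw [hm]
  exact (hmul m s.1 s.2).symm

section Etf

variable {V : Type*} [NormedAddCommGroup V] [InnerProductSpace ℂ V] [FiniteDimensional ℂ V]
  {ι : Type*} [Fintype ι]

/-- the triple products -/
noncomputable def tp (x : ι → V) (i j k : ι) : ℂ :=
  inner ℂ (x i) (x j) * inner ℂ (x j) (x k) * inner ℂ (x k) (x i)

theorem tp_eq {x : ι → V} {χ : AddChar (ZMod p) ℂ} {ψ : ZMod p → ℂ}
    {T : V ≃ₗᵢ[ℂ] EuclideanSpace ℂ (ZMod p)} {σ : ι → ZMod p × ZMod p}
    (hT : ∀ k, ∃ c : ℂ, ‖c‖ = 1 ∧ T (x k) = c • Y387.SF.Dv χ ψ (σ k).1 (σ k).2) (i j k : ι) :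
    tp x i j k =
      (χ (((σ j).2 - (σ i).2) * (σ j).1) *
        ov χ ψ (Y387.SF.cj ψ) ((σ j).1 - (σ i).1) ((σ j).2 - (σ i).2)) *
      (χ (((σ k).2 - (σ j).2) * (σ k).1) *
        ov χ ψ (Y387.SF.cj ψ) ((σ k).1 - (σ j).1) ((σ k).2 - (σ j).2)) *
      (χ (((σ i).2 - (σ k).2) * (σ i).1) *
        ov χ ψ (Y387.SF.cj ψ) ((σ i).1 - (σ k).1) ((σ i).2 - (σ k).2)) := by
  obtain ⟨a, ha, ha'⟩ := hT i
  obtain ⟨b, hb, hb'⟩ := hT j
  obtain ⟨c, hc, hc'⟩ := hT k
  have hcm : ∀ z : ℂ, ‖z‖ = 1 → conj z * z = 1 := by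
    intro z hz
    rw [mul_comm, Complex.mul_conj, Complex.normSq_eq_norm_sq, hz]
    simp
  have hov : ∀ a b, ov χ ψ (Y387.SF.cj ψ) a b = Y387.SF.cc χ ψ (Y387.SF.cj ψ) a b :=
    fun a b => rfl
  rw [hov, hov, hov, ← Y387.SF.inner_Dv, ← Y387.SF.inner_Dv, ← Y387.SF.inner_Dv, tp,
    ← T.inner_map_map (x i) (x j), ← T.inner_map_map (x j) (x k), ← T.inner_map_map (x k) (x i),
    ha', hb', hc']
  simp only [inner_smul_left, inner_smul_right]
  have h1 := hcm a ha
  have h2 := hcm b hb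
  have h3 := hcm c hc
  have h4 : (conj a * a) * (conj b * b) * (conj c * c) = 1 := by rw [h1, h2, h3]; ring
  set X := inner ℂ (Y387.SF.Dv χ ψ (σ i).1 (σ i).2) (Y387.SF.Dv χ ψ (σ j).1 (σ j).2)
  set Y := inner ℂ (Y387.SF.Dv χ ψ (σ j).1 (σ j).2) (Y387.SF.Dv χ ψ (σ k).1 (σ k).2)
  set Z := inner ℂ (Y387.SF.Dv χ ψ (σ k).1 (σ k).2) (Y387.SF.Dv χ ψ (σ i).1 (σ i).2)
  linear_combination (X * Y * Z) * h4

/-- **Triple products are units over `p`.** -/
theorem triple (hp5 : 5 ≤ p) (hex : ¬ Exceptional p) {x : ι → V} (h : Y387.SF.IsEtf p x)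
    (hcard : Fintype.card ι = p ^ 2) (hV : Module.finrank ℂ V = p)
    (htr : ∀ i j, ∃ (U : V ≃ₗᵢ[ℂ] V) (π : Equiv.Perm ι), Y387.SF.Ind x U π ∧ π i = j) :
    (∀ i j k, IsUnitAt p (tp x i j k)) ∧
    ∀ B : ValuationSubring ℂ, (p : ℂ) ∈ B.nonunits → ∃ c : ι → ZMod p,
      (∀ t, (univ.filter (fun i => c i = t)).card = p) ∧
      ∀ i j k i' j' k', c i = c i' → c j = c j' → c k = c k' →
        tp x i j k - tp x i' j' k' ∈ B.nonunits := by
  classical
  have hp : p.Prime := Fact.out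
  obtain ⟨χ, ψ, T, σ, hχ, hsol, hT⟩ := Y387.SF.exists_fid h hcard hV htr
  have hprim : χ.IsPrimitive := AddChar.IsPrimitive.of_ne_one hχ
  have hS := isSol_sic hsol
  have hinj : Function.Injective σ := by
    intro k l hkl
    obtain ⟨a, ha, ha'⟩ := hT k
    obtain ⟨b, hb, hb'⟩ := hT l
    have hb0 : b ≠ 0 := by rintro rfl; simp at hb
    apply h.line (by omega) (c := a * b⁻¹)
    apply T.injective
    rw [map_smul, ha', hb', smul_smul, hkl, mul_assoc, inv_mul_cancel₀ hb0, mul_one]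
  have hbij : Function.Bijective σ := by
    rw [Fintype.bijective_iff_injective_and_card]
    refine ⟨hinj, ?_⟩
    rw [hcard, Fintype.card_prod, ZMod.card, sq]
  refine ⟨fun i j k => ?_, fun B hB => ?_⟩
  · rw [tp_eq hT]
    have hu := fun a b => ov_unit hp5 hex hprim hS a b
    exact (((isUnitAt_chi χ _).mul (hu _ _)).mul ((isUnitAt_chi χ _).mul (hu _ _))).mul
      ((isUnitAt_chi χ _).mul (hu _ _))
  · obtain ⟨v, hv, hinv⟩ := inv_lf hp5 hex hB hprim hS
    refine ⟨fun i => lf v (σ i), fun t => ?_, fun i j k i' j' k' hi hj hk => ?_⟩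
    · refine Eq.trans ?_ (lf_card v hv t)
      apply Finset.card_bij (fun i _ => σ i)
      · intro i hi
        rw [Finset.mem_filter] at hi ⊢
        exact ⟨mem_univ _, hi.2⟩
      · intro i _ j _ hij
        exact hinj hij
      · intro s hs
        obtain ⟨i, rfl⟩ := hbij.2 s
        rw [Finset.mem_filter] at hs
        exact ⟨i, by rw [Finset.mem_filter]; exact ⟨mem_univ _, hs.2⟩, rfl⟩
    · have hm : ∀ a b, ov χ ψ (Y387.SF.cj ψ) a b ∈ B := fun a b =>
        mem_of_val B (all_unit hp5 hex hB hprim hS a b)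
      have hm2 : ∀ t a b, χ t * ov χ ψ (Y387.SF.cj ψ) a b ∈ B := fun t a b =>
        B.mul_mem _ _ (chi_mem B χ _) (hm _ _)
      have hr : ∀ t a b, rs B (χ t * ov χ ψ (Y387.SF.cj ψ) a b) =
          rs B (ov χ ψ (Y387.SF.cj ψ) a b) := fun t a b => by
        rw [rs_mul B (chi_mem B χ _) (hm _ _), rs_chi B hB, one_mul]
      have hrt : ∀ i j k, rs B (tp x i j k) =
          rs B (ov χ ψ (Y387.SF.cj ψ) ((σ j).1 - (σ i).1) ((σ j).2 - (σ i).2)) *
          rs B (ov χ ψ (Y387.SF.cj ψ) ((σ k).1 - (σ j).1) ((σ k).2 - (σ j).2)) *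
          rs B (ov χ ψ (Y387.SF.cj ψ) ((σ i).1 - (σ k).1) ((σ i).2 - (σ k).2)) := by
        intro i j k
        rw [tp_eq hT, rs_mul B (B.mul_mem _ _ (hm2 _ _ _) (hm2 _ _ _)) (hm2 _ _ _),
          rs_mul B (hm2 _ _ _) (hm2 _ _ _), hr, hr, hr]
      have hmt : ∀ i j k, tp x i j k ∈ B := by
        intro i j k
        rw [tp_eq hT]
        exact B.mul_mem _ _ (B.mul_mem _ _ (hm2 _ _ _) (hm2 _ _ _)) (hm2 _ _ _)
      have hd : ∀ a b a' b' : ι, lf v (σ a) = lf v (σ a') → lf v (σ b) = lf v (σ b') →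
          rs B (ov χ ψ (Y387.SF.cj ψ) ((σ b).1 - (σ a).1) ((σ b).2 - (σ a).2)) =
          rs B (ov χ ψ (Y387.SF.cj ψ) ((σ b').1 - (σ a').1) ((σ b').2 - (σ a').2)) := by
        intro a b a' b' h1 h2
        apply hinv (σ b - σ a) (σ b' - σ a')
        rw [lf_sub, lf_sub, h1, h2]
      rw [← rs_eq_zero B (B.sub_mem (hmt _ _ _) (hmt _ _ _)), rs_sub B (hmt _ _ _) (hmt _ _ _),
        hrt, hrt, hd i j i' j' hi hj, hd j k j' k' hj hk, hd k i k' i' hk hi, sub_self]

end Etf

end Pool.Agent.H990.SU
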