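import Pool.Agent.H990.SU.Nine

/-!
# There are no small exceptional primes
-/

set_option autoImplicit false

namespace Pool.Agent.H990.SU

/-- the pair `n`, `l` is not exceptional -/
def chk (n l : ℕ) : Bool :=
  !(Nat.ble 2 l && (Nat.beq (n * (n - 1) % l) 0 &&
    Nat.beq ((l * (l - 2) + n) % (n * (n - 1) / l + (2 * n + 1))) 0))

/-- no `i < l` is exceptional for `n` -/
def chkl (n : ℕ) (l : ℕ) : Bool := Nat.rec true (fun l b => and b (chk n l)) l

/-- no `i < n` is exceptional -/
def chkn (n : ℕ) : Bool := Nat.rec true (fun n b => and b (chkl n (n / 2 + 1))) n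

set_option maxRecDepth 100000 in
theorem chk_small : chkn 456 = true := by decide +kernel

theorem chkl_spec (n l : ℕ) (h : chkl n l = true) (i : ℕ) (hi : i < l) : chk n i = true := by
  induction l with
  | zero => omega
  | succ l ih =>
    have h1 : (chkl n l && chk n l) = true := h
    rw [Bool.and_eq_true] at h1
    rcases Nat.lt_succ_iff_lt_or_eq.mp hi with h2 | h2
    · exact ih h1.1 h2
    · rw [h2]; exact h1.2

theorem chkn_spec (n : ℕ) (h : chkn n = true) (m : ℕ) (hm : m < n) (i : ℕ) (hi : i < m / 2 + 1) :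
    chk m i = true := by
  induction n with
  | zero => omega
  | succ n ih =>
    have h1 : (chkn n && chkl n (n / 2 + 1)) = true := h
    rw [Bool.and_eq_true] at h1
    rcases Nat.lt_succ_iff_lt_or_eq.mp hm with h2 | h2
    · exact ih h1.1 h2
    · rw [h2]
      apply chkl_spec n _ h1.2
      rwa [h2] at hi

/-- **There are no small exceptional numbers.** -/
theorem not_exc_small (p : ℕ) (hp : p < 1800) : ¬ Exceptional p := by
  rintro ⟨n, l, h2l, h2ln, hlp, hdvd⟩
  have hl0 : 0 < l := by omega
  have h1 : l * (4 * n - 1) ≤ l * p := by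
    have h2 : 2 * l * (n - 1) ≤ n * (n - 1) := Nat.mul_le_mul_right _ h2ln
    have h3 : l * (4 * n - 1) = 2 * l * (n - 1) + l * (2 * n + 1) := by
      have : 4 * n - 1 = 2 * (n - 1) + (2 * n + 1) := by omega
      rw [this]; ring
    omega
  have h4 : 4 * n - 1 ≤ p := Nat.le_of_mul_le_mul_left h1 hl0
  have h5 := chkn_spec 456 chk_small n (by omega) l (by omega)
  have h6 : n * (n - 1) = l * (p - (2 * n + 1)) := by
    have h61 : l * (p - (2 * n + 1)) = l * p - l * (2 * n + 1) := Nat.mul_sub _ _ _
    omega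
  have h7 : n * (n - 1) % l = 0 := by rw [h6]; exact Nat.mul_mod_right _ _
  have h8 : n * (n - 1) / l + (2 * n + 1) = p := by
    rw [h6, Nat.mul_div_cancel_left _ hl0]
    omega
  have h9 : (l * (l - 2) + n) % p = 0 := Nat.mod_eq_zero_of_dvd hdvd
  simp only [chk, h7, h8, h9] at h5
  have h10 : Nat.ble 2 l = true := Nat.ble_eq.mpr h2l
  rw [h10] at h5
  simp at h5

end Pool.Agent.H990.SU
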