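import Mathlib
import Pool.Graph.R_pool_sql_team_seeded_620a6dc7.H207.WH.Red

/-!
# Polynomial functions of `χ(x) - 1` and their weights
-/

set_option autoImplicit false
set_option linter.unusedSectionVars false
set_option linter.unusedVariables false

namespace Pool.Agent.H990.SU

open Finset Pool.Agent.H207.WH

variable {L : Type*} [Field L] {Γ : Type*} [LinearOrderedCommGroupWithZero Γ] {p : ℕ}
  [Fact p.Prime]

/-- the uniformizer like functions -/
def Dd (χ : AddChar (ZMod p) L) (x : ZMod p) : L := χ x - 1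

theorem Vchi (V : Valuation L Γ) (χ : AddChar (ZMod p) L) (t : ZMod p) : V (χ t) = 1 := by
  have hp : p.Prime := Fact.out
  have h1 : V (χ t) ^ p = 1 := by rw [← map_pow, chi_pow, map_one]
  rcases lt_trichotomy (V (χ t)) 1 with h | h | h
  · exact absurd h1 (pow_lt_one₀ zero_le h hp.ne_zero).ne
  · exact h
  · exact absurd h1 (one_lt_pow₀ h hp.ne_zero).ne'

theorem chi_Dd (χ : AddChar (ZMod p) L) (x : ZMod p) : χ x = 1 + Dd χ x := by
  rw [Dd]; ring

/-- functions of two variables which are polynomials in `χ(x) - 1` and `χ(y) - 1` with coefficients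
bounded by `ρ`, where the two functions have weight `R` -/
def G (V : Valuation L Γ) (R : Γ) (χ : AddChar (ZMod p) L) (ρ : Γ) :
    AddSubmonoid (ZMod p → ZMod p → L) :=
  AddSubmonoid.closure {φ | ∃ (c : L) (k l : ℕ), V c * R ^ (k + l) ≤ ρ ∧
    φ = fun x y => c * Dd χ x ^ k * Dd χ y ^ l}

variable {V : Valuation L Γ} {R : Γ} {χ : AddChar (ZMod p) L}

theorem G_gen (c : L) (k l : ℕ) {ρ : Γ} (h : V c * R ^ (k + l) ≤ ρ) :
    (fun x y => c * Dd χ x ^ k * Dd χ y ^ l) ∈ G V R χ ρ :=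
  AddSubmonoid.subset_closure ⟨c, k, l, h, rfl⟩

theorem G_mono {ρ ρ' : Γ} (h : ρ ≤ ρ') : G V R χ ρ ≤ G V R χ ρ' := by
  apply AddSubmonoid.closure_mono
  rintro φ ⟨c, k, l, h1, h2⟩
  exact ⟨c, k, l, h1.trans h, h2⟩

theorem G_const (c : L) {ρ : Γ} (h : V c ≤ ρ) : (fun _ _ => c) ∈ G V R χ ρ := by
  have := G_gen (V := V) (R := R) (χ := χ) c 0 0 (ρ := ρ) (by simpa using h)
  simpa using this

theorem G_x : (fun x _ => Dd χ x) ∈ G V R χ R := by
  have := G_gen (V := V) (R := R) (χ := χ) 1 1 0 (ρ := R) (by simp)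
  simpa using this

theorem G_y : (fun _ y => Dd χ y) ∈ G V R χ R := by
  have := G_gen (V := V) (R := R) (χ := χ) 1 0 1 (ρ := R) (by simp)
  simpa using this

theorem G_mul {ρ ρ' : Γ} {φ ψ : ZMod p → ZMod p → L} (h1 : φ ∈ G V R χ ρ) (h2 : ψ ∈ G V R χ ρ') :
    φ * ψ ∈ G V R χ (ρ * ρ') := by
  induction h1 using AddSubmonoid.closure_induction with
  | mem φ hφ =>
    obtain ⟨c, k, l, h3, rfl⟩ := hφ
    induction h2 using AddSubmonoid.closure_induction with
    | mem ψ hψ =>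
      obtain ⟨c', k', l', h4, rfl⟩ := hψ
      have h5 : V (c * c') * R ^ ((k + k') + (l + l')) ≤ ρ * ρ' := by
        calc V (c * c') * R ^ ((k + k') + (l + l'))
            = (V c * R ^ (k + l)) * (V c' * R ^ (k' + l')) := by
              rw [map_mul]
              have : (k + k') + (l + l') = (k + l) + (k' + l') := by ring
              rw [this, pow_add]
              exact mul_mul_mul_comm _ _ _ _
          _ ≤ ρ * ρ' := mul_le_mul_of_nonneg' h3 h4 zero_le zero_le
      have h6 := G_gen (χ := χ) (c * c') (k + k') (l + l') h5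
      convert h6 using 1
      funext x y
      simp only [Pi.mul_apply]
      ring
    | zero => rw [mul_zero]; exact zero_mem _
    | add a b _ _ ha hb => rw [mul_add]; exact add_mem ha hb
  | zero => rw [zero_mul]; exact zero_mem _
  | add a b _ _ ha hb => rw [add_mul]; exact add_mem ha hb

theorem G_neg {ρ : Γ} {φ : ZMod p → ZMod p → L} (h : φ ∈ G V R χ ρ) : -φ ∈ G V R χ ρ := by
  have h1 : (fun _ _ => (-1 : L)) ∈ G V R χ 1 := G_const _ (by rw [Valuation.map_neg, map_one])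
  have h2 := G_mul h1 h
  rw [one_mul] at h2
  convert h2 using 1
  funext x y
  simp

theorem G_sub {ρ : Γ} {φ ψ : ZMod p → ZMod p → L} (h : φ ∈ G V R χ ρ) (h' : ψ ∈ G V R χ ρ) :
    φ - ψ ∈ G V R χ ρ := by
  rw [sub_eq_add_neg]; exact add_mem h (G_neg h')

theorem G_one : (1 : ZMod p → ZMod p → L) ∈ G V R χ 1 := G_const 1 (by rw [map_one])

theorem G_pow {ρ : Γ} {φ : ZMod p → ZMod p → L} (h : φ ∈ G V R χ ρ) (m : ℕ) :
    φ ^ m ∈ G V R χ (ρ ^ m) := by
  induction m with
  | zero => rw [pow_zero, pow_zero]; exact G_one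
  | succ m ih => rw [pow_succ, pow_succ]; exact G_mul ih h

theorem G_pow1 {φ : ZMod p → ZMod p → L} (h : φ ∈ G V R χ 1) (m : ℕ) :
    φ ^ m ∈ G V R χ 1 := by
  have := G_pow h m
  rwa [one_pow] at this

/-- powers of perturbations -/
theorem G_diff {ε : Γ} (hε : ε ≤ 1) {φ κ : ZMod p → ZMod p → L} (h : φ ∈ G V R χ R)
    (hκ : κ ∈ G V R χ (ε * R)) (m : ℕ) : (φ + κ) ^ m - φ ^ m ∈ G V R χ (ε * R ^ m) := by
  have h0 : φ + κ ∈ G V R χ R := by
    apply add_mem h
    exact G_mono (by simpa using mul_le_mul_of_nonneg' hε le_rfl zero_le zero_le) hκ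
  induction m with
  | zero => simp
  | succ m ih =>
    have e1 : (φ + κ) ^ (m + 1) - φ ^ (m + 1)
        = (φ + κ) * ((φ + κ) ^ m - φ ^ m) + κ * φ ^ m := by ring
    rw [e1]
    apply add_mem
    · have := G_mul h0 ih
      have e2 : R * (ε * R ^ m) = ε * R ^ (m + 1) := by
        rw [pow_succ]; ac_rfl
      rwa [e2] at this
    · have := G_mul hκ (G_pow h m)
      have e2 : ε * R * R ^ m = ε * R ^ (m + 1) := by
        rw [pow_succ]; ac_rfl
      rwa [e2] at this

theorem G_chix (hR : R ≤ 1) : (fun x _ => χ x) ∈ G V R χ 1 := by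
  have h := add_mem (G_one (V := V) (R := R) (χ := χ)) (G_mono hR (G_x (V := V) (R := R) (χ := χ)))
  convert h using 1
  funext x y
  simp only [Pi.add_apply, Pi.one_apply]
  exact chi_Dd χ x

theorem G_chiy (hR : R ≤ 1) : (fun _ y => χ y) ∈ G V R χ 1 := by
  have h := add_mem (G_one (V := V) (R := R) (χ := χ)) (G_mono hR (G_y (V := V) (R := R) (χ := χ)))
  convert h using 1
  funext x y
  simp only [Pi.add_apply, Pi.one_apply]
  exact chi_Dd χ y

theorem chi_neg_eq (χ : AddChar (ZMod p) L) (x : ZMod p) : χ (-x) = χ x ^ (p - 1) := by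
  have hp : p.Prime := Fact.out
  rw [← AddChar.map_nsmul_eq_pow]
  congr 1
  have h1 : ((p - 1 : ℕ) : ZMod p) = -1 := by
    rw [Nat.cast_sub hp.one_lt.le]; simp
  rw [nsmul_eq_mul, h1]; ring

theorem Dd_neg_eq (χ : AddChar (ZMod p) L) (x : ZMod p) :
    Dd χ (-x) = (∑ i ∈ range (p - 1), χ x ^ i) * Dd χ x := by
  rw [Dd, Dd, chi_neg_eq, geom_sum_mul]

theorem G_negx (hR : R ≤ 1) : (fun x _ => Dd χ (-x)) ∈ G V R χ R := by
  have h1 : (∑ i ∈ range (p - 1), (fun x _ => χ x : ZMod p → ZMod p → L) ^ i) ∈ G V R χ 1 :=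
    sum_mem fun i _ => G_pow1 (G_chix hR) i
  have h2 := G_mul h1 (G_x (V := V) (R := R) (χ := χ))
  rw [one_mul] at h2
  convert h2 using 1
  funext x y
  simp only [Pi.mul_apply, Finset.sum_apply, Pi.pow_apply]
  exact Dd_neg_eq χ x

theorem G_negy (hR : R ≤ 1) : (fun _ y => Dd χ (-y)) ∈ G V R χ R := by
  have h1 : (∑ i ∈ range (p - 1), (fun _ y => χ y : ZMod p → ZMod p → L) ^ i) ∈ G V R χ 1 :=
    sum_mem fun i _ => G_pow1 (G_chiy hR) i
  have h2 := G_mul h1 (G_y (V := V) (R := R) (χ := χ))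
  rw [one_mul] at h2
  convert h2 using 1
  funext x y
  simp only [Pi.mul_apply, Finset.sum_apply, Pi.pow_apply]
  exact Dd_neg_eq χ y

/-- Newton coefficients -/
def gg (χ : AddChar (ZMod p) L) (f : ZMod p → L) (k : ℕ) : L := ∑ x, f x * Dd χ x ^ k

/-- the pairing -/
def PP (f f' : ZMod p → L) (φ : ZMod p → ZMod p → L) : L := ∑ x, ∑ y, f x * f' y * φ x y

theorem PP_add (f f' : ZMod p → L) (φ ψ : ZMod p → ZMod p → L) :
    PP f f' (φ + ψ) = PP f f' φ + PP f f' ψ := by
  simp only [PP, Pi.add_apply, mul_add, Finset.sum_add_distrib]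

theorem PP_sub (f f' : ZMod p → L) (φ ψ : ZMod p → ZMod p → L) :
    PP f f' (φ - ψ) = PP f f' φ - PP f f' ψ := by
  simp only [PP, Pi.sub_apply, mul_sub, Finset.sum_sub_distrib]

theorem PP_zero (f f' : ZMod p → L) : PP f f' 0 = 0 := by
  simp [PP]

theorem PP_gen (χ : AddChar (ZMod p) L) (f f' : ZMod p → L) (c : L) (k l : ℕ) :
    PP f f' (fun x y => c * Dd χ x ^ k * Dd χ y ^ l) = c * (gg χ f k * gg χ f' l) := by
  rw [PP, gg, gg, Finset.sum_mul_sum, Finset.mul_sum]
  apply Finset.sum_congr rfl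
  intro x _
  rw [Finset.mul_sum]
  apply Finset.sum_congr rfl
  intro y _
  ring

/-- **The bound.** -/
theorem PP_le {f f' : ZMod p → L} {M M' : Γ} (hf : ∀ k, V (gg χ f k) ≤ M * R ^ k)
    (hf' : ∀ k, V (gg χ f' k) ≤ M' * R ^ k) {ρ : Γ} {φ : ZMod p → ZMod p → L}
    (h : φ ∈ G V R χ ρ) : V (PP f f' φ) ≤ M * M' * ρ := by
  induction h using AddSubmonoid.closure_induction with
  | mem φ hφ =>
    obtain ⟨c, k, l, h3, rfl⟩ := hφ
    rw [PP_gen, map_mul, map_mul]
    calc V c * (V (gg χ f k) * V (gg χ f' l))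
        ≤ V c * ((M * R ^ k) * (M' * R ^ l)) :=
          mul_le_mul_of_nonneg_left (mul_le_mul_of_nonneg' (hf k) (hf' l) zero_le zero_le) zero_le
      _ = M * M' * (V c * R ^ (k + l)) := by rw [pow_add]; ac_rfl
      _ ≤ _ := mul_le_mul_of_nonneg_left h3 zero_le
  | zero => rw [PP_zero, map_zero]; exact zero_le
  | add a b _ _ ha hb =>
    rw [PP_add]
    exact (V.map_add _ _).trans (max_le ha hb)

/-- the bound for functions of one variable -/
theorem PP_le_one {f : ZMod p → L} {M : Γ} (hf : ∀ k, V (gg χ f k) ≤ M * R ^ k)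
    {ρ : Γ} {φ : ZMod p → L}
    (h : (fun x _ => φ x : ZMod p → ZMod p → L) ∈ G V R χ ρ) : V (∑ x, f x * φ x) ≤ M * ρ := by
  classical
  have h1 : ∀ k, V (gg χ (Pi.single 0 1 : ZMod p → L) k) ≤ 1 * R ^ k := by
    intro k
    rw [gg, Finset.sum_eq_single (0 : ZMod p)]
    · rw [Pi.single_eq_same, one_mul, Dd, AddChar.map_zero_eq_one, sub_self, one_mul]
      rcases Nat.eq_zero_or_pos k with hk | hk
      · rw [hk, pow_zero, pow_zero, map_one]
      · rw [zero_pow hk.ne', map_zero]; exact zero_le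
    · intro x _ hx
      rw [Pi.single_eq_of_ne hx, zero_mul]
    · intro h; exact absurd (mem_univ _) h
  have h2 := PP_le hf h1 h
  rw [mul_one] at h2
  convert h2 using 2
  rw [PP]
  apply Finset.sum_congr rfl
  intro x _
  rw [Finset.sum_eq_single (0 : ZMod p)]
  · rw [Pi.single_eq_same, mul_one]
  · intro y _ hy
    rw [Pi.single_eq_of_ne hy, mul_zero, zero_mul]
  · intro h; exact absurd (mem_univ _) h

end Pool.Agent.H990.SU
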