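import Pool.Agent.H990.SU.All
import Pool.Agent.H990.SU.Few
import Pool.Graph.R_pool_sql_team_seeded_620a6dc7.H207.WH.Cong

/-!
# The overlaps of Weyl-Heisenberg SIC fiducials are units over `p`
-/

set_option autoImplicit false
set_option linter.unusedSectionVars false
set_option linter.unusedVariables false

namespace Pool.Agent.H990.SU

open Finset Pool.Agent.H207.WH Pool.Agent.H990.SF ComplexConjugate

/-- `x` is a unit over `p`: a nonzero number such that `n x` and `n / x` are algebraic integers for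
some `n` prime to `p` -/
def IsUnitAt (p : ℕ) {K : Type*} [Field K] (x : K) : Prop :=
  x ≠ 0 ∧ ∃ n : ℕ, ¬ p ∣ n ∧ IsIntegral ℤ ((n : K) * x) ∧ IsIntegral ℤ ((n : K) * x⁻¹)

variable {p : ℕ} [Fact p.Prime]

theorem isUnitAt_of_val {K : Type*} [Field K] [CharZero K] {x : K}
    (h : ∀ B : ValuationSubring K, (p : K) ∈ B.nonunits → B.valuation x = 1) (hx : x ≠ 0) :
    IsUnitAt p x := by
  have hp : p.Prime := Fact.out
  obtain ⟨n, hn, hn1⟩ := int_of_places p x (fun B hB => mem_of_val B (h B hB))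
  obtain ⟨m, hm, hm1⟩ := int_of_places p x⁻¹ (fun B hB => inv_mem_of_val B (h B hB))
  refine ⟨hx, n * m, ?_, ?_, ?_⟩
  · intro hd
    rcases hp.dvd_mul.mp hd with h1 | h1
    · exact hn h1
    · exact hm h1
  · have h1 : ((n * m : ℕ) : K) * x = (m : K) * ((n : K) * x) := by push_cast; ring
    rw [h1]
    exact (isIntegral_algebraMap (R := ℤ) (A := K) (x := (m : ℤ))).mul hn1 |> fun h => by
      simpa using h
  · have h1 : ((n * m : ℕ) : K) * x⁻¹ = (n : K) * ((m : K) * x⁻¹) := by push_cast; ring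
    rw [h1]
    exact (isIntegral_algebraMap (R := ℤ) (A := K) (x := (n : ℤ))).mul hm1 |> fun h => by
      simpa using h

theorem units (hp5 : 5 ≤ p) (hex : ¬ Exceptional p) {K : Type*} [Field K] [CharZero K]
    {χ : AddChar (ZMod p) K} (hχ : χ.IsPrimitive) {w u : ZMod p → K} (hS : IsSolution χ w u)
    (a b : ZMod p) : IsUnitAt p (∑ j, w j * disp χ a b u j) := by
  have hS' := solution_sic hS
  have hχ0 : ∀ t, χ t ≠ 0 := by
    intro t h
    have := chi_pow χ t
    rw [h, zero_pow (Fact.out : p.Prime).ne_zero] at this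
    exact zero_ne_one this
  apply isUnitAt_of_val
  · intro B hB
    rw [disp_ov, val_chi_mul]
    exact all_unit hp5 hex hB hχ hS' _ _
  · rw [disp_ov]
    exact mul_ne_zero (hχ0 _) (ov_ne hS' _ _)

theorem congruences (hp5 : 5 ≤ p) (hex : ¬ Exceptional p) {K : Type*} [Field K] [CharZero K]
    {χ : AddChar (ZMod p) K} (hχ : χ.IsPrimitive) {w u : ZMod p → K} (hS : IsSolution χ w u)
    (B : ValuationSubring K) (hB : (p : K) ∈ B.nonunits) :
    ∃ v : ZMod p × ZMod p, v ≠ 0 ∧ ∀ a b : ZMod p,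
      (∑ j, w j * disp χ (a + v.1) (b + v.2) u j) - (∑ j, w j * disp χ a b u j) ∈ B.nonunits := by
  have hS' := solution_sic hS
  obtain ⟨v, v', hvv, h⟩ := all_inv hp5 hex hB hχ hS'
  refine ⟨(-v, v'), ?_, fun a b => ?_⟩
  · intro h0
    have h1 := congrArg Prod.fst h0
    have h2 := congrArg Prod.snd h0
    simp only [Prod.fst_zero, Prod.snd_zero, neg_eq_zero] at h1 h2
    rcases hvv with h3 | h3
    · exact h3 h1
    · exact h3 h2
  · have hm : ∀ a b, ov χ w u a b ∈ B := fun a b =>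
      mem_of_val B (all_unit hp5 hex hB hχ hS' a b)
    rw [disp_ov, disp_ov]
    simp only
    have h1 := h (-a) b
    have e1 : -(a + -v) = -a + v := by ring
    rw [e1, ← rs_eq_zero B (B.sub_mem (B.mul_mem _ _ (chi_mem B χ _) (hm _ _))
      (B.mul_mem _ _ (chi_mem B χ _) (hm _ _))),
      rs_sub B (B.mul_mem _ _ (chi_mem B χ _) (hm _ _)) (B.mul_mem _ _ (chi_mem B χ _) (hm _ _)),
      rs_mul B (chi_mem B χ _) (hm _ _), rs_mul B (chi_mem B χ _) (hm _ _), rs_chi B hB,
      rs_chi B hB, one_mul, one_mul, h1, sub_self]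

/-- the overlaps of fiducial vectors -/
theorem units_fiducial (hp5 : 5 ≤ p) (hex : ¬ Exceptional p) {ψ : ZMod p → ℂ}
    (hψ : IsFiducial ψ) (a b : ZMod p) :
    IsUnitAt p (∑ j, conj (ψ j) * disp ZMod.stdAddChar a b ψ j) :=
  units hp5 hex (ZMod.isPrimitive_stdAddChar p) (fiducial_solution hψ) a b

end Pool.Agent.H990.SU
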