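import Pool.Agent.H990.SU.Vals

/-!
# The frame of the invariance direction is good
-/

set_option autoImplicit false
set_option linter.unusedSectionVars false
set_option linter.unusedVariables false

namespace Pool.Agent.H990.SU

open Finset Pool.Agent.H207.WH Polynomial

variable {L : Type*} [Field L] [CharZero L] {B : ValuationSubring L} {p : ℕ}
  [Fact p.Prime] {χ : AddChar (ZMod p) L} {w u : ZMod p → L}

/-- the conclusion of the second case -/
theorem caseB_false (hB : (p : L) ∈ B.nonunits) (hp2 : p ≠ 2) (g : ZMod p → L) (a1 : ZMod p)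
    (hmax : ∀ a, B.valuation (g a) ≤ B.valuation (g a1)) (h0 : g a1 ≠ 0)
    (h1 : ∀ z, B.valuation (∑ a, g a * g (z - a)) < B.valuation (g a1) ^ 2)
    (h2 : ∀ a, B.valuation (g a * g (-a)) < B.valuation (g a1) ^ 2) : False := by
  have hp : p.Prime := Fact.out
  have hch := char_res B hB
  have hv0 : 0 < B.valuation (g a1) := zero_lt_iff.mpr ((_root_.map_ne_zero _).mpr h0)
  have mem : ∀ a, g a / g a1 ∈ B := by
    intro a
    rw [← B.valuation_le_one_iff, map_div₀, div_le_one₀ hv0]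
    exact hmax a
  obtain ⟨P, hPd, hP⟩ := SP.exists_poly (k := IsLocalRing.ResidueField B)
    (fun a : ZMod p => rs B (g a / g a1))
  have hP0 : P ≠ 0 := by
    rintro rfl
    have h3 := hP a1
    rw [eval_zero, div_self h0, rs_one] at h3
    exact zero_ne_one h3
  set Q : (IsLocalRing.ResidueField B)[X] := P.comp (-X) with hQ
  have hQe : ∀ x : ZMod p, Q.eval (SP.em p _ x) = rs B (g (-x) / g a1) := by
    intro x
    rw [hQ, eval_comp, eval_neg, eval_X, ← map_neg, hP]
  have hQd : Q.natDegree = P.natDegree := by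
    rw [hQ, natDegree_comp, natDegree_neg, natDegree_X, mul_one]
  have hQ0 : Q ≠ 0 := by
    intro h
    have h3 := hQe (-a1)
    rw [h, eval_zero, neg_neg, div_self h0, rs_one] at h3
    exact zero_ne_one h3
  have hsmall : ∀ z : L, B.valuation z < B.valuation (g a1) ^ 2 → rs B (z / (g a1 * g a1)) = 0 := by
    intro z hz
    have h3 : B.valuation (z / (g a1 * g a1)) < 1 := by
      rw [map_div₀, map_mul, div_lt_one₀ (mul_pos hv0 hv0), ← sq]
      exact hz
    exact (rs_eq_zero_val B ((B.valuation_le_one_iff _).mp h3.le)).mpr h3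
  have hdeg := SP.deg_lt P Q hP0 hQ0 hPd (by rw [hQd]; exact hPd) (by
    intro a
    simp_rw [hP, hQe]
    have h3 : ∀ x, rs B (g x / g a1) * rs B (g (-(x + a)) / g a1)
        = rs B ((g x * g (-a - x)) / (g a1 * g a1)) := by
      intro x
      rw [← rs_mul B (mem x) (mem _), div_mul_div_comm]
      congr 4; ring
    simp_rw [h3]
    rw [← rs_sum B _ _ (fun x _ => by
      have := B.mul_mem _ _ (mem x) (mem (-a - x))
      rwa [div_mul_div_comm] at this), ← Finset.sum_div]
    exact hsmall _ (h1 (-a)))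
  have hz := SP.zeros_le (P * Q) (mul_ne_zero hP0 hQ0) (univ : Finset (ZMod p)) (by
    intro x _
    rw [eval_mul, hP, hQe, ← rs_mul B (mem x) (mem _), div_mul_div_comm]
    exact hsmall _ (h2 x))
  rw [Finset.card_univ, ZMod.card, natDegree_mul hP0 hQ0, hQd] at hz
  rw [hQd] at hdeg
  omega

theorem gg_eq (χ : AddChar (ZMod p) L) (w u : ZMod p → L) (a : ZMod p) (i : ℕ) :
    gg χ (ff w u a) i = ∑ m ∈ range (i + 1), (i.choose m : L) * (-1) ^ (i - m) * ov χ w u a m := by
  rw [gg]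
  have e1 : ∀ x, ff w u a x * Dd χ x ^ i = ∑ m ∈ range (i + 1),
      (i.choose m : L) * (-1) ^ (i - m) * (w x * u (x + a) * χ (m * x)) := by
    intro x
    rw [Dd, sub_eq_add_neg, add_pow, Finset.mul_sum]
    apply Finset.sum_congr rfl
    intro m _
    rw [chi_nat, ff]; ring
  simp_rw [e1]
  rw [Finset.sum_comm]
  apply Finset.sum_congr rfl
  intro m _
  rw [ov, Finset.mul_sum]

theorem gg_lt (χ : AddChar (ZMod p) L) (w u : ZMod p → L) (m0 : L) (hm0 : m0 ≠ 0)
    (hinv : ∀ a b, B.valuation (ov χ w u a b - ov χ w u a 0) < B.valuation m0)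
    (a : ZMod p) (i : ℕ) (hi : 1 ≤ i) :
    B.valuation (gg χ (ff w u a) i) < B.valuation m0 := by
  have hv0 : B.valuation m0 ≠ 0 := (_root_.map_ne_zero _).mpr hm0
  have h1 : gg χ (ff w u a) i = ∑ m ∈ range (i + 1), (i.choose m : L) * (-1) ^ (i - m) *
      (ov χ w u a m - ov χ w u a 0) := by
    have h2 : ∑ m ∈ range (i + 1), (i.choose m : L) * (-1) ^ (i - m) = 0 := by
      have h3 : ((1 : L) + (-1)) ^ i = ∑ m ∈ range (i + 1),
        (1 : L) ^ m * (-1) ^ (i - m) * (i.choose m : L) := add_pow _ _ _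
      rw [add_neg_cancel, zero_pow (by omega)] at h3
      rw [h3]
      apply Finset.sum_congr rfl
      intro m _
      rw [one_pow]; ring
    simp_rw [mul_sub]
    rw [Finset.sum_sub_distrib, ← Finset.sum_mul, h2, zero_mul, sub_zero, gg_eq]
  rw [h1]
  apply Valuation.map_sum_lt _ hv0
  intro m _
  rw [map_mul, map_mul, map_pow, Valuation.map_neg, map_one, one_pow, mul_one]
  calc _ ≤ 1 * B.valuation (ov χ w u a m - ov χ w u a 0) :=
        mul_le_mul_of_nonneg_right (V_nat_le _ _) zero_le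
    _ < _ := by rw [one_mul]; exact hinv a m

theorem gg_zero (χ : AddChar (ZMod p) L) (w u : ZMod p → L) (a : ZMod p) :
    gg χ (ff w u a) 0 = ov χ w u a 0 := by
  rw [gg_eq]
  simp

theorem val_nat (hB : (p : L) ∈ B.nonunits) (n : ℕ) (hn : ¬ p ∣ n) : B.valuation (n : L) = 1 := by
  have := char_res B hB
  rw [← rs_ne_zero_val B (nat_mem B n), rs_nat]
  intro h
  rw [CharP.cast_eq_zero_iff (IsLocalRing.ResidueField B) p] at h
  exact hn h

theorem Dd_lt (hB : (p : L) ∈ B.nonunits) (χ : AddChar (ZMod p) L) (x : ZMod p) :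
    B.valuation (Dd χ x) < 1 := by
  have h1 : Dd χ x ∈ B := B.sub_mem (chi_mem B χ x) B.one_mem
  rw [← rs_eq_zero_val B h1, Dd, rs_sub B (chi_mem B χ x) B.one_mem, rs_chi B hB, rs_one, sub_self]

theorem Dd_pos (hχ : χ.IsPrimitive) : 0 < B.valuation (Dd χ 1) := by
  rw [zero_lt_iff, ne_eq, map_eq_zero, Dd, sub_eq_zero]
  intro h2
  have h3 : χ 1 = χ 0 := by rw [h2, AddChar.map_zero_eq_one]
  exact one_ne_zero (chi_inj hχ h3)

/-- **The frame is good.** -/
theorem good_frame (hp5 : 5 ≤ p) (hB : (p : L) ∈ B.nonunits) (hχ : χ.IsPrimitive)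
    (hS : Sic χ w u) (m0 : L) (hm : ∀ a b, B.valuation (ov χ w u a b) ≤ B.valuation m0)
    (hm1 : 1 < B.valuation m0)
    (hinv : ∀ a b, B.valuation (ov χ w u a b - ov χ w u a 0) < B.valuation m0) (a0 : ZMod p)
    (hatt : ∀ b, B.valuation (ov χ w u a0 b) = B.valuation m0) (x y : ZMod p) :
    B.valuation (w x * u y) ≤ B.valuation m0 := by
  classical
  have hp : p.Prime := Fact.out
  have hp2 : p ≠ 2 := by omega
  have hm0 : m0 ≠ 0 := by
    intro h; rw [h, map_zero] at hm1; exact not_lt_of_ge zero_le hm1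
  have hM0 : 0 < B.valuation m0 := zero_lt_one.trans hm1
  have ha0 : a0 ≠ 0 := by
    intro h
    have h1 := hatt 0
    rw [h, hS.zero, map_one] at h1
    exact hm1.ne h1
  set r0 := B.valuation (Dd χ 1) with hr0
  have hr0pos : 0 < r0 := Dd_pos hχ
  have hr01 : r0 < 1 := Dd_lt hB χ 1
  suffices hkey : ∀ a k, k < p → B.valuation (gg χ (ff w u a) k) ≤ B.valuation m0 * r0 ^ k by
    have h1 := lagrange (V := B.valuation) hχ hr01.le (ff w u (y - x)) (hkey (y - x)) x
    rw [ff] at h1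
    have e1 : x + (y - x) = y := by ring
    rwa [e1] at h1
  by_contra hcon
  push Not at hcon
  obtain ⟨a2, i2, hi2p, hi2⟩ := hcon
  have hgm : ∀ a i, B.valuation (gg χ (ff w u a) i) ≤ B.valuation m0 := by
    intro a i
    rcases Nat.eq_zero_or_pos i with h | h
    · rw [h, gg_zero]; exact hm a 0
    · exact (gg_lt χ w u m0 hm0 hinv a i h).le
  have hi21 : 1 ≤ i2 := by
    by_contra h
    have h0 : i2 = 0 := by omega
    rw [h0, pow_zero, mul_one] at hi2
    exact absurd (hgm a2 0) (not_le.mpr hi2)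
  -- the maxima
  let C : ℕ → B.ValueGroup := fun i =>
    univ.sup' ⟨0, mem_univ _⟩ (fun a : ZMod p => B.valuation (gg χ (ff w u a) i))
  have hCle : ∀ i a, B.valuation (gg χ (ff w u a) i) ≤ C i := fun i a =>
    Finset.le_sup' (fun a : ZMod p => B.valuation (gg χ (ff w u a) i)) (mem_univ a)
  have hCatt : ∀ i, ∃ a, B.valuation (gg χ (ff w u a) i) = C i := by
    intro i
    obtain ⟨a, _, ha⟩ := Finset.exists_mem_eq_sup'
      (⟨0, mem_univ _⟩ : (univ : Finset (ZMod p)).Nonempty)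
      (fun a : ZMod p => B.valuation (gg χ (ff w u a) i))
    exact ⟨a, ha.symm⟩
  have hClt : ∀ i, 1 ≤ i → C i < B.valuation m0 := by
    intro i hi
    obtain ⟨a, ha⟩ := hCatt i
    rw [← ha]
    exact gg_lt χ w u m0 hm0 hinv a i hi
  set K := (p - 1).factorial with hK
  have hKdiv : ∀ i, 1 ≤ i → i ≤ p - 1 → K / i * i = K := fun i h1 h2 =>
    Nat.div_mul_cancel (Nat.dvd_factorial h1 h2)
  have hK0 : K ≠ 0 := Nat.factorial_ne_zero _
  have hKi : ∀ i, 1 ≤ i → i ≤ p - 1 → K / i ≠ 0 := by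
    intro i h1 h2 h3
    have := hKdiv i h1 h2
    rw [h3, zero_mul] at this
    exact hK0 this.symm
  let Rf : ℕ → B.ValueGroup := fun i => (C i / B.valuation m0) ^ (K / i)
  obtain ⟨j, hjm, hj⟩ := Finset.exists_max_image (Finset.Icc 1 (p - 1))
    (fun i => toLex (Rf i, i)) ⟨1, by rw [Finset.mem_Icc]; omega⟩
  rw [Finset.mem_Icc] at hjm
  have hjle : ∀ i, 1 ≤ i → i ≤ p - 1 → Rf i ≤ Rf j := by
    intro i h1 h2
    have h3 := hj i (by rw [Finset.mem_Icc]; exact ⟨h1, h2⟩)
    rw [Prod.Lex.toLex_le_toLex] at h3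
    rcases h3 with h3 | h3
    · exact h3.le
    · exact h3.1.le
  have hjlt : ∀ i, j < i → i ≤ p - 1 → Rf i < Rf j := by
    intro i h1 h2
    have h3 := hj i (by rw [Finset.mem_Icc]; exact ⟨by omega, h2⟩)
    rw [Prod.Lex.toLex_le_toLex] at h3
    rcases h3 with h3 | h3
    · exact h3
    · have := h3.2
      simp only at this
      omega
  set R := Rf j with hR
  -- the power of the valuation
  let V : Valuation L B.ValueGroup := B.valuation.map (powMonoidWithZeroHom hK0)
    (fun a b h => by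
      simp only [coe_powMonoidWithZeroHom]
      exact pow_le_pow_left₀ zero_le h K)
  have hV : ∀ z, V z = B.valuation z ^ K := fun z => rfl
  have hVlt : ∀ z z', V z < V z' → B.valuation z < B.valuation z' := by
    intro z z' h
    by_contra h1
    push Not at h1
    have h2 := pow_le_pow_left₀ zero_le h1 K
    rw [← hV, ← hV] at h2
    exact absurd h (not_lt.mpr h2)
  have hRf : ∀ i, 1 ≤ i → i ≤ p - 1 → (C i) ^ K = B.valuation m0 ^ K * Rf i ^ i := by
    intro i h1 h2
    show (C i) ^ K = B.valuation m0 ^ K * ((C i / B.valuation m0) ^ (K / i)) ^ i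
    rw [← pow_mul, hKdiv i h1 h2, ← mul_pow, mul_div_cancel₀ _ hM0.ne']
  have hR1 : R < 1 := by
    apply pow_lt_one₀ zero_le _ (hKi j hjm.1 hjm.2)
    rw [div_lt_one₀ hM0]
    exact hClt j hjm.1
  have hr : V (Dd χ 1) < R := by
    refine lt_of_lt_of_le ?_ (hjle i2 hi21 (by omega))
    show B.valuation (Dd χ 1) ^ K < (C i2 / B.valuation m0) ^ (K / i2)
    rw [← hr0]
    have h1 : r0 ^ i2 < C i2 / B.valuation m0 := by
      rw [lt_div_iff₀ hM0, mul_comm]
      exact lt_of_lt_of_le hi2 (hCle i2 a2)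
    have h2 := pow_lt_pow_left₀ h1 zero_le (hKi i2 hi21 (by omega))
    rw [← pow_mul, mul_comm, hKdiv i2 hi21 (by omega)] at h2
    exact h2
  have hR0 : 0 < R := lt_of_le_of_lt zero_le hr
  set ε := max R (V (Dd χ 1) / R) with hε
  have hrε : V (Dd χ 1) ≤ ε * R := by
    calc V (Dd χ 1) = V (Dd χ 1) / R * R := by rw [div_mul_cancel₀ _ hR0.ne']
      _ ≤ ε * R := mul_le_mul_of_nonneg_right (le_max_right _ _) zero_le
  have hMK1 : 1 < B.valuation m0 ^ K := one_lt_pow₀ hm1 hK0
  have hVpr : V (p : L) ≤ V (Dd χ 1) ^ (p - 1) := val_p_le V hχ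
  have hp1 : p - 1 ≠ 0 := by omega
  have hle0 : ∀ a k, k < p → V (gg χ (ff w u a) k) ≤ B.valuation m0 ^ K * R ^ k := by
    intro a k hk
    rcases Nat.eq_zero_or_pos k with h | h
    · rw [h, pow_zero, mul_one, hV]
      exact pow_le_pow_left₀ zero_le (hgm a 0) K
    · rw [hV]
      refine (pow_le_pow_left₀ zero_le (hCle k a) K).trans ?_
      rw [hRf k h (by omega)]
      exact mul_le_mul_of_nonneg_left (pow_le_pow_left₀ zero_le (hjle k h (by omega)) k) zero_le
  have hVpR : V (p : L) < R ^ (p - 1) :=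
    lt_of_le_of_lt hVpr (pow_lt_pow_left₀ hr zero_le hp1)
  have hle : ∀ a k, V (gg χ (ff w u a) k) ≤ B.valuation m0 ^ K * R ^ k :=
    fun a k => high_le hVpR.le hR1.le _ (hle0 a) k
  obtain ⟨a1, ha1⟩ := hCatt j
  have hatt1 : V (gg χ (ff w u a1) j) = B.valuation m0 ^ K * R ^ j := by
    rw [hV, ha1, hRf j hjm.1 hjm.2]
  have hs : Slope V R ε (B.valuation m0 ^ K) χ w u j := by
    refine ⟨hR0, hR1, ?_, le_max_left _ _, ?_, ?_, hle, ?_, ⟨a1, hatt1⟩, hjm.1, hMK1.le⟩
    · rw [hε, max_lt_iff]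
      refine ⟨hR1, ?_⟩
      rw [div_lt_one₀ hR0]
      exact hr
    · intro x
      exact (Dd_le V χ x).trans hrε
    · exact hVpr.trans (pow_le_pow_left₀ zero_le hrε _)
    · intro a k hk
      by_cases hkp : k < p
      · rw [hV]
        refine lt_of_le_of_lt (pow_le_pow_left₀ zero_le (hCle k a) K) ?_
        rw [hRf k (by omega) (by omega)]
        apply mul_lt_mul_of_le_of_lt_of_nonneg_of_pos le_rfl
          (pow_lt_pow_left₀ (hjlt k hk (by omega)) zero_le (by omega)) zero_le (pow_pos hM0 _)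
      · exact high_lt hVpR hR0 hR1.le (pow_pos hM0 _) _ (hle a) k (by omega)
  have hVn : ∀ n : ℕ, ¬ p ∣ n → V (n : L) = 1 := by
    intro n hn
    rw [hV, val_nat hB n hn, one_pow]
  have hc : V ((p : L) + 1)⁻¹ = 1 := by
    rw [hV, map_inv₀, val_p1 B hB, inv_one, one_pow]
  by_cases hcase : p - 1 ≤ 2 * j
  · exact caseA_false hp2 hχ hVn hs hcase hjm.2 hS hc a0 ha0
      (fun n => by rw [hV, hatt]) hMK1
  · push Not at hcase
    have hg0 : gg χ (ff w u a1) j ≠ 0 := by
      intro h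
      rw [h, map_zero] at hatt1
      exact (mul_pos (pow_pos hM0 K) (pow_pos hR0 j)).ne hatt1
    apply caseB_false hB hp2 (fun a => gg χ (ff w u a) j) a1
      (fun a => by
        show B.valuation (gg χ (ff w u a) j) ≤ B.valuation (gg χ (ff w u a1) j)
        rw [ha1]; exact hCle j a) hg0
    · intro z
      have h1 := caseB1 hVn hs hcase z
      rw [← hatt1, ← map_pow] at h1
      have h2 := hVlt _ _ h1
      rwa [map_pow] at h2
    · intro a
      have h1 := caseB2 hVn hs hcase hS hc a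
      rw [← hatt1, ← map_pow] at h1
      have h2 := hVlt _ _ h1
      rwa [map_pow] at h2

end Pool.Agent.H990.SU
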