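import Mathlib

/-!
# Level structures in characteristic `p`
-/

set_option autoImplicit false
set_option linter.unusedSectionVars false
set_option linter.unusedVariables false

namespace Pool.Agent.H990.SU

open Finset

/-- the arithmetic conditions of the exceptional configurations -/
def Exceptional (p : ℕ) : Prop :=
  ∃ n l : ℕ, 2 ≤ l ∧ 2 * l ≤ n ∧ l * p = n * (n - 1) + l * (2 * n + 1) ∧ p ∣ l * (l - 2) + n

variable {p : ℕ} [Fact p.Prime] {k : Type*} [Field k] [CharP k p] {Γ : Type*}

/-- the number of pairs with given difference -/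
theorem pair_count (F : ZMod p → k) (lev : ZMod p → Γ)
    (h1 : ∀ a, a ≠ 0 → ∑ x, F x * F (x + a) = 1)
    (h3 : ∀ s s' x, F s ≠ 0 → F s' ≠ 0 → s ≠ s' → lev s = lev s' → F x ≠ 0 →
      F (x + (s' - s)) ≠ 0 → lev x = lev s ∧ lev (x + (s' - s)) = lev s)
    (f : k) (s s' : ZMod p) (hs : F s ≠ 0) (hs' : F s' ≠ 0) (hss : s ≠ s')
    (hl : lev s = lev s') (hf : ∀ x, F x ≠ 0 → lev x = lev s → F x = f) [DecidableEq k] :
    ((univ.filter (fun x => F x ≠ 0 ∧ F (x + (s' - s)) ≠ 0)).card : k) * (f * f) = 1 := by
  rw [← h1 (s' - s) (sub_ne_zero.mpr (Ne.symm hss)), ← nsmul_eq_mul, ← Finset.sum_const,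
    Finset.sum_filter]
  apply Finset.sum_congr rfl
  intro x _
  by_cases hx : F x ≠ 0 ∧ F (x + (s' - s)) ≠ 0
  · rw [if_pos hx]
    obtain ⟨h6, h7⟩ := h3 s s' x hs hs' hss hl hx.1 hx.2
    rw [hf x hx.1 h6, hf _ hx.2 h7]
  · rw [if_neg hx]
    by_cases h6 : F x = 0
    · rw [h6, zero_mul]
    · have h7 : F (x + (s' - s)) = 0 := by
        by_contra h8
        exact hx ⟨h6, h8⟩
      rw [h7, mul_zero]

theorem nat_eq_of_cast {m n : ℕ} (hm : m < p) (hn : n < p) (h : (m : k) = (n : k)) : m = n := by
  rw [CharP.cast_eq_iff_mod_eq k p, Nat.mod_eq_of_lt hm, Nat.mod_eq_of_lt hn] at h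
  exact h

theorem cast_two_false {m : ℕ} (h1 : 3 ≤ m) (h2 : m ≤ p) (h : (m : k) = 2) : False := by
  have h3 : ((m - 2 : ℕ) : k) = 0 := by
    rw [Nat.cast_sub (by omega), h]; push_cast; ring
  rw [CharP.cast_eq_zero_iff k p] at h3
  have := Nat.le_of_dvd (by omega) h3
  omega

/-- the product structure -/
theorem cross_card (F : ZMod p → k) (lev : ZMod p → Γ)
    (h2u : ∀ s s' x, F s ≠ 0 → F s' ≠ 0 → lev s ≠ lev s' → F x ≠ 0 → F (x + (s' - s)) ≠ 0 → x = s)
    (N0 N1 : Finset (ZMod p)) (hN0 : ∀ x ∈ N0, F x ≠ 0) (hN1 : ∀ x ∈ N1, F x ≠ 0)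
    (hN : ∀ x ∈ N0, ∀ y ∈ N1, lev x ≠ lev y) :
    2 * (N0.card * N1.card) ≤ p - 1 := by
  classical
  have hp : p.Prime := Fact.out
  have i1 : Set.InjOn (fun z : ZMod p × ZMod p => z.2 - z.1) (N0 ×ˢ N1 : Finset _) := by
    rintro ⟨a, b⟩ hab ⟨c, d⟩ hcd h
    rw [Finset.mem_coe, Finset.mem_product] at hab hcd
    simp only at h hab hcd
    have h4 : c = a := by
      apply h2u a b c (hN0 a hab.1) (hN1 b hab.2) (hN a hab.1 b hab.2) (hN0 c hcd.1)
      rw [h]
      have : c + (d - c) = d := by ring
      rw [this]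
      exact hN1 d hcd.2
    rw [h4] at h
    have h5 : b = d := by linear_combination h
    rw [h4, h5]
  have i2 : Set.InjOn (fun z : ZMod p × ZMod p => z.1 - z.2) (N0 ×ˢ N1 : Finset _) := by
    intro a ha b hb h
    apply i1 ha hb
    simp only at h ⊢
    linear_combination -h
  have c1 := Finset.card_image_of_injOn i1
  have c2 := Finset.card_image_of_injOn i2
  have hdis : Disjoint ((N0 ×ˢ N1).image (fun z : ZMod p × ZMod p => z.2 - z.1))
      ((N0 ×ˢ N1).image (fun z : ZMod p × ZMod p => z.1 - z.2)) := by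
    rw [Finset.disjoint_left]
    intro d hd hd'
    rw [Finset.mem_image] at hd hd'
    obtain ⟨⟨a, b⟩, hab, h4⟩ := hd
    obtain ⟨⟨c, e⟩, hce, h5⟩ := hd'
    rw [Finset.mem_product] at hab hce
    simp only at hab hce h4 h5
    have h6 : e = a := by
      apply h2u a b e (hN0 a hab.1) (hN1 b hab.2) (hN a hab.1 b hab.2) (hN1 e hce.2)
      have : e + (b - a) = c := by rw [h4, ← h5]; ring
      rw [this]
      exact hN0 c hce.1
    exact hN a hab.1 e hce.2 (by rw [h6])
  have hsub : (N0 ×ˢ N1).image (fun z : ZMod p × ZMod p => z.2 - z.1) ∪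
      (N0 ×ˢ N1).image (fun z : ZMod p × ZMod p => z.1 - z.2) ⊆ univ.erase 0 := by
    intro d hd
    rw [Finset.mem_erase]
    refine ⟨?_, mem_univ _⟩
    rintro rfl
    rw [Finset.mem_union, Finset.mem_image, Finset.mem_image] at hd
    rcases hd with ⟨⟨a, b⟩, hab, h4⟩ | ⟨⟨a, b⟩, hab, h4⟩
    · rw [Finset.mem_product] at hab
      simp only at h4
      exact hN a hab.1 b hab.2 (congrArg lev (sub_eq_zero.mp h4)).symm
    · rw [Finset.mem_product] at hab
      simp only at h4
      exact hN a hab.1 b hab.2 (congrArg lev (sub_eq_zero.mp h4))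
  have h6 := Finset.card_le_card hsub
  rw [Finset.card_union_of_disjoint hdis, c1, c2, Finset.card_product,
    Finset.card_erase_of_mem (mem_univ _), Finset.card_univ, ZMod.card] at h6
  omega

/-- a set closed under differences -/
theorem all_of_sub (H : ZMod p → Prop) (h0 : H 0) (hsub : ∀ a b, H a → H b → H (a - b))
    (d : ZMod p) (hd : d ≠ 0) (hHd : H d) (z : ZMod p) : H z := by
  have hneg : H (-d) := by
    have := hsub 0 d h0 hHd
    rwa [zero_sub] at this
  have h1 : ∀ m : ℕ, H ((m : ZMod p) * d) := by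
    intro m
    induction m with
    | zero => simpa using h0
    | succ m ih =>
      have := hsub _ _ ih hneg
      have e1 : (m : ZMod p) * d - -d = ((m + 1 : ℕ) : ZMod p) * d := by push_cast; ring
      rwa [e1] at this
  have h2 := h1 (z / d).val
  rw [ZMod.natCast_zmod_val, div_mul_cancel₀ _ hd] at h2
  exact h2

/-- one level with a single element -/
theorem one_single (hp5 : 5 ≤ p) (hex : ¬ Exceptional p) (F : ZMod p → k) (lev : ZMod p → Γ)
    (h0 : ∑ x, F x * F x = 2)
    (h1 : ∀ a, a ≠ 0 → ∑ x, F x * F (x + a) = 1)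
    (h2 : ∀ s s', F s ≠ 0 → F s' ≠ 0 → lev s ≠ lev s' → F s * F s' = 1)
    (h2u : ∀ s s' x, F s ≠ 0 → F s' ≠ 0 → lev s ≠ lev s' → F x ≠ 0 → F (x + (s' - s)) ≠ 0 → x = s)
    (h3 : ∀ s s' x, F s ≠ 0 → F s' ≠ 0 → s ≠ s' → lev s = lev s' → F x ≠ 0 →
      F (x + (s' - s)) ≠ 0 → lev x = lev s ∧ lev (x + (s' - s)) = lev s)
    (s0 s1 s' : ZMod p) (hs0 : F s0 ≠ 0) (hs1 : F s1 ≠ 0) (hl : lev s0 ≠ lev s1)
    (hall : ∀ s, F s ≠ 0 → lev s = lev s0 ∨ s = s1)
    (hs' : F s' ≠ 0) (hss : s' ≠ s0) (hls : lev s' = lev s0) : False := by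
  classical
  have hp : p.Prime := Fact.out
  set N := univ.filter (fun x => F x ≠ 0 ∧ lev x = lev s0) with hN
  have hNm : ∀ x, x ∈ N ↔ F x ≠ 0 ∧ lev x = lev s0 := by
    intro x; rw [hN, Finset.mem_filter]; simp
  have hs1N : s1 ∉ N := by
    rw [hNm]; rintro ⟨-, h⟩; exact hl h.symm
  have h01 : F s0 * F s1 = 1 := h2 s0 s1 hs0 hs1 hl
  have hF0 : ∀ s, F s ≠ 0 → lev s = lev s0 → F s = F s0 := by
    intro s hs hls
    have h4 := h2 s s1 hs hs1 (hls ▸ hl)
    rw [← h01] at h4
    exact mul_right_cancel₀ hs1 h4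
  have hNcard : N.card < p := by
    have h4 := cross_card F lev h2u N {s1} (fun x hx => ((hNm x).mp hx).1)
      (fun x hx => by rw [Finset.mem_singleton] at hx; rw [hx]; exact hs1)
      (fun x hx y hy => by
        rw [Finset.mem_singleton] at hy
        rw [hy, ((hNm x).mp hx).2]; exact hl)
    rw [Finset.card_singleton] at h4
    omega
  have hN2 : 2 ≤ N.card := by
    rw [show (2 : ℕ) = ({s0, s'} : Finset (ZMod p)).card from
      (Finset.card_pair (Ne.symm hss)).symm]
    apply Finset.card_le_card
    intro x hx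
    rw [Finset.mem_insert, Finset.mem_singleton] at hx
    rw [hNm]
    rcases hx with rfl | rfl
    · exact ⟨hs0, rfl⟩
    · exact ⟨hs', hls⟩
  -- the number of pairs
  let P : ZMod p → Finset (ZMod p) := fun d => univ.filter (fun x => F x ≠ 0 ∧ F (x + d) ≠ 0)
  have hPN : ∀ s t, s ∈ N → t ∈ N → s ≠ t → ∀ x ∈ P (t - s), x ∈ N ∧ x + (t - s) ∈ N := by
    intro s t hs ht hst x hx
    rw [hNm] at hs ht
    have hx' := (Finset.mem_filter.mp hx).2
    obtain ⟨h5, h6⟩ := h3 s t x hs.1 ht.1 hst (hs.2.trans ht.2.symm) hx'.1 hx'.2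
    rw [hNm, hNm]
    exact ⟨⟨hx'.1, h5.trans hs.2⟩, hx'.2, h6.trans hs.2⟩
  have hPle : ∀ s t, s ∈ N → t ∈ N → s ≠ t → (P (t - s)).card ≤ N.card := by
    intro s t hs ht hst
    exact Finset.card_le_card (fun x hx => (hPN s t hs ht hst x hx).1)
  have hPcount : ∀ s t, s ∈ N → t ∈ N → s ≠ t → ((P (t - s)).card : k) * (F s0 * F s0) = 1 := by
    intro s t hs ht hst
    rw [hNm] at hs ht
    apply pair_count F lev h1 h3 (F s0) s t hs.1 ht.1 hst (hs.2.trans ht.2.symm)
    intro x hx hlx
    exact hF0 x hx (hlx.trans hs.2)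
  have hs0N : s0 ∈ N := by rw [hNm]; exact ⟨hs0, rfl⟩
  have hs'N : s' ∈ N := by rw [hNm]; exact ⟨hs', hls⟩
  set l := (P (s' - s0)).card with hldef
  have hlF : (l : k) * (F s0 * F s0) = 1 := hPcount s0 s' hs0N hs'N (Ne.symm hss)
  have hlN : l ≤ N.card := hPle s0 s' hs0N hs'N (Ne.symm hss)
  have hPl : ∀ s t, s ∈ N → t ∈ N → s ≠ t → (P (t - s)).card = l := by
    intro s t hs ht hst
    apply nat_eq_of_cast (k := k) (p := p) (lt_of_le_of_lt (hPle s t hs ht hst) hNcard)
      (lt_of_le_of_lt hlN hNcard)
    have h5 : F s0 * F s0 ≠ 0 := mul_ne_zero hs0 hs0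
    apply mul_right_cancel₀ h5
    rw [hPcount s t hs ht hst, hlF]
  have hl1 : F s1 * F s1 = (l : k) := by
    have h5 : F s0 * F s0 ≠ 0 := mul_ne_zero hs0 hs0
    apply mul_right_cancel₀ h5
    rw [hlF]
    linear_combination (F s0 * F s1 + 1) * h01
  -- the sum of the squares
  have h7 : (N.card : k) * (F s0 * F s0) + F s1 * F s1 = 2 := by
    rw [← h0, ← nsmul_eq_mul, ← Finset.sum_const, hN, Finset.sum_filter]
    have e1 : F s1 * F s1 = ∑ x, if x = s1 then F x * F x else 0 := by
      rw [Finset.sum_ite_eq' univ s1, if_pos (mem_univ _)]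
    rw [e1, ← Finset.sum_add_distrib]
    apply Finset.sum_congr rfl
    intro x _
    by_cases hx : F x = 0
    · rw [if_neg (fun h => h.1 hx), hx, mul_zero]
      simp
    · rcases hall x hx with h8 | h8
      · have h9 : x ≠ s1 := by
          rintro rfl; exact hl h8.symm
        rw [if_pos ⟨hx, h8⟩, if_neg h9, add_zero, hF0 x hx h8]
      · rw [if_neg (fun h => hl (by rw [← h.2, h8])), if_pos h8, zero_add]
  have h8 : (N.card : k) + (l : k) * l = 2 * l := by
    have h9 : F s1 * F s1 ≠ 0 := mul_ne_zero hs1 hs1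
    have e1 : (N.card : k) * (F s0 * F s0) * (F s1 * F s1) = N.card := by
      linear_combination (N.card : k) * (F s0 * F s1 + 1) * h01
    have e2 := congrArg (fun z => z * (F s1 * F s1)) h7
    simp only [add_mul, hl1] at e2
    linear_combination e2 - e1 + (N.card : k) * (F s0 * F s0) * hl1
  have hlpos : 1 ≤ l := by
    by_contra h9
    have h10 : l = 0 := by omega
    rw [h10, Nat.cast_zero, zero_mul] at hlF
    exact zero_ne_one hlF
  have hl2 : 2 ≤ l := by
    by_contra h9
    have h10 : l = 1 := by omega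
    rw [h10] at h8
    apply cast_two_false (k := k) (p := p) (m := N.card + 1) (by omega) (by omega)
    push_cast
    push_cast at h8
    linear_combination h8
  -- `2 l ≤ n`
  have h2l : 2 * l ≤ N.card := by
    by_contra hcon
    push Not at hcon
    have hH := all_of_sub (fun z : ZMod p => z = 0 ∨ ∃ s t, s ∈ N ∧ t ∈ N ∧ s ≠ t ∧ z = t - s)
      (Or.inl rfl) (by
        intro a b ha hb
        rcases ha with ha | ⟨s, t, hs, ht, hst, ha⟩
        · rcases hb with hb | ⟨s2, t2, hs2, ht2, hst2, hb⟩
          · left; rw [ha, hb, sub_zero]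
          · right; exact ⟨t2, s2, ht2, hs2, Ne.symm hst2, by rw [ha, hb]; ring⟩
        · rcases hb with hb | ⟨s2, t2, hs2, ht2, hst2, hb⟩
          · right; exact ⟨s, t, hs, ht, hst, by rw [ha, hb]; ring⟩
          · -- a common point
            have h9 : ∃ x, x ∈ P (t - s) ∧ x ∈ P (t2 - s2) := by
              by_contra hno
              push Not at hno
              have hd : Disjoint (P (t - s)) (P (t2 - s2)) := by
                rw [Finset.disjoint_left]; exact fun x hx => hno x hx
              have h10 : (P (t - s) ∪ P (t2 - s2)).card ≤ N.card := by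
                apply Finset.card_le_card
                intro x hx
                rw [Finset.mem_union] at hx
                rcases hx with hx | hx
                · exact (hPN s t hs ht hst x hx).1
                · exact (hPN s2 t2 hs2 ht2 hst2 x hx).1
              rw [Finset.card_union_of_disjoint hd, hPl s t hs ht hst,
                hPl s2 t2 hs2 ht2 hst2] at h10
              omega
            obtain ⟨x, hx1, hx2⟩ := h9
            have h11 := (hPN s t hs ht hst x hx1).2
            have h12 := (hPN s2 t2 hs2 ht2 hst2 x hx2).2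
            by_cases h13 : x + (t2 - s2) = x + (t - s)
            · left
              rw [ha, hb]
              linear_combination -h13
            · right
              exact ⟨x + (t2 - s2), x + (t - s), h12, h11, h13, by rw [ha, hb]; ring⟩)
      (s' - s0) (sub_ne_zero.mpr hss) (Or.inr ⟨s0, s', hs0N, hs'N, Ne.symm hss, rfl⟩) (s1 - s0)
    rcases hH with h9 | ⟨s, t, hs, ht, hst, h9⟩
    · exact hl (by rw [sub_eq_zero.mp h9])
    · have h10 : s = s0 := by
        apply h2u s0 s1 s hs0 hs1 hl ((hNm s).mp hs).1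
        rw [h9]
        have : s + (t - s) = t := by ring
        rw [this]
        exact ((hNm t).mp ht).1
      rw [h10] at h9
      have h11 : s1 = t := by linear_combination h9
      rw [← h11] at ht
      exact hs1N ht
  -- counting the differences
  have hcount : N.card * (N.card - 1) = l * (p - 1 - 2 * N.card) := by
    have hoff : N.offDiag.card = N.card * N.card - N.card := Finset.offDiag_card N
    have e1 : N.card * (N.card - 1) = N.offDiag.card := by
      rw [hoff, Nat.mul_sub, mul_one]
    rw [e1]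
    -- the differences of pairs of elements of `N`
    set D := N.offDiag.image (fun z : ZMod p × ZMod p => z.2 - z.1) with hD
    have hfib := Finset.card_eq_sum_card_image (fun z : ZMod p × ZMod p => z.2 - z.1) N.offDiag
    have hfib2 : ∀ d ∈ D, (N.offDiag.filter (fun z : ZMod p × ZMod p => z.2 - z.1 = d)).card = l := by
      intro d hd
      rw [hD, Finset.mem_image] at hd
      obtain ⟨⟨s, t⟩, hst, h9⟩ := hd
      rw [Finset.mem_offDiag] at hst
      simp only at hst h9
      rw [← hPl s t hst.1 hst.2.1 hst.2.2, h9]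
      apply Finset.card_bij (fun z _ => z.1)
      · intro z hz
        rw [Finset.mem_filter, Finset.mem_offDiag] at hz
        refine Finset.mem_filter.mpr ⟨mem_univ _, ((hNm _).mp hz.1.1).1, ?_⟩
        rw [← hz.2]
        have : z.1 + (z.2 - z.1) = z.2 := by ring
        rw [this]
        exact ((hNm _).mp hz.1.2.1).1
      · intro z hz z' hz' h10
        rw [Finset.mem_filter] at hz hz'
        apply Prod.ext h10
        have h11 := hz.2.trans hz'.2.symm
        rw [h10] at h11
        linear_combination h11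
      · intro x hx
        rw [← h9] at hx
        have h11 := hPN s t hst.1 hst.2.1 hst.2.2 x hx
        refine ⟨(x, x + d), ?_, rfl⟩
        rw [Finset.mem_filter, Finset.mem_offDiag]
        rw [← h9]
        refine ⟨⟨h11.1, h11.2, ?_⟩, by simp⟩
        intro h12
        simp only at h12
        have h13 : t - s = 0 := by linear_combination -h12
        exact hst.2.2 (sub_eq_zero.mp h13).symm
    rw [hfib, Finset.sum_congr rfl hfib2, Finset.sum_const, smul_eq_mul, mul_comm]
    congr 1
    -- the cardinality of `D`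
    set E1 := N.image (fun s => s1 - s) with hE1
    set E2 := N.image (fun s => s - s1) with hE2
    have cE1 : E1.card = N.card := Finset.card_image_of_injective _ (fun a b h => by
      have h' : s1 - a = s1 - b := h
      linear_combination -h')
    have cE2 : E2.card = N.card := Finset.card_image_of_injective _ (fun a b h => by
      have h' : a - s1 = b - s1 := h
      linear_combination h')
    have d12 : Disjoint E1 E2 := by
      rw [Finset.disjoint_left]
      intro d hd hd'
      rw [hE1, Finset.mem_image] at hd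
      rw [hE2, Finset.mem_image] at hd'
      obtain ⟨s, hs, h9⟩ := hd
      obtain ⟨t, ht, h10⟩ := hd'
      have h11 : s1 = s := by
        apply h2u s s1 s1 ((hNm s).mp hs).1 hs1 (by rw [((hNm s).mp hs).2]; exact hl) hs1
        rw [h9, ← h10]
        have : s1 + (t - s1) = t := by ring
        rw [this]
        exact ((hNm t).mp ht).1
      rw [← h11] at hs
      exact hs1N hs
    have d3 : Disjoint D (E1 ∪ E2) := by
      rw [Finset.disjoint_left]
      intro d hd hd'
      rw [hD, Finset.mem_image] at hd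
      obtain ⟨⟨s, t⟩, hst, h9⟩ := hd
      rw [Finset.mem_offDiag] at hst
      simp only at hst h9
      rw [Finset.mem_union, hE1, hE2, Finset.mem_image, Finset.mem_image] at hd'
      rcases hd' with ⟨r, hr, h10⟩ | ⟨r, hr, h10⟩
      · have h11 : s = r := by
          apply h2u r s1 s ((hNm r).mp hr).1 hs1 (by rw [((hNm r).mp hr).2]; exact hl)
            ((hNm s).mp hst.1).1
          rw [h10, ← h9]
          have : s + (t - s) = t := by ring
          rw [this]
          exact ((hNm t).mp hst.2.1).1
        have h12 : t = s1 := by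
          rw [h11, ← h10] at h9
          linear_combination h9
        rw [h12] at hst
        exact hs1N hst.2.1
      · have h11 : s = s1 := by
          apply h2u s1 r s hs1 ((hNm r).mp hr).1
            (by rw [((hNm r).mp hr).2]; exact Ne.symm hl) ((hNm s).mp hst.1).1
          rw [h10, ← h9]
          have : s + (t - s) = t := by ring
          rw [this]
          exact ((hNm t).mp hst.2.1).1
        rw [h11] at hst
        exact hs1N hst.1
    have hun : D ∪ (E1 ∪ E2) = univ.erase 0 := by
      ext d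
      rw [Finset.mem_erase]
      constructor
      · intro hd
        refine ⟨?_, mem_univ _⟩
        rintro rfl
        rw [Finset.mem_union, Finset.mem_union, hD, hE1, hE2, Finset.mem_image, Finset.mem_image,
          Finset.mem_image] at hd
        rcases hd with ⟨⟨s, t⟩, hst, h9⟩ | ⟨s, hs, h9⟩ | ⟨s, hs, h9⟩
        · rw [Finset.mem_offDiag] at hst
          exact hst.2.2 (sub_eq_zero.mp h9).symm
        · rw [sub_eq_zero.mp h9] at hs1N
          exact hs1N hs
        · rw [← sub_eq_zero.mp h9] at hs1N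
          exact hs1N hs
      · rintro ⟨hd0, -⟩
        have h9 : ∃ x, F x ≠ 0 ∧ F (x + d) ≠ 0 := by
          by_contra hcon
          push Not at hcon
          have h10 := h1 d hd0
          rw [Finset.sum_eq_zero] at h10
          · exact zero_ne_one h10
          · intro x _
            by_cases hx : F x = 0
            · rw [hx, zero_mul]
            · rw [hcon x hx, mul_zero]
        obtain ⟨x, hx, hxd⟩ := h9
        rw [Finset.mem_union, Finset.mem_union, hD, hE1, hE2, Finset.mem_image, Finset.mem_image,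
          Finset.mem_image]
        rcases hall x hx with h10 | h10 <;> rcases hall _ hxd with h11 | h11
        · left
          refine ⟨(x, x + d), ?_, by simp⟩
          rw [Finset.mem_offDiag, hNm, hNm]
          refine ⟨⟨hx, h10⟩, ⟨hxd, h11⟩, ?_⟩
          intro h12
          simp only at h12
          exact hd0 (by linear_combination -h12)
        · right; left
          refine ⟨x, (hNm x).mpr ⟨hx, h10⟩, ?_⟩
          rw [← h11]; ring
        · right; right
          refine ⟨x + d, (hNm _).mpr ⟨hxd, h11⟩, ?_⟩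
          rw [← h10]; ring
        · exfalso
          apply hd0
          linear_combination h11 - h10
    have hc := congrArg Finset.card hun
    rw [Finset.card_union_of_disjoint d3, Finset.card_union_of_disjoint d12, cE1, cE2,
      Finset.card_erase_of_mem (mem_univ _), Finset.card_univ, ZMod.card] at hc
    omega
  apply hex
  refine ⟨N.card, l, hl2, h2l, ?_, ?_⟩
  · have h9 : 2 * N.card ≤ p - 1 := by
      have h4 := cross_card F lev h2u N {s1} (fun x hx => ((hNm x).mp hx).1)
        (fun x hx => by rw [Finset.mem_singleton] at hx; rw [hx]; exact hs1)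
        (fun x hx y hy => by
          rw [Finset.mem_singleton] at hy
          rw [hy, ((hNm x).mp hx).2]; exact hl)
      rw [Finset.card_singleton] at h4
      omega
    rw [hcount, ← Nat.mul_add]
    congr 1
    omega
  · rw [← CharP.cast_eq_zero_iff k p]
    push_cast [Nat.cast_sub hl2]
    linear_combination h8

/-- **Level structures.** -/
theorem levels_p (hp5 : 5 ≤ p) (hex : ¬ Exceptional p) (F : ZMod p → k) (lev : ZMod p → Γ)
    (h0 : ∑ x, F x * F x = 2)
    (h1 : ∀ a, a ≠ 0 → ∑ x, F x * F (x + a) = 1)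
    (h2 : ∀ s s', F s ≠ 0 → F s' ≠ 0 → lev s ≠ lev s' → F s * F s' = 1)
    (h2u : ∀ s s' x, F s ≠ 0 → F s' ≠ 0 → lev s ≠ lev s' → F x ≠ 0 → F (x + (s' - s)) ≠ 0 → x = s)
    (h3 : ∀ s s' x, F s ≠ 0 → F s' ≠ 0 → s ≠ s' → lev s = lev s' → F x ≠ 0 →
      F (x + (s' - s)) ≠ 0 → lev x = lev s ∧ lev (x + (s' - s)) = lev s)
    (h4 : ∃ s s', F s ≠ 0 ∧ F s' ≠ 0 ∧ lev s ≠ lev s') : False := by
  classical
  have hp : p.Prime := Fact.out
  obtain ⟨s0, s1, hs0, hs1, hl⟩ := h4
  have hq01 : F s0 * F s1 = 1 := h2 s0 s1 hs0 hs1 hl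
  by_cases hA : ∃ t, F t ≠ 0 ∧ lev t ≠ lev s0 ∧ lev t ≠ lev s1
  · obtain ⟨t, ht, ht0, ht1⟩ := hA
    have e0 := h2 t s0 ht hs0 ht0
    have e1 := h2 t s1 ht hs1 ht1
    have e2 : F s0 = F s1 := mul_left_cancel₀ ht (e0.trans e1.symm)
    have hsq : F s0 * F s0 = 1 := by
      have := hq01
      rwa [← e2] at this
    have hall : ∀ s, F s ≠ 0 → F s = F s0 := by
      intro s hs
      by_cases h5 : lev s = lev s0
      · have h6 := h2 s s1 hs hs1 (fun h => hl (h5.symm.trans h))
        rw [← hq01] at h6
        exact mul_right_cancel₀ hs1 h6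
      · have h6 := h2 s s0 hs hs0 h5
        rw [← hsq] at h6
        exact mul_right_cancel₀ hs0 h6
    have h7 : ∑ x, F x * F x = ((univ.filter (fun x => F x ≠ 0)).card : k) * 1 := by
      rw [← nsmul_eq_mul, ← Finset.sum_const, Finset.sum_filter]
      apply Finset.sum_congr rfl
      intro x _
      by_cases hx : F x = 0
      · rw [if_neg (fun h => h hx), hx, zero_mul]
      · rw [if_pos hx, hall x hx, hsq]
    rw [h0, mul_one] at h7
    have h10 : ({s0, s1, t} : Finset (ZMod p)).card ≤ (univ.filter (fun x => F x ≠ 0)).card := by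
      apply Finset.card_le_card
      intro x hx
      simp only [Finset.mem_insert, Finset.mem_singleton] at hx
      rw [Finset.mem_filter]
      rcases hx with rfl | rfl | rfl
      · exact ⟨mem_univ _, hs0⟩
      · exact ⟨mem_univ _, hs1⟩
      · exact ⟨mem_univ _, ht⟩
    have h11 : ({s0, s1, t} : Finset (ZMod p)).card = 3 := by
      apply Finset.card_eq_three.mpr
      exact ⟨s0, s1, t, fun h => hl (h ▸ rfl), fun h => ht0 (h ▸ rfl), fun h => ht1 (h ▸ rfl), rfl⟩
    have h12 : (univ.filter (fun x => F x ≠ 0)).card ≤ p := by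
      have := Finset.card_le_univ (univ.filter (fun x => F x ≠ 0))
      rwa [ZMod.card] at this
    exact cast_two_false (k := k) (p := p) (by omega) h12 h7.symm
  push Not at hA
  have hall : ∀ s, F s ≠ 0 → lev s = lev s0 ∨ lev s = lev s1 := by
    intro s hs
    by_cases h5 : lev s = lev s0
    · exact Or.inl h5
    · exact Or.inr (hA s hs h5)
  -- a third element
  obtain ⟨a, ha⟩ : ∃ a : ZMod p, a ∉ ({0, s1 - s0, s0 - s1} : Finset (ZMod p)) := by
    by_contra hcon
    push Not at hcon
    have h5 : (univ : Finset (ZMod p)).card ≤ ({0, s1 - s0, s0 - s1} : Finset (ZMod p)).card :=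
      Finset.card_le_card (fun x _ => hcon x)
    rw [Finset.card_univ, ZMod.card] at h5
    have h6 := Finset.card_le_three (a := (0 : ZMod p)) (b := s1 - s0) (c := s0 - s1)
    omega
  simp only [Finset.mem_insert, Finset.mem_singleton, not_or] at ha
  obtain ⟨ha0, ha1, ha2⟩ := ha
  have h5 : ∃ x, F x ≠ 0 ∧ F (x + a) ≠ 0 := by
    by_contra hcon
    push Not at hcon
    have h10 := h1 a ha0
    rw [Finset.sum_eq_zero] at h10
    · exact zero_ne_one h10
    · intro x _
      by_cases hx : F x = 0
      · rw [hx, zero_mul]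
      · rw [hcon x hx, mul_zero]
  obtain ⟨x, hx, hxa⟩ := h5
  have h6 : ∃ t, F t ≠ 0 ∧ t ≠ s0 ∧ t ≠ s1 := by
    by_contra hcon
    push Not at hcon
    have hx' : x = s0 ∨ x = s1 := by
      by_cases h : x = s0
      · exact Or.inl h
      · exact Or.inr (hcon x hx h)
    have hxa' : x + a = s0 ∨ x + a = s1 := by
      by_cases h : x + a = s0
      · exact Or.inl h
      · exact Or.inr (hcon _ hxa h)
    rcases hx' with h7 | h7 <;> rcases hxa' with h8 | h8
    · exact ha0 (by rw [h7] at h8; linear_combination h8)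
    · exact ha1 (by rw [h7] at h8; linear_combination h8)
    · exact ha2 (by rw [h7] at h8; linear_combination h8)
    · exact ha0 (by rw [h7] at h8; linear_combination h8)
  obtain ⟨t, ht, ht0, ht1⟩ := h6
  -- the two levels
  have key : ∀ s0 s1 t : ZMod p, F s0 ≠ 0 → F s1 ≠ 0 → lev s0 ≠ lev s1 →
      (∀ s, F s ≠ 0 → lev s = lev s0 ∨ lev s = lev s1) → F t ≠ 0 → t ≠ s0 → lev t = lev s0 →
      False := by
    intro s0 s1 t hs0 hs1 hl hall ht ht0 hlt
    by_cases hone : ∃ t1, F t1 ≠ 0 ∧ lev t1 = lev s1 ∧ t1 ≠ s1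
    · -- two elements in each level
      obtain ⟨t1, ht1, hlt1, hne1⟩ := hone
      have h01 : F s0 * F s1 = 1 := h2 s0 s1 hs0 hs1 hl
      have hF0 : ∀ s, F s ≠ 0 → lev s = lev s0 → F s = F s0 := by
        intro s hs hls
        have h4 := h2 s s1 hs hs1 (hls ▸ hl)
        rw [← h01] at h4
        exact mul_right_cancel₀ hs1 h4
      have hF1 : ∀ s, F s ≠ 0 → lev s = lev s1 → F s = F s1 := by
        intro s hs hls
        have h4 := h2 s0 s hs0 hs (hls ▸ hl)
        rw [← h01] at h4
        exact mul_left_cancel₀ hs0 h4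
      have c0 := pair_count F lev h1 h3 (F s0) s0 t hs0 ht (Ne.symm ht0) hlt.symm hF0
      have c1 := pair_count F lev h1 h3 (F s1) s1 t1 hs1 ht1 (Ne.symm hne1) hlt1.symm hF1
      set P0 := univ.filter (fun x => F x ≠ 0 ∧ F (x + (t - s0)) ≠ 0) with hP0
      set P1 := univ.filter (fun x => F x ≠ 0 ∧ F (x + (t1 - s1)) ≠ 0) with hP1
      set N0 := univ.filter (fun x => F x ≠ 0 ∧ lev x = lev s0) with hN0
      set N1 := univ.filter (fun x => F x ≠ 0 ∧ lev x = lev s1) with hN1
      have hc := cross_card F lev h2u N0 N1 (fun x hx => (Finset.mem_filter.mp hx).2.1)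
        (fun x hx => (Finset.mem_filter.mp hx).2.1) (fun x hx y hy => by
          rw [(Finset.mem_filter.mp hx).2.2, (Finset.mem_filter.mp hy).2.2]; exact hl)
      have hle0 : P0.card ≤ N0.card := by
        apply Finset.card_le_card
        intro x hx
        rw [hP0, Finset.mem_filter] at hx
        rw [hN0, Finset.mem_filter]
        exact ⟨mem_univ _, hx.2.1, (h3 s0 t x hs0 ht (Ne.symm ht0) hlt.symm hx.2.1 hx.2.2).1⟩
      have hle1 : P1.card ≤ N1.card := by
        apply Finset.card_le_card
        intro x hx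
        rw [hP1, Finset.mem_filter] at hx
        rw [hN1, Finset.mem_filter]
        exact ⟨mem_univ _, hx.2.1, (h3 s1 t1 x hs1 ht1 (Ne.symm hne1) hlt1.symm hx.2.1 hx.2.2).1⟩
      have hmul : ((P0.card * P1.card : ℕ) : k) = ((1 : ℕ) : k) := by
        push_cast
        have h9 : (P0.card : k) * (F s0 * F s0) * ((P1.card : k) * (F s1 * F s1)) = 1 := by
          rw [c0, c1, one_mul]
        have h10 : (P0.card : k) * (F s0 * F s0) * ((P1.card : k) * (F s1 * F s1))
            = (P0.card : k) * P1.card * ((F s0 * F s1) * (F s0 * F s1)) := by ring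
        rw [h10, h01, one_mul, mul_one] at h9
        exact h9
      have hlt' : P0.card * P1.card < p := by
        have := Nat.mul_le_mul hle0 hle1
        omega
      have h9 := nat_eq_of_cast hlt' (by omega) hmul
      have h10 : P0.card = 1 := Nat.eq_one_of_mul_eq_one_right h9
      have h11 : P1.card = 1 := Nat.eq_one_of_mul_eq_one_left h9
      rw [h10, Nat.cast_one, one_mul] at c0
      rw [h11, Nat.cast_one, one_mul] at c1
      have h7 : ∑ x, F x * F x = ((univ.filter (fun x => F x ≠ 0)).card : k) * 1 := by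
        rw [← nsmul_eq_mul, ← Finset.sum_const, Finset.sum_filter]
        apply Finset.sum_congr rfl
        intro x _
        by_cases hx : F x = 0
        · rw [if_neg (fun h => h hx), hx, zero_mul]
        · rw [if_pos hx]
          rcases hall x hx with h12 | h12
          · rw [hF0 x hx h12, c0]
          · rw [hF1 x hx h12, c1]
      rw [h0, mul_one] at h7
      have h10 : ({s0, s1, t} : Finset (ZMod p)).card ≤ (univ.filter (fun x => F x ≠ 0)).card := by
        apply Finset.card_le_card
        intro x hx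
        simp only [Finset.mem_insert, Finset.mem_singleton] at hx
        rw [Finset.mem_filter]
        rcases hx with rfl | rfl | rfl
        · exact ⟨mem_univ _, hs0⟩
        · exact ⟨mem_univ _, hs1⟩
        · exact ⟨mem_univ _, ht⟩
      have h11 : ({s0, s1, t} : Finset (ZMod p)).card = 3 := by
        apply Finset.card_eq_three.mpr
        refine ⟨s0, s1, t, fun h => hl (h ▸ rfl), Ne.symm ht0, ?_, rfl⟩
        rintro rfl
        exact hl hlt.symm
      have h12 : (univ.filter (fun x => F x ≠ 0)).card ≤ p := by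
        have := Finset.card_le_univ (univ.filter (fun x => F x ≠ 0))
        rwa [ZMod.card] at this
      exact cast_two_false (k := k) (p := p) (by omega) h12 h7.symm
    · push Not at hone
      apply one_single hp5 hex F lev h0 h1 h2 h2u h3 s0 s1 t hs0 hs1 hl _ ht ht0 hlt
      intro s hs
      rcases hall s hs with h7 | h7
      · exact Or.inl h7
      · exact Or.inr (hone s hs h7)
  rcases hall t ht with h7 | h7
  · exact key s0 s1 t hs0 hs1 hl hall ht ht0 h7
  · exact key s1 s0 t hs1 hs0 (Ne.symm hl) (fun s hs => (hall s hs).symm) ht ht1 h7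

end Pool.Agent.H990.SU
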