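import Pool.Agent.H990.SU.Levels

/-!
# Exceptional primes are congruent to `± 1` modulo `9`
-/

set_option autoImplicit false
set_option linter.unusedSectionVars false
set_option linter.unusedVariables false

namespace Pool.Agent.H990.SU

theorem nine_of_root {p : ℕ} [Fact p.Prime] (hp5 : 5 ≤ p) (t : ZMod p) (ht : t ^ 3 - 3 * t + 1 = 0) :
    p % 9 = 1 ∨ p % 9 = 8 := by
  have hp : p.Prime := Fact.out
  let K := AlgebraicClosure (ZMod p)
  have hcK : CharP K p := charP_of_injective_algebraMap (algebraMap (ZMod p) K).injective p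
  set τ : K := algebraMap (ZMod p) K t with hτ
  have h1 : τ ^ 3 - 3 * τ + 1 = 0 := by
    have := congrArg (algebraMap (ZMod p) K) ht
    rw [map_add, map_sub, map_mul, map_pow, map_one, map_zero, map_ofNat] at this
    exact this
  have hτp : τ ^ p = τ := by
    rw [hτ, ← map_pow, ZMod.pow_card]
  have hn : ∀ m : ℕ, 0 < m → m < p → (m : K) ≠ 0 := by
    intro m h0 hm h
    rw [CharP.cast_eq_zero_iff K p] at h
    have := Nat.le_of_dvd h0 h
    omega
  have h2 : (2 : K) ≠ 0 := by exact_mod_cast hn 2 (by omega) (by omega)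
  have h3 : (3 : K) ≠ 0 := by exact_mod_cast hn 3 (by omega) (by omega)
  obtain ⟨s, hs⟩ := IsAlgClosed.exists_pow_nat_eq (τ ^ 2 - 4) (n := 2) two_pos
  obtain ⟨z, hz⟩ : ∃ z : K, z ^ 2 + 1 = τ * z := by
    refine ⟨(τ + s) * 2⁻¹, ?_⟩
    have e1 : (2 : K) * 2⁻¹ = 1 := mul_inv_cancel₀ h2
    have e2 : (4 : K) * (2⁻¹ * 2⁻¹) = 1 := by linear_combination (2 * 2⁻¹ + 1) * e1
    linear_combination (2⁻¹ * 2⁻¹) * hs + (τ * (τ + s) * 2⁻¹) * e1 - e2
  have hz0 : z ≠ 0 := by
    rintro rfl
    simp at hz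
  have h4 : z ^ 6 + z ^ 3 + 1 = 0 := by
    have e1 : (z ^ 2 + 1) ^ 3 = (τ * z) ^ 3 := by rw [hz]
    have e2 : τ ^ 3 = 3 * τ - 1 := by linear_combination h1
    rw [mul_pow, e2] at e1
    linear_combination e1 - 3 * z ^ 2 * hz
  have h5 : z ^ 3 ≠ 1 := by
    intro h
    have e1 : z ^ 6 = 1 := by
      have : z ^ 6 = (z ^ 3) ^ 2 := by ring
      rw [this, h, one_pow]
    rw [e1, h] at h4
    apply h3
    linear_combination h4
  have h6 : z ^ 9 = 1 := by linear_combination (z ^ 3 - 1) * h4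
  have hord : orderOf z = 9 := by
    have h7 : orderOf z = 3 ^ (1 + 1) := by
      haveI : Fact (Nat.Prime 3) := ⟨Nat.prime_three⟩
      apply orderOf_eq_prime_pow
      · simpa using h5
      · norm_num
        exact h6
    rw [h7]; norm_num
  haveI : ExpChar K p := ExpChar.prime hp
  have hfrob : (z ^ p) ^ 2 + 1 = τ * z ^ p := by
    have e1 : (z ^ 2 + 1) ^ p = (z ^ 2) ^ p + 1 ^ p := add_pow_char (z ^ 2) 1 p
    rw [hz, mul_pow, hτp, one_pow, ← pow_mul, mul_comm 2 p, pow_mul] at e1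
    exact e1.symm
  have h7 : (z ^ p - z) * (z ^ p * z - 1) = 0 := by
    linear_combination z * hfrob - z ^ p * hz
  rcases mul_eq_zero.mp h7 with h8 | h8
  · left
    have h9 : z ^ (p - 1) = 1 := by
      have e1 : z ^ (p - 1) * z = 1 * z := by
        rw [← pow_succ, Nat.sub_add_cancel hp.one_lt.le, one_mul]
        exact sub_eq_zero.mp h8
      exact mul_right_cancel₀ hz0 e1
    have h10 := orderOf_dvd_of_pow_eq_one h9
    rw [hord] at h10
    omega
  · right
    have h9 : z ^ (p + 1) = 1 := by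
      rw [pow_succ]
      exact sub_eq_zero.mp h8
    have h10 := orderOf_dvd_of_pow_eq_one h9
    rw [hord] at h10
    omega

/-- **Exceptional primes are congruent to `± 1` modulo `9`.** -/
theorem exc_nine {p : ℕ} [Fact p.Prime] (hp5 : 5 ≤ p) (h : Exceptional p) :
    p % 9 = 1 ∨ p % 9 = 8 := by
  have hp : p.Prime := Fact.out
  obtain ⟨n, l, h2l, h2ln, hlp, hdvd⟩ := h
  have hlt : l < p := by
    have h1 : l * (2 * n + 1) ≤ l * p := by omega
    have h2 := Nat.le_of_mul_le_mul_left h1 (by omega)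
    omega
  have e1 : (n : ZMod p) * (n - 1) + l * (2 * n + 1) = 0 := by
    have h1 := congrArg (Nat.cast (R := ZMod p)) hlp
    push_cast [Nat.cast_sub (show 1 ≤ n by omega)] at h1
    rw [ZMod.natCast_self, mul_zero] at h1
    exact h1.symm
  have e2 : (l : ZMod p) * (l - 2) + n = 0 := by
    rw [← ZMod.natCast_eq_zero_iff] at hdvd
    push_cast [Nat.cast_sub h2l] at hdvd
    exact hdvd
  have hl0 : (l : ZMod p) ≠ 0 := by
    intro h1
    rw [ZMod.natCast_eq_zero_iff] at h1
    have := Nat.le_of_dvd (by omega) h1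
    omega
  set t : ZMod p := n + l with ht
  have hn : (n : ZMod p) = 2 * l - l ^ 2 := by linear_combination e2
  have ht2 : t ^ 2 = l := by
    rw [ht]
    linear_combination e1 + e2
  have ht0 : t ≠ 0 := by
    intro h1
    rw [h1] at ht2
    apply hl0
    rw [← ht2]; ring
  apply nine_of_root hp5 t
  apply mul_left_cancel₀ ht0
  have e3 : t = 3 * t ^ 2 - t ^ 4 := by
    have e4 : t ^ 4 = l ^ 2 := by
      have : t ^ 4 = (t ^ 2) ^ 2 := by ring
      rw [this, ht2]
    rw [e4, ht2, ht, hn]; ring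
  linear_combination e3

end Pool.Agent.H990.SU
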