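import Pool.Agent.H990.SU.Filt
import Pool.Agent.H990.SP.Mom

/-!
# Slopes
-/

set_option autoImplicit false
set_option linter.unusedSectionVars false
set_option linter.unusedVariables false

namespace Pool.Agent.H990.SU

open Finset Pool.Agent.H207.WH

variable {L : Type*} [Field L] {Γ : Type*} [LinearOrderedCommGroupWithZero Γ] {p : ℕ}
  [Fact p.Prime]

/-- the products on a diagonal -/
def ff (w u : ZMod p → L) (a x : ZMod p) : L := w x * u (x + a)

/-- the weights `R ^ k` of the Newton coefficients and the last index at which the bound is sharp -/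
structure Slope (V : Valuation L Γ) (R ε M : Γ) (χ : AddChar (ZMod p) L) (w u : ZMod p → L)
    (j : ℕ) : Prop where
  R0 : 0 < R
  R1 : R < 1
  ε1 : ε < 1
  Rε : R ≤ ε
  Dε : ∀ x, V (Dd χ x) ≤ ε * R
  pε : V (p : L) ≤ (ε * R) ^ (p - 1)
  le : ∀ a k, V (gg χ (ff w u a) k) ≤ M * R ^ k
  lt : ∀ a k, j < k → V (gg χ (ff w u a) k) < M * R ^ k
  att : ∃ a, V (gg χ (ff w u a) j) = M * R ^ j
  j1 : 1 ≤ j
  M1 : 1 ≤ M

variable {V : Valuation L Γ} {R ε M : Γ} {χ : AddChar (ZMod p) L} {w u : ZMod p → L} {j : ℕ}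

theorem V_nat_le (V : Valuation L Γ) (n : ℕ) : V (n : L) ≤ 1 := by
  induction n with
  | zero => simp
  | succ n ih =>
    push_cast
    exact (V.map_add _ _).trans (max_le ih (by rw [map_one]))

theorem V_int_le (V : Valuation L Γ) (n : ℤ) : V (n : L) ≤ 1 := by
  rcases Int.eq_nat_or_neg n with ⟨m, rfl | rfl⟩
  · push_cast; exact V_nat_le V m
  · push_cast; rw [Valuation.map_neg]; exact V_nat_le V m

theorem PP_sum {ι : Type*} (s : Finset ι) (f f' : ZMod p → L) (φ : ι → ZMod p → ZMod p → L) :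
    PP f f' (∑ i ∈ s, φ i) = ∑ i ∈ s, PP f f' (φ i) := by
  classical
  induction s using Finset.induction_on with
  | empty => simp [PP_zero]
  | insert i s hi ih => rw [Finset.sum_insert hi, Finset.sum_insert hi, PP_add, ih]

theorem PP_expand (f f' : ZMod p → L) (m n : ℕ) :
    PP f f' (fun x y => Dd χ y ^ n * (Dd χ x - Dd χ y) ^ m)
      = ∑ k ∈ range (m + 1), ((m.choose k : L) * (-1) ^ (m - k)) *
        (gg χ f k * gg χ f' (n + (m - k))) := by
  have e1 : (fun x y => Dd χ y ^ n * (Dd χ x - Dd χ y) ^ m : ZMod p → ZMod p → L)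
      = ∑ k ∈ range (m + 1), (fun x y => ((m.choose k : L) * (-1) ^ (m - k)) * Dd χ x ^ k *
        Dd χ y ^ (n + (m - k))) := by
    funext x y
    rw [Finset.sum_apply, Finset.sum_apply, sub_eq_add_neg, add_pow, Finset.mul_sum]
    apply Finset.sum_congr rfl
    intro k _
    rw [neg_pow, pow_add]
    ring
  rw [e1, PP_sum]
  simp_rw [PP_gen]

/-- **The leading term.** -/
theorem leading (hs : Slope V R ε M χ w u j) (m n : ℕ) (hmn : n + m = 2 * j) (hjm : j ≤ m)
    (a a' : ZMod p) :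
    V (PP (ff w u a) (ff w u a') (fun x y => Dd χ y ^ n * (Dd χ x - Dd χ y) ^ m)
      - ((m.choose j : L) * (-1) ^ (m - j)) * (gg χ (ff w u a) j * gg χ (ff w u a') j))
      < (M * R ^ j) ^ 2 := by
  classical
  have hM : 0 < M := lt_of_lt_of_le zero_lt_one hs.M1
  have hMR : 0 < (M * R ^ j) ^ 2 := pow_pos (mul_pos hM (pow_pos hs.R0 _)) _
  rw [PP_expand]
  have e1 : n + (m - j) = j := by omega
  have h1 : j ∈ range (m + 1) := by rw [Finset.mem_range]; omega
  rw [← Finset.add_sum_erase _ _ h1, e1, add_sub_cancel_left]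
  apply Valuation.map_sum_lt _ hMR.ne'
  intro k hk
  rw [Finset.mem_erase, Finset.mem_range] at hk
  have h2 : V ((m.choose k : L) * (-1) ^ (m - k)) ≤ 1 := by
    rw [map_mul, map_pow, Valuation.map_neg, map_one, one_pow, mul_one]
    exact V_nat_le V _
  have h3 : (M * R ^ j) ^ 2 = (M * R ^ k) * (M * R ^ (n + (m - k))) := by
    have h4 : R ^ (2 * j) = R ^ k * R ^ (n + (m - k)) := by
      rw [← pow_add]; congr 1; omega
    rw [mul_pow, ← pow_mul, mul_comm j 2, h4, sq]
    exact mul_mul_mul_comm _ _ _ _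
  rw [V.map_mul, V.map_mul (gg χ (ff w u a) k), h3]
  have hpos : ∀ i, 0 < M * R ^ i := fun i => mul_pos hM (pow_pos hs.R0 _)
  have key : V (gg χ (ff w u a) k) * V (gg χ (ff w u a') (n + (m - k)))
      < M * R ^ k * (M * R ^ (n + (m - k))) := by
    rcases lt_or_gt_of_ne hk.1 with h5 | h5
    · exact mul_lt_mul_of_le_of_lt_of_nonneg_of_pos (hs.le a k) (hs.lt a' _ (by omega)) zero_le
        (hpos k)
    · exact mul_lt_mul_of_lt_of_le_of_nonneg_of_pos (hs.lt a k h5) (hs.le a' _) zero_le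
        (hpos _)
  calc V ((m.choose k : L) * (-1) ^ (m - k)) * (V (gg χ (ff w u a) k) *
        V (gg χ (ff w u a') (n + (m - k))))
      ≤ 1 * (V (gg χ (ff w u a) k) * V (gg χ (ff w u a') (n + (m - k)))) :=
        mul_le_mul_of_nonneg_right h2 zero_le
    _ < _ := by rw [one_mul]; exact key

theorem eps_lt (hs : Slope V R ε M χ w u j) : M * M * (ε * R ^ (2 * j)) < (M * R ^ j) ^ 2 := by
  have hM : 0 < M := lt_of_lt_of_le zero_lt_one hs.M1
  have e1 : (M * R ^ j) ^ 2 = 1 * (M * M * R ^ (2 * j)) := by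
    rw [mul_pow, ← pow_mul, mul_comm j 2, sq, one_mul]
  have e2 : M * M * (ε * R ^ (2 * j)) = ε * (M * M * R ^ (2 * j)) := by ac_rfl
  rw [e1, e2]
  exact mul_lt_mul_of_lt_of_le_of_nonneg_of_pos hs.ε1 le_rfl zero_le
    (mul_pos (mul_pos hM hM) (pow_pos hs.R0 _))

/-- functions close to a power of `Dd x - Dd y` -/
theorem leading' (hs : Slope V R ε M χ w u j) (m n : ℕ) (hmn : n + m = 2 * j) (hjm : j ≤ m)
    (φ : ZMod p → ZMod p → L)
    (hφ : φ - (fun x y => Dd χ y ^ n * (Dd χ x - Dd χ y) ^ m) ∈ G V R χ (ε * R ^ (2 * j)))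
    (a a' : ZMod p) :
    V (PP (ff w u a) (ff w u a') φ
      - ((m.choose j : L) * (-1) ^ (m - j)) * (gg χ (ff w u a) j * gg χ (ff w u a') j))
      < (M * R ^ j) ^ 2 := by
  have h1 := leading hs m n hmn hjm a a'
  have h2 := PP_le (hs.le a) (hs.le a') hφ
  rw [PP_sub] at h2
  have h3 := lt_of_le_of_lt h2 (eps_lt hs)
  have e1 : PP (ff w u a) (ff w u a') φ
      - ((m.choose j : L) * (-1) ^ (m - j)) * (gg χ (ff w u a) j * gg χ (ff w u a') j)
      = (PP (ff w u a) (ff w u a') φ -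
        PP (ff w u a) (ff w u a') (fun x y => Dd χ y ^ n * (Dd χ x - Dd χ y) ^ m)) +
        (PP (ff w u a) (ff w u a') (fun x y => Dd χ y ^ n * (Dd χ x - Dd χ y) ^ m)
      - ((m.choose j : L) * (-1) ^ (m - j)) * (gg χ (ff w u a) j * gg χ (ff w u a') j)) := by ring
  rw [e1]
  exact V.map_add_lt h3 h1

/-- the kernel of the first identity -/
def ker1 (χ : AddChar (ZMod p) L) (s : ZMod p) (n : ℕ) (x y : ZMod p) : L :=
  Dd χ y ^ n * ∑ b ∈ range p, χ (x - s) ^ b * χ y ^ (p - 1 - b)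

theorem chi_inj [CharZero L] {χ : AddChar (ZMod p) L} (hχ : χ.IsPrimitive) {x y : ZMod p}
    (h : χ x = χ y) : x = y := by
  by_contra hne
  have hd : x - y ≠ 0 := sub_ne_zero.mpr hne
  have h1 := sum_chi hχ (x - y)
  rw [if_neg hd] at h1
  have h2 : ∀ t : ZMod p, χ (t * (x - y)) = 1 := by
    intro t
    have h3 : χ (x - y) = 1 := by
      rw [AddChar.map_sub_eq_div, h, div_self]
      intro h4
      have := chi_pow χ y
      rw [h4, zero_pow (Fact.out : p.Prime).ne_zero] at this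
      exact zero_ne_one this
    have h4 : χ (t * (x - y)) = χ (t.val • (x - y)) := by
      rw [nsmul_eq_mul, ZMod.natCast_zmod_val]
    rw [h4, AddChar.map_nsmul_eq_pow, h3, one_pow]
  simp_rw [h2] at h1
  rw [Finset.sum_const, Finset.card_univ, ZMod.card, nsmul_eq_mul, mul_one] at h1
  exact (Fact.out : p.Prime).ne_zero (by exact_mod_cast h1)

theorem PP_ker1 [CharZero L] {χ : AddChar (ZMod p) L} (hχ : χ.IsPrimitive) (f f' : ZMod p → L)
    (s : ZMod p) (n : ℕ) :
    PP f f' (ker1 χ s n) = ∑ y, f (y + s) * f' y * (Dd χ y ^ n * (p * χ y ^ (p - 1))) := by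
  rw [PP, Finset.sum_comm]
  apply Finset.sum_congr rfl
  intro y _
  rw [Finset.sum_eq_single (y + s)]
  · rw [ker1]
    congr 2
    have e1 : ∀ b ∈ range p, χ (y + s - s) ^ b * χ y ^ (p - 1 - b) = χ y ^ (p - 1) := by
      intro b hb
      rw [Finset.mem_range] at hb
      rw [add_sub_cancel_right, ← pow_add]
      congr 1; omega
    rw [Finset.sum_congr rfl e1, Finset.sum_const, Finset.card_range, nsmul_eq_mul]
  · intro x _ hx
    rw [ker1]
    have h1 : (∑ b ∈ range p, χ (x - s) ^ b * χ y ^ (p - 1 - b)) * (χ (x - s) - χ y) = 0 := by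
      rw [geom_sum₂_mul, chi_pow, chi_pow, sub_self]
    have h2 : χ (x - s) - χ y ≠ 0 := by
      intro h
      apply hx
      have := chi_inj hχ (sub_eq_zero.mp h)
      rw [← this]; ring
    rw [(mul_eq_zero.mp h1).resolve_right h2]
    ring
  · intro h; exact absurd (mem_univ _) h

theorem sym1 [CharZero L] {χ : AddChar (ZMod p) L} (hχ : χ.IsPrimitive) (w u : ZMod p → L)
    (s a a' : ZMod p) (n : ℕ) :
    PP (ff w u a) (ff w u a') (ker1 χ s n) = PP (ff w u (a' - s)) (ff w u (a + s)) (ker1 χ s n) := by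
  rw [PP_ker1 hχ, PP_ker1 hχ]
  apply Finset.sum_congr rfl
  intro y _
  congr 1
  simp only [ff]
  have e1 : y + s + (a' - s) = y + a' := by ring
  have e2 : y + s + a = y + (a + s) := by ring
  rw [e1, e2]
  ring

theorem G_shift (hs : Slope V R ε M χ w u j) (s : ZMod p) :
    (fun x y => χ (x + s) - χ y : ZMod p → ZMod p → L) - (fun x y => Dd χ x - Dd χ y)
      ∈ G V R χ (ε * R) := by
  have h1 := G_mul (G_const (V := V) (R := R) (χ := χ) (Dd χ s) (hs.Dε s))
    (G_chix (V := V) (χ := χ) hs.R1.le)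
  rw [mul_one] at h1
  convert h1 using 1
  funext x y
  simp only [Pi.sub_apply, Pi.mul_apply, Dd, AddChar.map_add_eq_mul]
  ring

theorem G_DxDy : (fun x y => Dd χ x - Dd χ y : ZMod p → ZMod p → L) ∈ G V R χ R :=
  G_sub G_x G_y

theorem exists_int (b : ℕ) (hb : b ≤ p - 1) :
    ∃ e : ℤ, (1 : ℤ) = ((p - 1).choose b : ℤ) * (-1) ^ b + p * e := by
  have h1 := SP.choose_top (p := p) (k := ZMod p) b hb
  have h2 : (((p - 1).choose b : ℤ) * (-1) ^ b - 1 : ℤ) = ((((p - 1).choose b : ℤ) * (-1) ^ b - 1 : ℤ)) := rfl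
  have h3 : ((((p - 1).choose b : ℤ) * (-1) ^ b - 1 : ℤ) : ZMod p) = 0 := by
    push_cast
    rw [h1, sub_self]
  rw [ZMod.intCast_zmod_eq_zero_iff_dvd] at h3
  obtain ⟨e, he⟩ := h3
  exact ⟨-e, by linear_combination -he⟩

theorem G_ker1 (hp2 : p ≠ 2) (hs : Slope V R ε M χ w u j) (s : ZMod p) (n : ℕ)
    (hn : n + (p - 1) = 2 * j) :
    ker1 χ s n - (fun x y => Dd χ y ^ n * (Dd χ x - Dd χ y) ^ (p - 1))
      ∈ G V R χ (ε * R ^ (2 * j)) := by
  have hp : p.Prime := Fact.out
  have hp1 : 1 ≤ p - 1 := by have := hp.two_le; omega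
  have heven : Even (p - 1) := by
    rcases hp.eq_two_or_odd' with h | h
    · exact absurd h hp2
    · obtain ⟨m, hm⟩ := h; exact ⟨m, by omega⟩
  have hε1 := hs.ε1.le
  -- the sum
  have h1 : (fun x y => (∑ b ∈ range p, χ (x - s) ^ b * χ y ^ (p - 1 - b)) -
      (χ (x - s) - χ y) ^ (p - 1) : ZMod p → ZMod p → L) ∈ G V R χ ((ε * R) ^ (p - 1)) := by
    have h2 : ∀ b ∈ range p, (fun x y => (1 - ((p - 1).choose b : L) * (-1) ^ (p - 1 - b)) *
        (χ (x - s) ^ b * χ y ^ (p - 1 - b)) : ZMod p → ZMod p → L)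
        ∈ G V R χ ((ε * R) ^ (p - 1)) := by
      intro b hb
      rw [Finset.mem_range] at hb
      obtain ⟨e, he⟩ := exists_int (p := p) b (by omega)
      have e1 : (1 - ((p - 1).choose b : L) * (-1) ^ (p - 1 - b)) = (p : L) * (e : L) := by
        have h3 : ((1 : ℤ) : L) = ((((p - 1).choose b : ℤ) * (-1) ^ b + p * e : ℤ) : L) := by
          rw [← he]
        push_cast at h3
        have h4 : ((-1 : L)) ^ (p - 1 - b) = (-1) ^ b := by
          have h5 : ((-1 : L)) ^ (p - 1 - b) * (-1) ^ b = 1 := by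
            rw [← pow_add]
            have : p - 1 - b + b = p - 1 := by omega
            rw [this, heven.neg_one_pow]
          have h6 : ((-1 : L)) ^ b * (-1) ^ b = 1 := by
            rw [← mul_pow]; norm_num
          have h7 : ((-1 : L)) ^ b ≠ 0 := pow_ne_zero _ (by norm_num)
          exact mul_right_cancel₀ h7 (h5.trans h6.symm)
        rw [h4]
        linear_combination h3
      have h3 : V ((p : L) * (e : L)) ≤ (ε * R) ^ (p - 1) := by
        rw [map_mul]
        calc V (p : L) * V (e : L) ≤ (ε * R) ^ (p - 1) * 1 :=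
              mul_le_mul_of_nonneg' hs.pε (V_int_le V e) zero_le zero_le
          _ = _ := mul_one _
      have h4 := G_mul (G_const (V := V) (R := R) (χ := χ) _ h3)
        (G_mul (G_mul (G_const (V := V) (R := R) (χ := χ) (χ (-s) ^ b) (by rw [map_pow, Vchi, one_pow]))
          (G_pow1 (G_chix (V := V) (χ := χ) hs.R1.le) b))
          (G_pow1 (G_chiy (V := V) (χ := χ) hs.R1.le) (p - 1 - b)))
      rw [one_mul, one_mul, mul_one] at h4
      convert h4 using 1
      funext x y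
      simp only [Pi.mul_apply, Pi.pow_apply]
      rw [e1, sub_eq_add_neg x s, AddChar.map_add_eq_mul, mul_pow]
      ring
    have h3 := sum_mem h2
    convert h3 using 1
    funext x y
    rw [Finset.sum_apply, Finset.sum_apply]
    have e2 : (χ (x - s) - χ y) ^ (p - 1) = ∑ b ∈ range p, ((p - 1).choose b : L) *
        (-1) ^ (p - 1 - b) * (χ (x - s) ^ b * χ y ^ (p - 1 - b)) := by
      rw [sub_eq_add_neg, add_pow]
      have : p - 1 + 1 = p := by omega
      rw [this]
      apply Finset.sum_congr rfl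
      intro b _
      rw [neg_pow]; ring
    rw [e2, ← Finset.sum_sub_distrib]
    apply Finset.sum_congr rfl
    intro b _
    ring
  have h2 : (ε * R) ^ (p - 1) ≤ ε * R ^ (p - 1) := by
    rw [mul_pow]
    apply mul_le_mul_of_nonneg_right _ zero_le
    calc ε ^ (p - 1) ≤ ε ^ 1 := pow_le_pow_of_le_one zero_le hε1 hp1
      _ = ε := pow_one _
  have h3 := G_diff hε1 (G_DxDy (V := V) (R := R) (χ := χ)) (G_shift hs (-s)) (p - 1)
  rw [add_sub_cancel] at h3
  have h4 := add_mem (G_mono h2 h1) h3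
  have h5 := G_mul (G_pow (G_y (V := V) (R := R) (χ := χ)) n) h4
  have e1 : R ^ n * (ε * R ^ (p - 1)) = ε * R ^ (2 * j) := by
    rw [← hn, pow_add]; ac_rfl
  rw [e1] at h5
  convert h5 using 1
  funext x y
  simp only [ker1, Pi.sub_apply, Pi.add_apply, Pi.mul_apply, Pi.pow_apply, ← sub_eq_add_neg]
  ring

/-- **First case.** All leading coefficients are nonzero. -/
theorem caseA [CharZero L] (hp2 : p ≠ 2) (hχ : χ.IsPrimitive)
    (hVn : ∀ n : ℕ, ¬ p ∣ n → V (n : L) = 1) (hs : Slope V R ε M χ w u j)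
    (hj : p - 1 ≤ 2 * j) (hjp : j ≤ p - 1) (a : ZMod p) : V (gg χ (ff w u a) j) = M * R ^ j := by
  have hp : p.Prime := Fact.out
  obtain ⟨n, hn⟩ : ∃ n, n + (p - 1) = 2 * j := ⟨2 * j - (p - 1), by omega⟩
  obtain ⟨a1, ha1⟩ := hs.att
  have hM : 0 < M := lt_of_lt_of_le zero_lt_one hs.M1
  have hpos : 0 < M * R ^ j := mul_pos hM (pow_pos hs.R0 _)
  have hch : V (((p - 1).choose j : L) * (-1) ^ (p - 1 - j)) = 1 := by
    rw [map_mul, map_pow, Valuation.map_neg, map_one, one_pow, mul_one]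
    apply hVn
    intro h
    have h1 := SP.choose_ne (p := p) (k := ZMod p) (p - 1) j (by have := hp.pos; omega) hjp
    rw [← ZMod.natCast_eq_zero_iff] at h
    exact h1 h
  have hch0 : (((p - 1).choose j : L) * (-1) ^ (p - 1 - j)) ≠ 0 := by
    intro h; rw [h, map_zero] at hch; exact zero_ne_one hch
  -- the congruence
  have hcong : ∀ s b b', V (gg χ (ff w u b) j * gg χ (ff w u b') j -
      gg χ (ff w u (b' - s)) j * gg χ (ff w u (b + s)) j) < (M * R ^ j) ^ 2 := by
    intro s b b'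
    have h1 := leading' hs (p - 1) n hn hjp (ker1 χ s n) (G_ker1 hp2 hs s n hn) b b'
    have h2 := leading' hs (p - 1) n hn hjp (ker1 χ s n) (G_ker1 hp2 hs s n hn) (b' - s) (b + s)
    rw [sym1 hχ] at h1
    have h3 := V.map_sub_lt h2 h1
    have e1 : PP (ff w u (b' - s)) (ff w u (b + s)) (ker1 χ s n) -
        (((p - 1).choose j : L) * (-1) ^ (p - 1 - j)) *
          (gg χ (ff w u (b' - s)) j * gg χ (ff w u (b + s)) j) -
        (PP (ff w u (b' - s)) (ff w u (b + s)) (ker1 χ s n) -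
        (((p - 1).choose j : L) * (-1) ^ (p - 1 - j)) *
          (gg χ (ff w u b) j * gg χ (ff w u b') j))
        = (((p - 1).choose j : L) * (-1) ^ (p - 1 - j)) *
          (gg χ (ff w u b) j * gg χ (ff w u b') j -
          gg χ (ff w u (b' - s)) j * gg χ (ff w u (b + s)) j) := by ring
    rw [e1, map_mul, hch, one_mul] at h3
    exact h3
  have h1 := hcong (a1 - a) a1 a1
  have e1 : a1 - (a1 - a) = a := by ring
  rw [e1] at h1
  have h2 : V (gg χ (ff w u a) j * gg χ (ff w u (a1 + (a1 - a))) j) = (M * R ^ j) ^ 2 := by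
    have h3 : V (gg χ (ff w u a1) j * gg χ (ff w u a1) j) = (M * R ^ j) ^ 2 := by
      rw [map_mul, ha1, sq]
    rw [← h3] at h1 ⊢
    have h4 := V.map_sub_swap (gg χ (ff w u a1) j * gg χ (ff w u a1) j)
      (gg χ (ff w u a) j * gg χ (ff w u (a1 + (a1 - a))) j)
    rw [h4] at h1
    exact V.map_eq_of_sub_lt h1
  rw [map_mul, sq] at h2
  by_contra hne
  have h3 := lt_of_le_of_ne (hs.le a j) hne
  have h4 := mul_lt_mul_of_lt_of_le_of_nonneg_of_pos h3 (hs.le (a1 + (a1 - a)) j) zero_le hpos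
  rw [h2] at h4
  exact lt_irrefl _ h4

end Pool.Agent.H990.SU
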