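import Pool.Agent.H990.SU.Slope

/-!
# The two cases
-/

set_option autoImplicit false
set_option linter.unusedSectionVars false
set_option linter.unusedVariables false

namespace Pool.Agent.H990.SU

open Finset Pool.Agent.H207.WH

variable {L : Type*} [Field L] {Γ : Type*} [LinearOrderedCommGroupWithZero Γ] {p : ℕ}
  [Fact p.Prime]

variable {V : Valuation L Γ} {R ε M : Γ} {χ : AddChar (ZMod p) L} {w u : ZMod p → L} {j : ℕ}

theorem chi_nat (χ : AddChar (ZMod p) L) (m : ℕ) (x : ZMod p) : χ ((m : ZMod p) * x) = χ x ^ m := by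
  rw [← AddChar.map_nsmul_eq_pow, nsmul_eq_mul]

/-- expansion of differences -/
theorem PP_delta (χ : AddChar (ZMod p) L) (w u : ZMod p → L) (a : ZMod p) (i : ℕ) :
    PP (ff w u a) (ff w u (-a)) (fun x y => (χ (x - y) - 1) ^ i)
      = ∑ m ∈ range (i + 1), (i.choose m : L) * (-1) ^ (i - m) *
        (ov χ w u a m * ov χ w u (-a) (-m)) := by
  have e1 : (fun x y => (χ (x - y) - 1) ^ i : ZMod p → ZMod p → L)
      = ∑ m ∈ range (i + 1), (fun x y => (i.choose m : L) * (-1) ^ (i - m) * χ (m * (x - y))) := by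
    funext x y
    rw [Finset.sum_apply, Finset.sum_apply, sub_eq_add_neg, add_pow]
    apply Finset.sum_congr rfl
    intro m _
    rw [chi_nat]; ring
  rw [e1, PP_sum]
  apply Finset.sum_congr rfl
  intro m _
  rw [PP, ov, ov, Finset.sum_mul_sum, Finset.mul_sum]
  apply Finset.sum_congr rfl
  intro x _
  rw [Finset.mul_sum]
  apply Finset.sum_congr rfl
  intro y _
  have e2 : χ ((m : ZMod p) * (x - y)) = χ (m * x) * χ (-m * y) := by
    rw [← AddChar.map_add_eq_mul]; congr 1; ring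
  rw [e2]
  simp only [ff]
  ring

theorem PP_delta_ne (hS : Sic χ w u) (a : ZMod p) (ha : a ≠ 0) (i : ℕ) :
    PP (ff w u a) (ff w u (-a)) (fun x y => (χ (x - y) - 1) ^ i)
      = ((p : L) + 1)⁻¹ * Dd χ (-a) ^ i := by
  rw [PP_delta, Dd, sub_eq_add_neg (χ (-a)), add_pow, Finset.mul_sum]
  apply Finset.sum_congr rfl
  intro m _
  rw [hS.flat a m (fun h => ha h.1)]
  have e1 : -(a * (m : ZMod p)) = (m : ZMod p) * (-a) := by ring
  rw [e1, chi_nat]
  ring

theorem PP_delta_zero (hS : Sic χ w u) (i : ℕ) (hi : 1 ≤ i) (hip : i < p) :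
    PP (ff w u 0) (ff w u (-0)) (fun x y => (χ (x - y) - 1) ^ i)
      = (-1) ^ i * (1 - ((p : L) + 1)⁻¹) := by
  rw [PP_delta, Finset.sum_range_succ']
  have h1 : ∀ m ∈ range i, (i.choose (m + 1) : L) * (-1) ^ (i - (m + 1)) *
        (ov χ w u 0 (m + 1 : ℕ) * ov χ w u (-0) (-((m + 1 : ℕ) : ZMod p)))
        = (i.choose (m + 1) : L) * (-1) ^ (i - (m + 1)) * ((p : L) + 1)⁻¹ := by
    intro m hm
    rw [Finset.mem_range] at hm
    congr 1
    rw [hS.flat 0 _ (by
      rintro ⟨-, h⟩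
      rw [ZMod.natCast_eq_zero_iff] at h
      have := Nat.le_of_dvd (by omega) h
      omega)]
    rw [zero_mul, neg_zero, AddChar.map_zero_eq_one, one_mul]
  rw [Finset.sum_congr rfl h1, ← Finset.sum_mul]
  have h2 : ∑ m ∈ range i, (i.choose (m + 1) : L) * (-1) ^ (i - (m + 1)) = -(-1) ^ i := by
    have h3 : ((1 : L) + (-1)) ^ i = ∑ m ∈ range (i + 1), (1 : L) ^ m * (-1) ^ (i - m) * (i.choose m : L) :=
      add_pow _ _ _
    rw [Finset.sum_range_succ'] at h3
    simp only [one_pow, one_mul, Nat.choose_zero_right, Nat.cast_one, mul_one, Nat.sub_zero] at h3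
    rw [add_neg_cancel, zero_pow (by omega)] at h3
    have h4 : ∑ m ∈ range i, (i.choose (m + 1) : L) * (-1) ^ (i - (m + 1))
        = ∑ m ∈ range i, (-1 : L) ^ (i - (m + 1)) * (i.choose (m + 1) : L) :=
      Finset.sum_congr rfl fun m _ => mul_comm _ _
    rw [h4]
    linear_combination -h3
  rw [h2]
  simp only [Nat.choose_zero_right, Nat.cast_one, one_mul, Nat.sub_zero, Nat.cast_zero, neg_zero]
  rw [hS.zero]
  ring

/-- the second expansion -/
theorem PP_delta2 (f f' : ZMod p → L) (i : ℕ) :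
    PP f f' (fun x y => (χ (x - y) - 1) ^ i)
      = ∑ k ∈ range (i + 1), (i.choose k : L) * (∑ x, f x * (Dd χ x ^ (i - k) * χ x ^ k)) *
        gg χ (fun y => f' (-y)) k := by
  rw [PP]
  have e0 : ∀ x, ∑ y, f x * f' y * (χ (x - y) - 1) ^ i
      = ∑ y, f x * f' (-y) * (χ (x + y) - 1) ^ i := by
    intro x
    rw [← Equiv.sum_comp (Equiv.neg (ZMod p))]
    simp only [Equiv.neg_apply, sub_neg_eq_add]
  simp_rw [e0]
  have e1 : ∀ x y, (χ (x + y) - 1) ^ i = ∑ k ∈ range (i + 1),
      (i.choose k : L) * (Dd χ x ^ (i - k) * χ x ^ k) * Dd χ y ^ k := by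
    intro x y
    have e2 : χ (x + y) - 1 = χ x * Dd χ y + Dd χ x := by
      rw [Dd, Dd, AddChar.map_add_eq_mul]; ring
    rw [e2, add_pow]
    apply Finset.sum_congr rfl
    intro k _
    rw [mul_pow]; ring
  simp_rw [e1, Finset.mul_sum]
  have e3 : ∀ x, ∑ y, ∑ k ∈ range (i + 1), f x * f' (-y) *
      ((i.choose k : L) * (Dd χ x ^ (i - k) * χ x ^ k) * Dd χ y ^ k)
      = ∑ k ∈ range (i + 1), ∑ y, f x * f' (-y) *
      ((i.choose k : L) * (Dd χ x ^ (i - k) * χ x ^ k) * Dd χ y ^ k) := fun x => Finset.sum_comm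
  simp_rw [e3]
  rw [Finset.sum_comm]
  apply Finset.sum_congr rfl
  intro k _
  rw [gg, Finset.sum_mul_sum]
  apply Finset.sum_congr rfl
  intro x _
  apply Finset.sum_congr rfl
  intro y _
  ring

/-- **The bound for the opposite diagonal.** -/
theorem inv_bound (hs : Slope V R ε M χ w u j) (hS : Sic χ w u) (hc : V ((p : L) + 1)⁻¹ = 1)
    (a : ZMod p) (ha : a ≠ 0) (hM : ∀ n : ℕ, V (ov χ w u a n) = M) (i : ℕ) :
    V (gg χ (fun y => ff w u (-a) (-y)) i) ≤ M⁻¹ * R ^ i := by
  have hM0 : 0 < M := lt_of_lt_of_le zero_lt_one hs.M1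
  induction i using Nat.strong_induction_on with
  | _ i ih =>
    have h1 := PP_delta2 (χ := χ) (ff w u a) (ff w u (-a)) i
    rw [PP_delta_ne hS a ha, Finset.sum_range_succ] at h1
    have h2 : ∑ x, ff w u a x * (Dd χ x ^ (i - i) * χ x ^ i) = ov χ w u a i := by
      rw [ov]
      apply Finset.sum_congr rfl
      intro x _
      rw [Nat.sub_self, pow_zero, one_mul, chi_nat, ff]
    rw [h2, Nat.choose_self, Nat.cast_one, one_mul] at h1
    have h3 : V (ov χ w u a i * gg χ (fun y => ff w u (-a) (-y)) i) ≤ R ^ i := by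
      have h4 : ov χ w u a i * gg χ (fun y => ff w u (-a) (-y)) i
          = ((p : L) + 1)⁻¹ * Dd χ (-a) ^ i - ∑ k ∈ range i, (i.choose k : L) *
            (∑ x, ff w u a x * (Dd χ x ^ (i - k) * χ x ^ k)) *
            gg χ (fun y => ff w u (-a) (-y)) k := by
        rw [h1]; ring
      rw [h4]
      refine (V.map_sub _ _).trans (max_le ?_ ?_)
      · rw [map_mul, hc, one_mul, map_pow]
        calc V (Dd χ (-a)) ^ i ≤ (ε * R) ^ i := pow_le_pow_left₀ zero_le (hs.Dε _) i
          _ ≤ (1 * R) ^ i := pow_le_pow_left₀ zero_le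
              (mul_le_mul_of_nonneg_right hs.ε1.le zero_le) i
          _ = R ^ i := by rw [one_mul]
      · apply Valuation.map_sum_le
        intro k hk
        rw [Finset.mem_range] at hk
        have h5 : V (∑ x, ff w u a x * (Dd χ x ^ (i - k) * χ x ^ k)) ≤ M * R ^ (i - k) := by
          apply PP_le_one (hs.le a)
          have h6 := G_mul (G_pow (G_x (V := V) (R := R) (χ := χ)) (i - k))
            (G_pow1 (G_chix (V := V) (χ := χ) hs.R1.le) k)
          rw [mul_one] at h6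
          convert h6 using 1
          funext x y
          simp only [Pi.mul_apply, Pi.pow_apply]
        rw [map_mul, map_mul]
        calc V (i.choose k : L) * V (∑ x, ff w u a x * (Dd χ x ^ (i - k) * χ x ^ k)) *
              V (gg χ (fun y => ff w u (-a) (-y)) k)
            ≤ 1 * (M * R ^ (i - k)) * (M⁻¹ * R ^ k) :=
              mul_le_mul_of_nonneg' (mul_le_mul_of_nonneg' (V_nat_le V _) h5 zero_le zero_le)
                (ih k hk) zero_le zero_le
          _ = R ^ i := by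
              rw [one_mul, mul_mul_mul_comm, mul_inv_cancel₀ hM0.ne', one_mul, ← pow_add]
              congr 1; omega
    rw [map_mul, hM] at h3
    rw [inv_mul_eq_div, le_div_iff₀ hM0, mul_comm]
    exact h3

theorem inv_bound' (hs : Slope V R ε M χ w u j) (hS : Sic χ w u) (hc : V ((p : L) + 1)⁻¹ = 1)
    (a : ZMod p) (ha : a ≠ 0) (hM : ∀ n : ℕ, V (ov χ w u a n) = M) (i : ℕ) :
    V (gg χ (ff w u (-a)) i) ≤ M⁻¹ * R ^ i := by
  have h1 : (fun x _ => Dd χ (-x) ^ i : ZMod p → ZMod p → L) ∈ G V R χ (R ^ i) := by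
    have := G_pow (G_negx (V := V) (χ := χ) hs.R1.le) i
    convert this using 1
    funext x y
    simp only [Pi.pow_apply]
  have h2 := PP_le_one (inv_bound hs hS hc a ha hM) h1
  convert h2 using 2
  rw [gg, ← Equiv.sum_comp (Equiv.neg (ZMod p))]
  simp only [Equiv.neg_apply]

/-- **The first case is impossible.** -/
theorem caseA_false [CharZero L] (hp2 : p ≠ 2) (hχ : χ.IsPrimitive)
    (hVn : ∀ n : ℕ, ¬ p ∣ n → V (n : L) = 1) (hs : Slope V R ε M χ w u j)
    (hj : p - 1 ≤ 2 * j) (hjp : j ≤ p - 1) (hS : Sic χ w u) (hc : V ((p : L) + 1)⁻¹ = 1)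
    (a : ZMod p) (ha : a ≠ 0) (hM : ∀ n : ℕ, V (ov χ w u a n) = M) (hM1 : 1 < M) : False := by
  have hM0 : 0 < M := lt_of_lt_of_le zero_lt_one hs.M1
  have h1 := inv_bound' hs hS hc a ha hM j
  rw [caseA hp2 hχ hVn hs hj hjp] at h1
  have h2 : M ≤ M⁻¹ := le_of_mul_le_mul_right h1 (pow_pos hs.R0 _)
  have h3 : M⁻¹ < 1 := inv_lt_one_of_one_lt₀ hM1
  exact absurd (h2.trans_lt h3) (not_lt.mpr hM1.le)

/-- the identity obtained by exchanging the first vectors -/
theorem sym2 (w u : ZMod p → L) (Θ : ZMod p → ZMod p → L) (z : ZMod p) :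
    ∑ a, PP (ff w u a) (ff w u (z - a)) (fun x y => Θ (x + a) y)
      = ∑ a, PP (ff w u a) (ff w u (z - a)) (fun x y => Θ (x + a) x) := by
  have h : ∀ Ψ : ZMod p → ZMod p → ZMod p → L,
      ∑ a, PP (ff w u a) (ff w u (z - a)) (fun x y => Ψ (x + a) x y)
      = ∑ x, ∑ y, ∑ X, w x * w y * u X * u (x + y + z - X) * Ψ X x y := by
    intro Ψ
    simp only [PP]
    rw [Finset.sum_comm]
    apply Finset.sum_congr rfl
    intro x _
    rw [Finset.sum_comm]
    apply Finset.sum_congr rfl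
    intro y _
    rw [← Equiv.sum_comp (Equiv.subRight x)]
    apply Finset.sum_congr rfl
    intro X _
    simp only [Equiv.subRight_apply, ff]
    have e1 : x + (X - x) = X := by ring
    have e2 : y + (z - (X - x)) = x + y + z - X := by ring
    rw [e1, e2]
    ring
  rw [h (fun X x y => Θ X y), h (fun X x y => Θ X x), Finset.sum_comm]
  apply Finset.sum_congr rfl
  intro y _
  apply Finset.sum_congr rfl
  intro x _
  apply Finset.sum_congr rfl
  intro X _
  have e1 : x + y + z - X = y + x + z - X := by ring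
  rw [e1]
  ring

theorem pow_lt_top (hs : Slope V R ε M χ w u j) : M * M * (ε * R) ^ (2 * j) < (M * R ^ j) ^ 2 := by
  refine lt_of_le_of_lt ?_ (eps_lt hs)
  apply mul_le_mul_of_nonneg_left _ zero_le
  rw [mul_pow]
  apply mul_le_mul_of_nonneg_right _ zero_le
  calc ε ^ (2 * j) ≤ ε ^ 1 := pow_le_pow_of_le_one zero_le hs.ε1.le (by have := hs.j1; omega)
    _ = ε := pow_one _

/-- **Second case, first identity.** -/
theorem caseB1 (hVn : ∀ n : ℕ, ¬ p ∣ n → V (n : L) = 1)
    (hs : Slope V R ε M χ w u j) (hj : 2 * j < p - 1) (z : ZMod p) :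
    V (∑ a, gg χ (ff w u a) j * gg χ (ff w u (z - a)) j) < (M * R ^ j) ^ 2 := by
  have hM : 0 < M := lt_of_lt_of_le zero_lt_one hs.M1
  have hpos : 0 < (M * R ^ j) ^ 2 := pow_pos (mul_pos hM (pow_pos hs.R0 _)) _
  have hch : V (((2 * j).choose j : L) * (-1) ^ (2 * j - j)) = 1 := by
    rw [map_mul, map_pow, Valuation.map_neg, map_one, one_pow, mul_one]
    apply hVn
    intro h
    have h1 := SP.choose_ne (p := p) (k := ZMod p) (2 * j) j (by omega) (by omega)
    rw [← ZMod.natCast_eq_zero_iff] at h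
    exact h1 h
  have h1 := sym2 w u (fun X Y => (χ X - χ Y) ^ (2 * j)) z
  have h2 : ∀ a, V (PP (ff w u a) (ff w u (z - a)) (fun x y => (χ (x + a) - χ y) ^ (2 * j))
      - (((2 * j).choose j : L) * (-1) ^ (2 * j - j)) *
        (gg χ (ff w u a) j * gg χ (ff w u (z - a)) j)) < (M * R ^ j) ^ 2 := by
    intro a
    apply leading' hs (2 * j) 0 (by omega) (by omega)
    have h3 := G_diff hs.ε1.le (G_DxDy (V := V) (R := R) (χ := χ)) (G_shift hs a) (2 * j)
    rw [add_sub_cancel] at h3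
    convert h3 using 1
    funext x y
    simp only [Pi.sub_apply, Pi.pow_apply, pow_zero, one_mul]
  have h3 : V (∑ a, PP (ff w u a) (ff w u (z - a)) (fun x y => (χ (x + a) - χ x) ^ (2 * j)))
      < (M * R ^ j) ^ 2 := by
    apply Valuation.map_sum_lt _ hpos.ne'
    intro a _
    refine lt_of_le_of_lt ?_ (pow_lt_top hs)
    apply PP_le (hs.le a) (hs.le (z - a))
    have h4 := G_mul (G_const (V := V) (R := R) (χ := χ) (Dd χ a ^ (2 * j)) (ρ := (ε * R) ^ (2 * j))
      (by rw [map_pow]; exact pow_le_pow_left₀ zero_le (hs.Dε _) _))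
      (G_pow1 (G_chix (V := V) (χ := χ) hs.R1.le) (2 * j))
    rw [mul_one] at h4
    convert h4 using 1
    funext x y
    simp only [Pi.mul_apply, Pi.pow_apply]
    rw [← mul_pow, Dd, AddChar.map_add_eq_mul]
    congr 1; ring
  rw [← h1] at h3
  have h4 : V (∑ a, (PP (ff w u a) (ff w u (z - a)) (fun x y => (χ (x + a) - χ y) ^ (2 * j))
      - (((2 * j).choose j : L) * (-1) ^ (2 * j - j)) *
        (gg χ (ff w u a) j * gg χ (ff w u (z - a)) j))) < (M * R ^ j) ^ 2 :=
    Valuation.map_sum_lt _ hpos.ne' (fun a _ => h2 a)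
  rw [Finset.sum_sub_distrib, ← Finset.mul_sum] at h4
  have h5 := V.map_sub_lt h3 h4
  rw [sub_sub_cancel, map_mul, hch, one_mul] at h5
  exact h5

theorem G_delta (hs : Slope V R ε M χ w u j) :
    (fun x y => χ (x - y) - 1 : ZMod p → ZMod p → L) - (fun x y => Dd χ x - Dd χ y)
      ∈ G V R χ (ε * R) := by
  have hRR : R * R ≤ ε * R := mul_le_mul_of_nonneg_right hs.Rε zero_le
  have h1 := G_mono hRR (G_mul (G_x (V := V) (R := R) (χ := χ)) (G_negy (V := V) (χ := χ) hs.R1.le))
  have h2 := G_mono hRR (G_mul (G_y (V := V) (R := R) (χ := χ)) (G_negy (V := V) (χ := χ) hs.R1.le))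
  convert G_sub h1 h2 using 1
  funext x y
  simp only [Pi.sub_apply, Pi.mul_apply, Dd, sub_eq_add_neg x y, AddChar.map_add_eq_mul]
  have h3 : χ y * χ (-y) = 1 := by rw [← AddChar.map_add_eq_mul, add_neg_cancel, AddChar.map_zero_eq_one]
  linear_combination h3

/-- **Second case, second identity.** -/
theorem caseB2 (hVn : ∀ n : ℕ, ¬ p ∣ n → V (n : L) = 1)
    (hs : Slope V R ε M χ w u j) (hj : 2 * j < p - 1) (hS : Sic χ w u)
    (hc : V ((p : L) + 1)⁻¹ = 1) (a : ZMod p) :
    V (gg χ (ff w u a) j * gg χ (ff w u (-a)) j) < (M * R ^ j) ^ 2 := by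
  have hM : 0 < M := lt_of_lt_of_le zero_lt_one hs.M1
  have hpos : 0 < (M * R ^ j) ^ 2 := pow_pos (mul_pos hM (pow_pos hs.R0 _)) _
  have hj1 := hs.j1
  have hch : V (((2 * j).choose j : L) * (-1) ^ (2 * j - j)) = 1 := by
    rw [map_mul, map_pow, Valuation.map_neg, map_one, one_pow, mul_one]
    apply hVn
    intro h
    have h1 := SP.choose_ne (p := p) (k := ZMod p) (2 * j) j (by omega) (by omega)
    rw [← ZMod.natCast_eq_zero_iff] at h
    exact h1 h
  have h1 : V (PP (ff w u a) (ff w u (-a)) (fun x y => (χ (x - y) - 1) ^ (2 * j))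
      - (((2 * j).choose j : L) * (-1) ^ (2 * j - j)) *
        (gg χ (ff w u a) j * gg χ (ff w u (-a)) j)) < (M * R ^ j) ^ 2 := by
    apply leading' hs (2 * j) 0 (by omega) (by omega)
    have h3 := G_diff hs.ε1.le (G_DxDy (V := V) (R := R) (χ := χ)) (G_delta hs) (2 * j)
    rw [add_sub_cancel] at h3
    convert h3 using 1
    funext x y
    simp only [Pi.sub_apply, Pi.pow_apply, pow_zero, one_mul]
  have hle : (ε * R) ^ (2 * j) ≤ M * M * (ε * R) ^ (2 * j) := by
    calc (ε * R) ^ (2 * j) = 1 * 1 * (ε * R) ^ (2 * j) := by rw [one_mul, one_mul]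
      _ ≤ _ := mul_le_mul_of_nonneg_right (mul_le_mul_of_nonneg' hs.M1 hs.M1 zero_le zero_le) zero_le
  have h2 : V (PP (ff w u a) (ff w u (-a)) (fun x y => (χ (x - y) - 1) ^ (2 * j)))
      < (M * R ^ j) ^ 2 := by
    refine lt_of_le_of_lt (le_trans ?_ hle) (pow_lt_top hs)
    by_cases ha : a = 0
    · rw [ha, PP_delta_zero hS (2 * j) (by omega) (by omega), map_mul, map_pow, Valuation.map_neg,
        map_one, one_pow, one_mul]
      have e1 : (1 : L) - ((p : L) + 1)⁻¹ = (p : L) * ((p : L) + 1)⁻¹ := by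
        have h3 : ((p : L) + 1) ≠ 0 := by
          intro h4
          rw [h4, inv_zero, map_zero] at hc
          exact zero_ne_one hc
        field_simp
        ring
      rw [e1, map_mul, hc, mul_one]
      refine hs.pε.trans ?_
      apply pow_le_pow_of_le_one zero_le _ hj.le
      calc ε * R ≤ 1 * 1 := mul_le_mul_of_nonneg' hs.ε1.le hs.R1.le zero_le zero_le
        _ = 1 := one_mul _
    · rw [PP_delta_ne hS a ha, map_mul, hc, one_mul, map_pow]
      exact pow_le_pow_left₀ zero_le (hs.Dε _) _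
  have h5 := V.map_sub_lt h2 h1
  rw [sub_sub_cancel, map_mul, hch, one_mul] at h5
  exact h5

end Pool.Agent.H990.SU
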