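import Pool.Agent.H990.SU.Good
import Pool.Agent.H990.SU.Levels
import Pool.Agent.H990.SP.Frames

/-!
# The overlaps are units over `p`
-/

set_option autoImplicit false
set_option linter.unusedSectionVars false
set_option linter.unusedVariables false

namespace Pool.Agent.H990.SU

open Finset Pool.Agent.H207.WH Pool.Agent.H990.SF

open Classical in
/-- annihilators in characteristic `p` -/
theorem ann_p {p : ℕ} [Fact p.Prime] {k : Type*} [Field k] [CharP k p] (f g : ZMod p → k)
    (hf : ∃ x, f x ≠ 0) (hg : ∃ x, g x ≠ 0) (h : ∀ j, ∑ x, f x * g (x + j) = 0) :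
    p + 2 ≤ (univ.filter (fun x => f x ≠ 0)).card + (univ.filter (fun x => g x ≠ 0)).card := by
  have hp : p.Prime := Fact.out
  obtain ⟨P, hPd, hP⟩ := SP.exists_poly f
  obtain ⟨Q, hQd, hQ⟩ := SP.exists_poly g
  have hP0 : P ≠ 0 := by
    rintro rfl
    obtain ⟨x, hx⟩ := hf
    exact hx (by rw [← hP, Polynomial.eval_zero])
  have hQ0 : Q ≠ 0 := by
    rintro rfl
    obtain ⟨x, hx⟩ := hg
    exact hx (by rw [← hQ, Polynomial.eval_zero])
  have h1 := SP.deg_lt P Q hP0 hQ0 hPd hQd (by
    intro a
    simp_rw [hP, hQ]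
    exact h a)
  have h2 := SP.zeros_le P hP0 (univ.filter (fun x => f x = 0)) (by
    intro x hx
    rw [hP]
    exact (Finset.mem_filter.mp hx).2)
  have h3 := SP.zeros_le Q hQ0 (univ.filter (fun x => g x = 0)) (by
    intro x hx
    rw [hQ]
    exact (Finset.mem_filter.mp hx).2)
  have h4 := Finset.card_filter_add_card_filter_not (s := (univ : Finset (ZMod p))) (fun x => f x = 0)
  have h5 := Finset.card_filter_add_card_filter_not (s := (univ : Finset (ZMod p))) (fun x => g x = 0)
  rw [Finset.card_univ, ZMod.card] at h4 h5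
  have := hp.two_le
  simp only [ne_eq]
  omega

variable {L : Type*} [Field L] [CharZero L] {B : ValuationSubring L} {p : ℕ} [Fact p.Prime]

open Classical in
/-- the lemma on annihilators, for functions with values in a valued field -/
theorem ann_val (hB : (p : L) ∈ B.nonunits) {χ : AddChar (ZMod p) L} (hχ : χ.IsPrimitive)
    (f g : ZMod p → L)
    (M N : B.ValueGroup) (hM : ∀ x, B.valuation (f x) ≤ M) (hN : ∀ x, B.valuation (g x) ≤ N)
    (hf : ∃ x, B.valuation (f x) = M) (hg : ∃ x, B.valuation (g x) = N) (hMN : M * N ≠ 0)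
    (h : ∀ j, B.valuation (∑ x, f x * g (x + j)) < M * N) :
    p + 2 ≤ (univ.filter (fun x => B.valuation (f x) = M)).card +
      (univ.filter (fun x => B.valuation (g x) = N)).card := by
  have := char_res B hB
  have hM0 : M ≠ 0 := left_ne_zero_of_mul hMN
  have hN0 : N ≠ 0 := right_ne_zero_of_mul hMN
  obtain ⟨x1, hx1⟩ := hf
  obtain ⟨y1, hy1⟩ := hg
  set c := f x1 with hc
  set c' := g y1 with hc'
  have hc0 : c ≠ 0 := by intro h0; rw [h0, map_zero] at hx1; exact hM0 hx1.symm
  have hc0' : c' ≠ 0 := by intro h0; rw [h0, map_zero] at hy1; exact hN0 hy1.symm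
  have vf : ∀ x, B.valuation (f x / c) ≤ 1 := by
    intro x
    rw [map_div₀, hx1]
    exact div_le_one_of_le₀ (hM x) zero_le
  have vg : ∀ x, B.valuation (g x / c') ≤ 1 := by
    intro x
    rw [map_div₀, hy1]
    exact div_le_one_of_le₀ (hN x) zero_le
  have mf : ∀ x, f x / c ∈ B := fun x => (B.valuation_le_one_iff _).mp (vf x)
  have mg : ∀ x, g x / c' ∈ B := fun x => (B.valuation_le_one_iff _).mp (vg x)
  have ef : ∀ x, rs B (f x / c) ≠ 0 ↔ B.valuation (f x) = M := by
    intro x
    rw [rs_ne_zero_val B (mf x), map_div₀, hx1, div_eq_one_iff_eq hM0]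
  have eg : ∀ x, rs B (g x / c') ≠ 0 ↔ B.valuation (g x) = N := by
    intro x
    rw [rs_ne_zero_val B (mg x), map_div₀, hy1, div_eq_one_iff_eq hN0]
  have key := ann_p (fun x => rs B (f x / c)) (fun x => rs B (g x / c'))
    ⟨x1, (ef x1).mpr hx1⟩ ⟨y1, (eg y1).mpr hy1⟩ (by
      intro j
      have h1 : ∀ x, rs B (f x / c) * rs B (g (x + j) / c')
          = rs B ((f x * g (x + j)) / (c * c')) := by
        intro x
        rw [← rs_mul B (mf x) (mg _)]
        congr 1
        field_simp
      simp_rw [h1]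
      rw [← rs_sum B _ _ (fun x _ => by
        have := B.mul_mem _ _ (mf x) (mg (x + j))
        rwa [div_mul_div_comm] at this), ← Finset.sum_div]
      have h2 : B.valuation ((∑ x, f x * g (x + j)) / (c * c')) < 1 := by
        rw [map_div₀, map_mul, hx1, hy1, div_lt_one₀ (zero_lt_iff.mpr hMN)]
        exact h j
      rw [rs_eq_zero_val B ((B.valuation_le_one_iff _).mp h2.le)]
      exact h2)
  simp only [ef, eg] at key
  exact key

section main

variable {χ : AddChar (ZMod p) L} {w u : ZMod p → L}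

theorem flatV (hB : (p : L) ∈ B.nonunits) (hS : Sic χ w u) (a b : ZMod p) (h : ¬ (a = 0 ∧ b = 0)) :
    B.valuation (ov χ w u a b) * B.valuation (ov χ w u (-a) (-b)) = 1 := by
  rw [← map_mul, hS.flat a b h, map_mul, chi_val B χ, SP.val_c hB, one_mul]

theorem N_ge (hB : (p : L) ∈ B.nonunits) (hχ : χ.IsPrimitive) (hS : Sic χ w u) (a : ZMod p) :
    1 ≤ Nf B w u a * Nf B w u (-a) := by
  by_cases ha : a = 0
  · have h1 := ov_le B χ w u 0 0
    rw [hS.zero, map_one] at h1
    rw [ha, neg_zero]
    exact one_le_mul_of_one_le_of_one_le h1 h1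
  · rw [← flatV hB hS a 0 (fun h => ha h.1)]
    exact mul_le_mul_of_nonneg' (ov_le B χ w u a 0) (ov_le B χ w u (-a) (-0)) zero_le zero_le

/-- the main diagonal is bounded -/
theorem N_zero_le (hB : (p : L) ∈ B.nonunits) (hχ : χ.IsPrimitive) (hS : Sic χ w u) (a0 : ZMod p)
    (h1 : Nf B w u a0 * Nf B w u (-a0) = 1) : Nf B w u 0 ≤ 1 := by
  classical
  by_contra hcon
  push Not at hcon
  have h2 := ann_val hB hχ (fun x => w x * u (x + 0)) (fun x => w x * u (x + 0))
    (Nf B w u 0) (Nf B w u 0) (N_le B w u 0) (N_le B w u 0) (N_att B w u 0) (N_att B w u 0)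
    (mul_ne_zero (N_ne hS 0) (N_ne hS 0)) (by
      intro j
      have h3 := four_terms_zero hχ hS j
      show B.valuation (∑ x, (w x * u (x + 0)) * (w (x + j) * u (x + j + 0))) < _
      rw [h3]
      have h4 : B.valuation (if j = 0 then 2 * ((p : L) + 1)⁻¹ else ((p : L) + 1)⁻¹) ≤ 1 := by
        split_ifs
        · exact SP.val_two_c hB
        · exact (SP.val_c hB).le
      exact lt_of_le_of_lt h4 (one_lt_mul_of_lt_of_le hcon hcon.le))
  have h2' := lt_of_lt_of_le (by omega : p < p + 2) h2
  obtain ⟨x, hx, hxa⟩ := pigeon _ _ h2' a0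
  rw [Finset.mem_filter] at hx hxa
  have h3 : B.valuation ((w x * u (x + 0)) * (w (x + a0) * u (x + a0 + 0)))
      = Nf B w u 0 * Nf B w u 0 := by
    rw [map_mul, hx.2, hxa.2]
  rw [prod_zero, map_mul] at h3
  have h4 : B.valuation (w x * u (x + a0)) * B.valuation (w (x + a0) * u (x + a0 + -a0))
      ≤ Nf B w u a0 * Nf B w u (-a0) :=
    mul_le_mul_of_nonneg' (N_le B w u a0 x) (N_le B w u (-a0) (x + a0)) zero_le zero_le
  rw [h1, h3] at h4
  exact absurd h4 (not_le.mpr (one_lt_mul_of_lt_of_le hcon hcon.le))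

theorem N_mul (hB : (p : L) ∈ B.nonunits) (hχ : χ.IsPrimitive) (hS : Sic χ w u)
    (h0 : Nf B w u 0 ≤ 1) (a : ZMod p) : Nf B w u a * Nf B w u (-a) = 1 := by
  classical
  apply le_antisymm _ (N_ge hB hχ hS a)
  by_cases ha : a = 0
  · rw [ha, neg_zero]
    exact mul_le_one' h0 h0
  by_contra hcon
  push Not at hcon
  have h2 := ann_val hB hχ (fun x => w x * u (x + a)) (fun x => w x * u (x + (-a)))
    (Nf B w u a) (Nf B w u (-a)) (N_le B w u a) (N_le B w u (-a)) (N_att B w u a)
    (N_att B w u (-a)) (mul_ne_zero (N_ne hS a) (N_ne hS (-a))) (by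
      intro j
      have h3 := four_terms hχ hS a j ha
      show B.valuation (∑ x, (w x * u (x + a)) * (w (x + j) * u (x + j + (-a)))) < _
      rw [h3]
      apply lt_of_le_of_lt _ hcon
      split_ifs
      · exact (SP.val_c hB).le
      · rw [map_zero]; exact zero_le)
  have h2' := lt_of_lt_of_le (by omega : p < p + 2) h2
  obtain ⟨x, hx, hxa⟩ := pigeon _ _ h2' a
  rw [Finset.mem_filter] at hx hxa
  have h3 : B.valuation ((w x * u (x + 0)) * (w (x + a) * u (x + a + 0)))
      = Nf B w u a * Nf B w u (-a) := by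
    rw [prod_zero, map_mul, hx.2, hxa.2]
  have h4 : B.valuation ((w x * u (x + 0)) * (w (x + a) * u (x + a + 0))) ≤ 1 := by
    rw [map_mul]
    exact mul_le_one' ((N_le B w u 0 x).trans h0) ((N_le B w u 0 (x + a)).trans h0)
  rw [h3] at h4
  exact absurd h4 (not_le.mpr hcon)

/-- half of the level argument -/
theorem level_le (hB : (p : L) ∈ B.nonunits) (hχ : χ.IsPrimitive) (hS : Sic χ w u)
    (hN : ∀ a, Nf B w u a * Nf B w u (-a) = 1) (hN0 : Nf B w u 0 = 1) (a x y : ZMod p)
    (ha : a ≠ 0) (hx : B.valuation (w x * u (x + a)) = Nf B w u a)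
    (hy : B.valuation (w y * u (y + (-a))) = Nf B w u (-a)) :
    B.valuation (w y) * B.valuation (u (x + a)) ≤ 1 := by
  classical
  set E := univ.filter (fun x => B.valuation (w x * u (x + a)) = Nf B w u a) with hE
  set E' := univ.filter (fun y => B.valuation (w y * u (y + (-a))) = Nf B w u (-a)) with hE'
  have hxE : x ∈ E := by rw [hE, Finset.mem_filter]; exact ⟨mem_univ _, hx⟩
  have hyE : y ∈ E' := by rw [hE', Finset.mem_filter]; exact ⟨mem_univ _, hy⟩
  obtain ⟨xs, hxs, hxm⟩ := Finset.exists_max_image E (fun x => B.valuation (u (x + a))) ⟨x, hxE⟩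
  obtain ⟨ys, hys, hym⟩ := Finset.exists_max_image E' (fun y => B.valuation (w y)) ⟨y, hyE⟩
  have hne : Nf B w u a * Nf B w u (-a) ≠ 0 := by rw [hN]; exact one_ne_zero
  suffices hkey : B.valuation (w ys) * B.valuation (u (xs + a)) = 1 by
    rw [← hkey]
    exact mul_le_mul_of_nonneg' (hym y hyE) (hxm x hxE) zero_le zero_le
  -- it suffices to find a common element
  suffices hs : ∃ s, s ∈ E' ∧ B.valuation (w s) = B.valuation (w ys) ∧ s - a ∈ E ∧
      B.valuation (u s) = B.valuation (u (xs + a)) by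
    obtain ⟨s, hs1, hs2, hs3, hs4⟩ := hs
    rw [hE', Finset.mem_filter] at hs1
    rw [hE, Finset.mem_filter] at hs3
    have h1 := (top_swap hN a (s - a) s hs3.2 hs1.2).2
    have e1 : s - a - (s - a) = 0 := by ring
    rw [e1, neg_zero, add_zero, hN0, map_mul, hs2, hs4] at h1
    exact h1
  by_contra hcon
  push Not at hcon
  let f : ZMod p → L := fun x => if x ∈ E ∧ B.valuation (u (x + a)) = B.valuation (u (xs + a))
    then w x * u (x + a) else 0
  let g : ZMod p → L := fun y => if y ∈ E' ∧ B.valuation (w y) = B.valuation (w ys)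
    then w y * u (y + (-a)) else 0
  have hf1 : ∀ x, B.valuation (f x) ≤ Nf B w u a := by
    intro x
    show B.valuation (if _ then _ else _) ≤ _
    split_ifs
    · exact N_le B w u a x
    · rw [map_zero]; exact zero_le
  have hg1 : ∀ x, B.valuation (g x) ≤ Nf B w u (-a) := by
    intro x
    show B.valuation (if _ then _ else _) ≤ _
    split_ifs
    · exact N_le B w u (-a) x
    · rw [map_zero]; exact zero_le
  have hf2 : ∀ x, B.valuation (f x) = Nf B w u a →
      x ∈ E ∧ B.valuation (u (x + a)) = B.valuation (u (xs + a)) := by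
    intro x hx
    by_contra h
    have h1 : f x = 0 := if_neg h
    rw [h1, map_zero] at hx
    exact left_ne_zero_of_mul hne hx.symm
  have hg2 : ∀ x, B.valuation (g x) = Nf B w u (-a) →
      x ∈ E' ∧ B.valuation (w x) = B.valuation (w ys) := by
    intro x hx
    by_contra h
    have h1 : g x = 0 := if_neg h
    rw [h1, map_zero] at hx
    exact right_ne_zero_of_mul hne hx.symm
  have hf3 : ∃ x, B.valuation (f x) = Nf B w u a := by
    refine ⟨xs, ?_⟩
    have h1 : f xs = w xs * u (xs + a) := if_pos ⟨hxs, rfl⟩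
    rw [h1]
    rw [hE, Finset.mem_filter] at hxs
    exact hxs.2
  have hg3 : ∃ x, B.valuation (g x) = Nf B w u (-a) := by
    refine ⟨ys, ?_⟩
    have h1 : g ys = w ys * u (ys + (-a)) := if_pos ⟨hys, rfl⟩
    rw [h1]
    rw [hE', Finset.mem_filter] at hys
    exact hys.2
  have hcorr : ∀ j, B.valuation (∑ x, f x * g (x + j)) < Nf B w u a * Nf B w u (-a) := by
    intro j
    by_cases hpair : ∃ x1, (x1 ∈ E ∧ B.valuation (u (x1 + a)) = B.valuation (u (xs + a))) ∧
        (x1 + j ∈ E' ∧ B.valuation (w (x1 + j)) = B.valuation (w ys))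
    · obtain ⟨x1, ⟨h1, h2⟩, h3, h4⟩ := hpair
      have hja : j ≠ a := by
        intro hja
        rw [hja] at h3 h4
        apply hcon (x1 + a) h3 h4
        · rwa [add_sub_cancel_right]
        · exact h2
      have h5 := four_terms hχ hS a j ha
      rw [if_neg hja] at h5
      have h6 : ∑ x, f x * g (x + j) = -∑ x, ((w x * u (x + a)) * (w (x + j) * u (x + j + (-a)))
          - f x * g (x + j)) := by
        rw [Finset.sum_sub_distrib, h5]; ring
      rw [h6, Valuation.map_neg]
      apply Valuation.map_sum_lt _ hne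
      intro x _
      by_cases hx2 : (x ∈ E ∧ B.valuation (u (x + a)) = B.valuation (u (xs + a))) ∧
        (x + j ∈ E' ∧ B.valuation (w (x + j)) = B.valuation (w ys))
      · have e1 : f x = w x * u (x + a) := if_pos hx2.1
        have e2 : g (x + j) = w (x + j) * u (x + j + (-a)) := if_pos hx2.2
        rw [e1, e2, sub_self, map_zero]
        exact zero_lt_iff.mpr hne
      · have e1 : f x * g (x + j) = 0 := by
          by_cases hx3 : x ∈ E ∧ B.valuation (u (x + a)) = B.valuation (u (xs + a))
          · have e2 : g (x + j) = 0 := if_neg (fun h => hx2 ⟨hx3, h⟩)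
            rw [e2, mul_zero]
          · have e2 : f x = 0 := if_neg hx3
            rw [e2, zero_mul]
        rw [e1, sub_zero]
        apply lt_of_le_of_ne
        · rw [map_mul]
          exact mul_le_mul_of_nonneg' (N_le B w u a x) (N_le B w u (-a) (x + j)) zero_le zero_le
        · intro heq
          rw [map_mul] at heq
          obtain ⟨h7, h8⟩ := eq_of_mul (N_le B w u a x) (N_le B w u (-a) (x + j)) heq hne
          apply hx2
          have hxE2 : x ∈ E := by rw [hE, Finset.mem_filter]; exact ⟨mem_univ _, h7⟩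
          have hyE2 : x + j ∈ E' := by rw [hE', Finset.mem_filter]; exact ⟨mem_univ _, h8⟩
          have h9 := (top_swap hN a x (x + j) h7 h8).2
          have h10 : B.valuation (w x1 * u (x1 + a)) = Nf B w u a := by
            rw [hE, Finset.mem_filter] at h1; exact h1.2
          have h11 : B.valuation (w (x1 + j) * u (x1 + j + (-a))) = Nf B w u (-a) := by
            rw [hE', Finset.mem_filter] at h3; exact h3.2
          have h12 := (top_swap hN a x1 (x1 + j) h10 h11).2
          have e3 : x + j - a - x = x1 + j - a - x1 := by ring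
          rw [e3, ← h12, map_mul, map_mul] at h9
          have e4 : x + j + (-(x1 + j - a - x1)) = x + a := by ring
          have e5 : x1 + j + (-(x1 + j - a - x1)) = x1 + a := by ring
          rw [e4, e5, h4, h2] at h9
          have h13 : B.valuation (w ys) * B.valuation (u (xs + a)) ≠ 0 := by
            rw [← h4, ← h2, ← map_mul]
            intro h14
            rw [map_mul, e5.symm, ← map_mul, h12] at h14
            exact N_ne hS _ h14
          obtain ⟨h15, h16⟩ := eq_of_mul (hym _ hyE2) (hxm _ hxE2) h9 h13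
          exact ⟨⟨hxE2, h16⟩, hyE2, h15⟩
    · push Not at hpair
      have h1 : ∑ x, f x * g (x + j) = 0 := by
        apply Finset.sum_eq_zero
        intro x _
        by_cases hx3 : x ∈ E ∧ B.valuation (u (x + a)) = B.valuation (u (xs + a))
        · have e2 : g (x + j) = 0 := if_neg (fun h => hpair x hx3 h.1 h.2)
          rw [e2, mul_zero]
        · have e2 : f x = 0 := if_neg hx3
          rw [e2, zero_mul]
      rw [h1, map_zero]
      exact zero_lt_iff.mpr hne
  have h2 := ann_val hB hχ f g _ _ hf1 hg1 hf3 hg3 hne hcorr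
  have h2' := lt_of_lt_of_le (by omega : p < p + 2) h2
  obtain ⟨z, hz, hza⟩ := pigeon _ _ h2' a
  rw [Finset.mem_filter] at hz hza
  obtain ⟨h3, h4⟩ := hf2 z hz.2
  obtain ⟨h5, h6⟩ := hg2 (z + a) hza.2
  exact hcon (z + a) h5 h6 (by rwa [add_sub_cancel_right]) h4

/-- **Levels.** -/
theorem level_eq (hB : (p : L) ∈ B.nonunits) (hχ : χ.IsPrimitive) (hS : Sic χ w u)
    (hN : ∀ a, Nf B w u a * Nf B w u (-a) = 1) (hN0 : Nf B w u 0 = 1) (a x y : ZMod p)
    (ha : a ≠ 0) (hx : B.valuation (w x * u (x + a)) = Nf B w u a)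
    (hy : B.valuation (w y * u (y + (-a))) = Nf B w u (-a)) :
    B.valuation (w y) * B.valuation (u (x + a)) = 1 ∧
      B.valuation (w x) * B.valuation (u (y + (-a))) = 1 := by
  have h1 := level_le hB hχ hS hN hN0 a x y ha hx hy
  have h2 := level_le hB hχ hS hN hN0 (-a) y x (neg_ne_zero.mpr ha) hy (by rwa [neg_neg])
  have h3 : B.valuation (w y) * B.valuation (u (x + a)) *
      (B.valuation (w x) * B.valuation (u (y + (-a)))) = 1 * 1 := by
    rw [one_mul, ← hN a, ← hx, ← hy, map_mul, map_mul]
    ac_rfl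
  exact eq_of_mul h1 h2 h3 (by rw [one_mul]; exact one_ne_zero)

/-- only the diagonals of value one have more than one top entry -/
theorem single (hB : (p : L) ∈ B.nonunits) (hχ : χ.IsPrimitive) (hS : Sic χ w u)
    (hN : ∀ a, Nf B w u a * Nf B w u (-a) = 1) (hN0 : Nf B w u 0 = 1) (a x y : ZMod p)
    (ha : a ≠ 0) (hx : B.valuation (w x * u (x + a)) = Nf B w u a)
    (hy : B.valuation (w y * u (y + (-a))) = Nf B w u (-a)) (hxy : y ≠ x + a) :
    Nf B w u a = 1 := by
  obtain ⟨h1, h2⟩ := top_swap hN a x y hx hy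
  have hd : y - a - x ≠ 0 := fun h => hxy (by linear_combination h)
  have h3 := (level_eq hB hχ hS hN hN0 (y - a - x) x y hd h1 h2).1
  have e1 : x + (y - a - x) = y + (-a) := by ring
  rw [e1, ← map_mul, hy] at h3
  have h4 := hN a
  rwa [h3, mul_one] at h4


/-- **The unit theorem in a good frame.** -/
theorem unit_frame (hp5 : 5 ≤ p) (hex : ¬ Exceptional p) (hB : (p : L) ∈ B.nonunits)
    (hχ : χ.IsPrimitive) (hS : Sic χ w u) (m0 : L) (hm1 : 1 < B.valuation m0)
    (hent : ∀ x y, B.valuation (w x * u y) ≤ B.valuation m0) (a0 : ZMod p)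
    (hatt : ∀ b, B.valuation (ov χ w u a0 b) = B.valuation m0) : False := by
  classical
  have hch := char_res B hB
  have hp : p.Prime := Fact.out
  have hp2 : p ≠ 2 := by omega
  have hm0 : m0 ≠ 0 := by
    intro h; rw [h, map_zero] at hm1; exact not_lt_of_ge zero_le hm1
  have hM0 : 0 < B.valuation m0 := zero_lt_one.trans hm1
  have ha0 : a0 ≠ 0 := by
    intro h
    have h1 := hatt 0
    rw [h, hS.zero, map_one] at h1
    exact hm1.ne h1
  -- the values on the diagonals `a0` and `-a0`
  have hNa0 : Nf B w u a0 = B.valuation m0 := by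
    apply le_antisymm
    · obtain ⟨x, hx⟩ := N_att B w u a0
      rw [← hx]; exact hent _ _
    · rw [← hatt 0]; exact ov_le B χ w u a0 0
  have hgood : Nf B w u a0 * Nf B w u (-a0) = 1 := by
    apply le_antisymm _ (N_ge hB hχ hS a0)
    by_contra hcon
    push Not at hcon
    rw [hNa0] at hcon
    obtain ⟨y1, hy1⟩ := N_att B w u (-a0)
    set c' := w y1 * u (y1 + (-a0)) with hc'
    have hN'0 : Nf B w u (-a0) ≠ 0 := by
      intro h; rw [h, mul_zero] at hcon; exact not_lt_of_ge zero_le hcon
    have hc'0 : c' ≠ 0 := by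
      intro h; rw [h, map_zero] at hy1; exact hN'0 hy1.symm
    have mf : ∀ x, w x * u (x + a0) / m0 ∈ B := by
      intro x
      rw [← B.valuation_le_one_iff, map_div₀]
      exact div_le_one_of_le₀ (hent _ _) zero_le
    have mg : ∀ x, w x * u (x + (-a0)) / c' ∈ B := by
      intro x
      rw [← B.valuation_le_one_iff, map_div₀, hy1]
      exact div_le_one_of_le₀ (N_le B w u (-a0) x) zero_le
    obtain ⟨P, hPd, hP⟩ := SP.exists_poly (k := IsLocalRing.ResidueField B)
      (fun x : ZMod p => rs B (w x * u (x + a0) / m0))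
    obtain ⟨Q, hQd, hQ⟩ := SP.exists_poly (k := IsLocalRing.ResidueField B)
      (fun x : ZMod p => rs B (w x * u (x + (-a0)) / c'))
    have hsum : ∑ x : ZMod p, P.eval (SP.em p _ x) ≠ 0 := by
      simp_rw [hP]
      rw [← rs_sum B _ _ (fun x _ => mf x), ← Finset.sum_div, ← SP.ov_zero_right χ]
      have h1 : B.valuation (ov χ w u a0 0 / m0) = 1 := by
        rw [map_div₀, hatt, div_self hM0.ne']
      exact (rs_ne_zero_val B (mem_of_val B h1)).mpr h1
    have hPdeg : p - 1 ≤ P.natDegree := by
      by_contra h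
      push Not at h
      apply hsum
      rw [SP.sum_poly P (by omega), Polynomial.coeff_eq_zero_of_natDegree_lt h, neg_zero]
    have hP0 : P ≠ 0 := by
      rintro rfl
      apply hsum
      simp
    have hQ0 : Q ≠ 0 := by
      rintro rfl
      have h1 := hQ y1
      rw [Polynomial.eval_zero, div_self hc'0, rs_one] at h1
      exact zero_ne_one h1
    have h1 := SP.deg_lt P Q hP0 hQ0 hPd hQd (by
      intro j
      simp_rw [hP, hQ]
      have h2 : ∀ x, rs B (w x * u (x + a0) / m0) * rs B (w (x + j) * u (x + j + (-a0)) / c')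
          = rs B (((w x * u (x + a0)) * (w (x + j) * u (x + j + (-a0)))) / (m0 * c')) := by
        intro x
        rw [← rs_mul B (mf x) (mg _), div_mul_div_comm]
      simp_rw [h2]
      rw [← rs_sum B _ _ (fun x _ => by
        have := B.mul_mem _ _ (mf x) (mg (x + j))
        rwa [div_mul_div_comm] at this), ← Finset.sum_div, four_terms hχ hS a0 j ha0]
      have h3 : B.valuation ((if j = a0 then ((p : L) + 1)⁻¹ else 0) / (m0 * c')) < 1 := by
        rw [map_div₀, map_mul, hy1, div_lt_one₀ (zero_lt_one.trans hcon)]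
        refine lt_of_le_of_lt ?_ hcon
        split_ifs
        · exact (SP.val_c hB).le
        · rw [map_zero]; exact zero_le
      exact (rs_eq_zero_val B ((B.valuation_le_one_iff _).mp h3.le)).mpr h3)
    omega
  have hN0' := N_zero_le hB hχ hS a0 hgood
  have hN := N_mul hB hχ hS hN0'
  have hN0 : Nf B w u 0 = 1 := by
    apply le_antisymm hN0'
    have := ov_le B χ w u 0 0
    rwa [hS.zero, map_one] at this
  have hNa : Nf B w u a0 ≠ 1 := by rw [hNa0]; exact hm1.ne'
  have hmem : ∀ x, w x * u (x + 0) ∈ B := by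
    intro x
    rw [← B.valuation_le_one_iff]
    exact (N_le B w u 0 x).trans hN0'
  have hF : ∀ x, rs B (w x * u (x + 0)) ≠ 0 ↔ B.valuation (w x * u (x + 0)) = 1 :=
    fun x => rs_ne_zero_val B (hmem x)
  -- nonzero entries of the main diagonal are top entries
  have htop : ∀ s a, rs B (w s * u (s + 0)) ≠ 0 → rs B (w (s + a) * u (s + a + 0)) ≠ 0 →
      B.valuation (w s * u (s + a)) = Nf B w u a ∧
        B.valuation (w (s + a) * u (s + a + (-a))) = Nf B w u (-a) := by
    intro s a h1 h2
    rw [hF] at h1 h2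
    apply eq_of_mul (N_le B w u _ s) (N_le B w u _ (s + a))
    · rw [← map_mul, ← prod_zero, map_mul, h1, h2, hN, one_mul]
    · rw [hN]; exact one_ne_zero
  have hsum : ∀ j, ∑ x, rs B (w x * u (x + 0)) * rs B (w (x + j) * u (x + j + 0))
      = rs B (∑ x, (w x * u (x + 0)) * (w (x + j) * u (x + j + 0))) := by
    intro j
    rw [rs_sum B _ _ (fun x _ => B.mul_mem _ _ (hmem x) (hmem (x + j)))]
    apply Finset.sum_congr rfl
    intro x _
    rw [rs_mul B (hmem x) (hmem (x + j))]
  have hq1 : rs B ((p : L) + 1)⁻¹ = 1 := rs_p1 B hB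
  have hp1m : ((p : L) + 1)⁻¹ ∈ B := mem_of_val B (SP.val_c hB)
  -- level relation
  have hlev : ∀ s s', rs B (w s * u (s + 0)) ≠ 0 → rs B (w s' * u (s' + 0)) ≠ 0 →
      Nf B w u (s' - s) = 1 → B.valuation (w s) = B.valuation (w s') := by
    intro s s' h1 h2 h3
    have e1 : s + (s' - s) = s' := by ring
    have h4 := (htop s (s' - s) h1 (by rwa [e1])).1
    rw [e1, h3, map_mul] at h4
    rw [hF, add_zero, map_mul] at h2
    have h5 : B.valuation (u s') ≠ 0 := by
      intro h6; rw [h6, mul_zero] at h2; exact zero_ne_one h2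
    exact mul_right_cancel₀ h5 (h4.trans h2.symm)
  have huniq : ∀ s s' x, rs B (w s * u (s + 0)) ≠ 0 → rs B (w s' * u (s' + 0)) ≠ 0 →
      B.valuation (w s) ≠ B.valuation (w s') → rs B (w x * u (x + 0)) ≠ 0 →
      rs B (w (x + (s' - s)) * u (x + (s' - s) + 0)) ≠ 0 → x = s := by
    intro s s' x h1 h2 h3 h7 h8
    have hss : s' - s ≠ 0 := by
      intro h4
      apply h3
      rw [sub_eq_zero.mp h4]
    have h4 : Nf B w u (s' - s) ≠ 1 := fun h5 => h3 (hlev s s' h1 h2 h5)
    by_contra hxs
    obtain ⟨h9, _⟩ := htop x (s' - s) h7 h8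
    obtain ⟨_, h10⟩ := htop s (s' - s) h1 (by
      have e1 : s + (s' - s) = s' := by ring
      rwa [e1])
    apply h4
    apply single hB hχ hS hN hN0 (s' - s) x (s + (s' - s)) hss h9 h10
    intro h11
    apply hxs
    linear_combination -h11
  apply levels_p (k := IsLocalRing.ResidueField B) hp5 hex (fun x => rs B (w x * u (x + 0)))
    (fun x => B.valuation (w x))
  · have h1 := hsum 0
    simp only [add_zero] at h1 ⊢
    rw [h1]
    have h2 := four_terms_zero hχ hS 0
    simp only [add_zero, if_true] at h2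
    have hm2 : (2 : L) ∈ B := by
      have := nat_mem B 2
      exact_mod_cast this
    rw [h2, rs_mul B hm2 hp1m, hq1, mul_one]
    have := rs_nat B 2
    push_cast at this
    exact this
  · intro a ha
    rw [hsum a, four_terms_zero hχ hS a, if_neg ha, hq1]
  · intro s s' h1 h2 h3
    have hss : s' - s ≠ 0 := by
      intro h4
      apply h3
      rw [sub_eq_zero.mp h4]
    have h5 := hsum (s' - s)
    rw [four_terms_zero hχ hS, if_neg hss, hq1] at h5
    rw [← h5, Finset.sum_eq_single s]
    · have e1 : s + (s' - s) = s' := by ring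
      rw [e1]
    · intro x _ hxs
      by_contra h6
      have h7 := left_ne_zero_of_mul h6
      have h8 := right_ne_zero_of_mul h6
      exact hxs (huniq s s' x h1 h2 h3 h7 h8)
    · intro h; exact absurd (mem_univ _) h
  · exact huniq
  · intro s s' x h1 h2 hss h3 h4 h5
    have hd : s' - s ≠ 0 := sub_ne_zero.mpr (Ne.symm hss)
    have e1 : s + (s' - s) = s' := by ring
    obtain ⟨h6, h7⟩ := htop s (s' - s) h1 (by rwa [e1])
    obtain ⟨h8, h9⟩ := htop x (s' - s) h4 h5
    obtain ⟨h10, h11⟩ := level_eq hB hχ hS hN hN0 (s' - s) x (s + (s' - s)) hd h8 h7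
    rw [e1] at h10 h11
    have e2 : s' + -(s' - s) = s := by ring
    rw [e2] at h11
    -- levels of `x` and `x + (s' - s)`
    rw [hF, add_zero, map_mul] at h1 h2 h4 h5
    constructor
    · have h12 : B.valuation (u s) ≠ 0 := by
        intro h13; rw [h13, mul_zero] at h1; exact zero_ne_one h1
      exact mul_right_cancel₀ h12 (h11.trans h1.symm)
    · have h12 : B.valuation (u (x + (s' - s))) ≠ 0 := by
        intro h13; rw [h13, mul_zero] at h5; exact zero_ne_one h5
      show B.valuation (w (x + (s' - s))) = B.valuation (w s)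
      have h13 : B.valuation (w s) = B.valuation (w s') := h3
      rw [h13]
      exact mul_right_cancel₀ h12 (h5.trans h10.symm)
  · have h1 := hsum a0
    rw [four_terms_zero hχ hS, if_neg ha0, hq1] at h1
    have h2 : ∃ s, rs B (w s * u (s + 0)) ≠ 0 ∧ rs B (w (s + a0) * u (s + a0 + 0)) ≠ 0 := by
      by_contra hcon
      push Not at hcon
      apply one_ne_zero (α := IsLocalRing.ResidueField B)
      rw [← h1]
      apply Finset.sum_eq_zero
      intro x _
      by_cases hx : rs B (w x * u (x + 0)) = 0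
      · rw [hx, zero_mul]
      · rw [hcon x hx, mul_zero]
    obtain ⟨s, hs, hsa⟩ := h2
    refine ⟨s, s + a0, hs, hsa, ?_⟩
    intro h3
    apply hNa
    have h4 := (htop s a0 hs hsa).1
    rw [hF, add_zero, map_mul] at hsa
    rw [← h4, map_mul]
    have h5 : B.valuation (w s) = B.valuation (w (s + a0)) := h3
    rw [h5]
    exact hsa

end main

end Pool.Agent.H990.SU
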