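import Pool.Agent.H990.SU.Slope2

/-!
# Values at places over `p`
-/

set_option autoImplicit false
set_option linter.unusedSectionVars false
set_option linter.unusedVariables false

namespace Pool.Agent.H990.SU

open Finset Pool.Agent.H207.WH

variable {L : Type*} [Field L] {Γ : Type*} [LinearOrderedCommGroupWithZero Γ] {p : ℕ}
  [Fact p.Prime] {V : Valuation L Γ} {R ε M : Γ} {χ : AddChar (ZMod p) L} {w u : ZMod p → L} {j : ℕ}

theorem geom_le (V : Valuation L Γ) (χ : AddChar (ZMod p) L) (x : ZMod p) (n : ℕ) :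
    V (χ ((n : ZMod p) * x) - 1) ≤ V (Dd χ x) := by
  rw [chi_nat, ← geom_sum_mul, map_mul, Dd]
  have h1 : V (∑ i ∈ range n, χ x ^ i) ≤ 1 := by
    apply Valuation.map_sum_le
    intro i _
    rw [map_pow, Vchi, one_pow]
  calc _ ≤ 1 * V (χ x - 1) := mul_le_mul_of_nonneg_right h1 zero_le
    _ = _ := one_mul _

theorem Dd_le (V : Valuation L Γ) (χ : AddChar (ZMod p) L) (x : ZMod p) :
    V (Dd χ x) ≤ V (Dd χ 1) := by
  have := geom_le V χ 1 x.val
  rwa [ZMod.natCast_zmod_val, mul_one] at this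

theorem Dd_eq (V : Valuation L Γ) (χ : AddChar (ZMod p) L) (x : ZMod p) (hx : x ≠ 0) :
    V (Dd χ x) = V (Dd χ 1) := by
  apply le_antisymm (Dd_le V χ x)
  have := geom_le V χ x (x⁻¹).val
  rw [ZMod.natCast_zmod_val, inv_mul_cancel₀ hx] at this
  exact this

theorem chi_sub_eq (V : Valuation L Γ) (χ : AddChar (ZMod p) L) (x y : ZMod p) (hxy : x ≠ y) :
    V (χ x - χ y) = V (Dd χ 1) := by
  have e1 : χ x - χ y = χ y * Dd χ (x - y) := by
    rw [Dd, mul_sub, ← AddChar.map_add_eq_mul, mul_one]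
    congr 2; ring
  rw [e1, map_mul, Vchi, one_mul, Dd_eq V χ _ (sub_ne_zero.mpr hxy)]

theorem prim_root [CharZero L] (hχ : χ.IsPrimitive) : IsPrimitiveRoot (χ 1) p := by
  have hp : p.Prime := Fact.out
  have h1 : orderOf (χ 1) = p := by
    apply orderOf_eq_prime (chi_pow χ 1)
    intro h
    have h2 : χ 1 = χ 0 := by rw [h, AddChar.map_zero_eq_one]
    exact one_ne_zero (chi_inj hχ h2)
  have h2 : ∀ (z : L) (n : ℕ), orderOf z = n → IsPrimitiveRoot z n := by
    intro z n h
    rw [← h]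
    exact IsPrimitiveRoot.orderOf z
  exact h2 _ _ h1

theorem val_p_le [CharZero L] (V : Valuation L Γ) (hχ : χ.IsPrimitive) :
    V (p : L) ≤ V (Dd χ 1) ^ (p - 1) := by
  have hp : p.Prime := Fact.out
  have e1 : p - 1 + 1 = p := by have := hp.pos; omega
  have h1 : IsPrimitiveRoot (χ 1) (p - 1 + 1) := by rw [e1]; exact prim_root hχ
  have h2 := h1.prod_one_sub_pow_eq_order
  have h3 : ((p - 1 : ℕ) : L) + 1 = p := by exact_mod_cast congrArg (Nat.cast (R := L)) e1
  rw [h3] at h2
  rw [← h2, map_prod]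
  calc ∏ k ∈ range (p - 1), V (1 - χ 1 ^ (k + 1)) ≤ ∏ _k ∈ range (p - 1), V (Dd χ 1) := by
        apply Finset.prod_le_prod
        · intro i _; exact zero_le
        · intro i _
          rw [← chi_nat, V.map_sub_swap]
          exact geom_le V χ 1 (i + 1)
    _ = _ := by rw [Finset.prod_const, Finset.card_range]

theorem Dd_pow_p (χ : AddChar (ZMod p) L) (x : ZMod p) :
    Dd χ x ^ p = -∑ m ∈ range (p - 1), (p.choose (m + 1) : L) * Dd χ x ^ (m + 1) := by
  have hp : p.Prime := Fact.out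
  have h1 := chi_pow χ x
  rw [chi_Dd, add_comm, add_pow] at h1
  simp only [one_pow, mul_one] at h1
  rw [Finset.sum_range_succ] at h1
  have e1 : p = (p - 1) + 1 := by have := hp.pos; omega
  have h2 : ∑ m ∈ range p, Dd χ x ^ m * (p.choose m : L)
      = (∑ m ∈ range (p - 1), Dd χ x ^ (m + 1) * (p.choose (m + 1) : L)) + 1 := by
    conv_lhs => rw [show range p = range ((p - 1) + 1) from by rw [← e1]]
    rw [Finset.sum_range_succ']
    simp
  rw [h2, Nat.choose_self, Nat.cast_one, mul_one] at h1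
  have h3 : ∑ m ∈ range (p - 1), (p.choose (m + 1) : L) * Dd χ x ^ (m + 1)
      = ∑ m ∈ range (p - 1), Dd χ x ^ (m + 1) * (p.choose (m + 1) : L) :=
    Finset.sum_congr rfl fun m _ => mul_comm _ _
  rw [h3]
  linear_combination h1

theorem gg_rec (χ : AddChar (ZMod p) L) (f : ZMod p → L) (q : ℕ) :
    gg χ f (q + p) = -∑ m ∈ range (p - 1), (p.choose (m + 1) : L) * gg χ f (q + (m + 1)) := by
  simp only [gg, Finset.mul_sum]
  rw [Finset.sum_comm, ← Finset.sum_neg_distrib]
  apply Finset.sum_congr rfl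
  intro x _
  rw [pow_add, Dd_pow_p, mul_neg, mul_neg, Finset.mul_sum, Finset.mul_sum]
  congr 1
  apply Finset.sum_congr rfl
  intro m _
  rw [pow_add]; ring

theorem V_choose (V : Valuation L Γ) (m : ℕ) (hm : m < p - 1) :
    V (p.choose (m + 1) : L) ≤ V (p : L) := by
  have hp : p.Prime := Fact.out
  obtain ⟨c, hc⟩ := hp.dvd_choose_self (k := m + 1) (by omega) (by omega)
  rw [hc, Nat.cast_mul, map_mul]
  calc V (p : L) * V (c : L) ≤ V (p : L) * 1 := mul_le_mul_of_nonneg_left (V_nat_le V c) zero_le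
    _ = _ := mul_one _

/-- high Newton coefficients -/
theorem high_le (hp : V (p : L) ≤ R ^ (p - 1)) (hR : R ≤ 1) (f : ZMod p → L)
    (h : ∀ k, k < p → V (gg χ f k) ≤ M * R ^ k) (k : ℕ) : V (gg χ f k) ≤ M * R ^ k := by
  have hpp : p.Prime := Fact.out
  induction k using Nat.strong_induction_on with
  | _ k ih =>
    by_cases hk : k < p
    · exact h k hk
    obtain ⟨q, hq⟩ : ∃ q, k = q + p := ⟨k - p, by omega⟩
    rw [hq, gg_rec, Valuation.map_neg]
    apply Valuation.map_sum_le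
    intro m hm
    rw [Finset.mem_range] at hm
    rw [map_mul]
    calc V (p.choose (m + 1) : L) * V (gg χ f (q + (m + 1)))
        ≤ R ^ (p - 1) * (M * R ^ (q + (m + 1))) :=
          mul_le_mul_of_nonneg' ((V_choose V m hm).trans hp) (ih _ (by omega)) zero_le zero_le
      _ = M * R ^ (p - 1 + (q + (m + 1))) := by rw [pow_add R (p - 1)]; ac_rfl
      _ ≤ M * R ^ (q + p) := mul_le_mul_of_nonneg_left
          (pow_le_pow_of_le_one zero_le hR (by omega)) zero_le

theorem high_lt (hp : V (p : L) < R ^ (p - 1)) (hR0 : 0 < R) (hR : R ≤ 1) (hM : 0 < M)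
    (f : ZMod p → L) (h : ∀ k, V (gg χ f k) ≤ M * R ^ k) (k : ℕ) (hk : p ≤ k) :
    V (gg χ f k) < M * R ^ k := by
  have hpp : p.Prime := Fact.out
  obtain ⟨q, hq⟩ : ∃ q, k = q + p := ⟨k - p, by omega⟩
  rw [hq, gg_rec, Valuation.map_neg]
  apply Valuation.map_sum_lt _ (mul_pos hM (pow_pos hR0 _)).ne'
  intro m hm
  rw [Finset.mem_range] at hm
  rw [map_mul]
  calc V (p.choose (m + 1) : L) * V (gg χ f (q + (m + 1)))
      ≤ V (p : L) * (M * R ^ (q + (m + 1))) :=
        mul_le_mul_of_nonneg' (V_choose V m hm) (h _) zero_le zero_le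
    _ < R ^ (p - 1) * (M * R ^ (q + (m + 1))) :=
        mul_lt_mul_of_lt_of_le_of_nonneg_of_pos hp le_rfl zero_le (mul_pos hM (pow_pos hR0 _))
    _ = M * R ^ (p - 1 + (q + (m + 1))) := by rw [pow_add R (p - 1)]; ac_rfl
    _ ≤ M * R ^ (q + p) := mul_le_mul_of_nonneg_left
        (pow_le_pow_of_le_one zero_le hR (by omega)) zero_le

theorem G_prod (s : Finset (ZMod p)) (hD : ∀ x, V (Dd χ x) ≤ R) :
    (fun x _ => ∏ y ∈ s, (χ x - χ y) : ZMod p → ZMod p → L) ∈ G V R χ (R ^ s.card) := by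
  classical
  induction s using Finset.induction_on with
  | empty =>
    simp only [Finset.prod_empty, Finset.card_empty, pow_zero]
    exact G_one
  | insert a s ha ih =>
    rw [Finset.card_insert_of_notMem ha, pow_succ']
    have h1 : (fun x _ => χ x - χ a : ZMod p → ZMod p → L) ∈ G V R χ R := by
      have h2 := G_sub (G_x (V := V) (R := R) (χ := χ)) (G_const (V := V) (R := R) (χ := χ) _ (hD a))
      convert h2 using 1
      funext x y
      simp only [Pi.sub_apply, Dd]
      ring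
    convert G_mul h1 ih using 1
    funext x y
    simp only [Pi.mul_apply]
    rw [Finset.prod_insert ha]

/-- **Lagrange.** -/
theorem lagrange [CharZero L] (hχ : χ.IsPrimitive) (hR1 : V (Dd χ 1) ≤ 1) (f : ZMod p → L)
    (h : ∀ k, k < p → V (gg χ f k) ≤ M * V (Dd χ 1) ^ k) (x : ZMod p) : V (f x) ≤ M := by
  classical
  have hp : p.Prime := Fact.out
  have hle := high_le (val_p_le V hχ) hR1 f h
  have h1 := PP_le_one hle (G_prod (V := V) (univ.erase x) (Dd_le V χ))
  rw [Finset.sum_eq_single x] at h1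
  · rw [map_mul, map_prod, Finset.prod_congr rfl (fun y hy => chi_sub_eq V χ x y
      (Ne.symm (Finset.ne_of_mem_erase hy))), Finset.prod_const] at h1
    have h0 : 0 < V (Dd χ 1) := by
      rw [zero_lt_iff, ne_eq, map_eq_zero, Dd, sub_eq_zero]
      intro h2
      have h3 : χ 1 = χ 0 := by rw [h2, AddChar.map_zero_eq_one]
      exact one_ne_zero (chi_inj hχ h3)
    exact le_of_mul_le_mul_right h1 (pow_pos h0 _)
  · intro y _ hy
    rw [Finset.prod_eq_zero (f := fun y_1 => χ y - χ y_1) (i := y)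
      (Finset.mem_erase.mpr ⟨hy, mem_univ _⟩) (sub_self _), mul_zero]
  · intro h2; exact absurd (mem_univ _) h2

end Pool.Agent.H990.SU
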